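import Pool.Agent.H.MP_4bcbbd_co.C.Cfg

/-!
MP_4bcbbd_co, edges in all dimensions: functionals with prescribed values near a linearly
independent family.
-/

set_option autoImplicit false

namespace Pool.Agent.H.MP_4bcbbd_co.C

open scoped BigOperators

/-- Dual functionals of a linearly independent family (as in `X.perturb_coord`). -/
theorem exists_dual {d m : ℕ} {e : Fin m → E d} (he : LinearIndependent ℝ e) :
    ∃ g : Fin m → (E d →L[ℝ] ℝ), ∀ i j, g i (e j) = if i = j then 1 else 0 := by
  classical
  have h1 : ∀ i : Fin m, ∃ g : E d →L[ℝ] ℝ, ∀ j, g (e j) = if i = j then 1 else 0 := by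
    intro i
    let a : Fin m → ℝ := fun j => if i = j then 1 else 0
    let g : Submodule.span ℝ (Set.range e) →ₗ[ℝ] ℝ :=
      (Finsupp.linearCombination ℝ a).comp he.repr
    obtain ⟨m', hm⟩ := LinearMap.exists_extend g
    refine ⟨LinearMap.toContinuousLinearMap m', fun j => ?_⟩
    have h1 : e j ∈ Submodule.span ℝ (Set.range e) := Submodule.subset_span ⟨j, rfl⟩
    have h2 := DFunLike.congr_fun hm ⟨e j, h1⟩
    have h3 : he.repr ⟨e j, h1⟩ = Finsupp.single j 1 := he.repr_eq_single j ⟨e j, h1⟩ rfl
    simp only [LinearMap.comp_apply, Submodule.subtype_apply, g, h3,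
      Finsupp.linearCombination_single, one_smul] at h2
    simpa [a] using h2
  choose g hg using h1
  exact ⟨g, hg⟩

/-- Near a linearly independent family there are functionals with prescribed values.
PROOF. Let `g i` be dual functionals of `e`. For `e' : Fin m → E d` let
`A e' = 1 + ∑ i, (g i).smulRight (e' i - e i) : E d →L[ℝ] E d`; it maps `e j` to `e' j`, depends
continuously on `e'`, and `A e = 1`. For `t : Fin m → ℝ` let `f0 t = l + ∑ i, (t i - l (e i)) • g i`, so
`f0 t (e i) = t i`. Put `f = (f0 t).comp (Ring.inverse (A e'))`. For `e'` near `e` the operator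
`A e'` is invertible (`Units.isOpen`), hence `Ring.inverse (A e') (e' j) = e j` and `f (e' j) = t j`; and `f → l`
as `(e', t) → (e, l ∘ e)` by continuity of `Ring.inverse` at `1` (`NormedRing.inverse_continuousAt`). Get `δ` from
`Metric.eventually_nhds_iff` (product of pi types, `dist_pi_lt_iff`). -/
theorem adjust {d m : ℕ} {e : Fin m → E d} (he : LinearIndependent ℝ e) (l : E d →L[ℝ] ℝ)
    {η : ℝ} (hη : 0 < η) :
    ∃ δ : ℝ, 0 < δ ∧ ∀ (e' : Fin m → E d) (t : Fin m → ℝ), (∀ i, ‖e' i - e i‖ < δ) →
      (∀ i, |t i - l (e i)| < δ) → ∃ f : E d →L[ℝ] ℝ, (∀ i, f (e' i) = t i) ∧ ‖f - l‖ < η := by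
  classical
  obtain ⟨g, hg⟩ := exists_dual he
  let A : (Fin m → E d) → (E d →L[ℝ] E d) := fun e' =>
    1 + ∑ i, ContinuousLinearMap.smulRight (g i) (e' i - e i)
  let f0 : (Fin m → ℝ) → (E d →L[ℝ] ℝ) := fun t => l + ∑ i, (t i - l (e i)) • g i
  have hA : ∀ e' j, A e' (e j) = e' j := by
    intro e' j
    have h1 : A e' (e j) = e j + ∑ i, g i (e j) • (e' i - e i) := by
      simp [A, ContinuousLinearMap.sum_apply]
    rw [h1, Finset.sum_eq_single j]
    · rw [hg, if_pos rfl, one_smul]
      abel
    · intro i _ hij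
      rw [hg, if_neg hij, zero_smul]
    · intro h
      exact absurd (Finset.mem_univ j) h
  have hf0 : ∀ t j, f0 t (e j) = t j := by
    intro t j
    have h1 : f0 t (e j) = l (e j) + ∑ i, (t i - l (e i)) * g i (e j) := by
      simp [f0, ContinuousLinearMap.sum_apply]
    rw [h1, Finset.sum_eq_single j]
    · rw [hg, if_pos rfl, mul_one]
      ring
    · intro i _ hij
      rw [hg, if_neg hij, mul_zero]
    · intro h
      exact absurd (Finset.mem_univ j) h
  have hAc : Continuous A := by
    have h1 : ∀ i : Fin m, Continuous fun e' : Fin m → E d =>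
        ContinuousLinearMap.smulRight (g i) (e' i - e i) := by
      intro i
      exact (ContinuousLinearMap.smulRightL ℝ (E d) (E d) (g i)).continuous.comp
        ((continuous_apply i).sub continuous_const)
    exact continuous_const.add (continuous_finset_sum _ fun i _ => h1 i)
  have hf0c : Continuous f0 := by
    refine continuous_const.add (continuous_finset_sum _ fun i _ => ?_)
    exact ((continuous_apply i).sub continuous_const).smul continuous_const
  have hA1 : A e = 1 := by
    simp [A]
  have hf01 : f0 (fun i => l (e i)) = l := by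
    simp [f0]
  have hunit : ∀ᶠ q : (Fin m → E d) × (Fin m → ℝ) in nhds (e, fun i => l (e i)),
      IsUnit (A q.1) := by
    have h1 : {B : E d →L[ℝ] E d | IsUnit B} ∈ nhds (A e) := by
      rw [hA1]
      exact Units.isOpen.mem_nhds isUnit_one
    have h2 : Filter.Tendsto (fun q : (Fin m → E d) × (Fin m → ℝ) => A q.1)
        (nhds (e, fun i => l (e i))) (nhds (A e)) :=
      (hAc.comp continuous_fst).tendsto _
    exact h2.eventually h1
  have hclose : ∀ᶠ q : (Fin m → E d) × (Fin m → ℝ) in nhds (e, fun i => l (e i)),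
      ‖(f0 q.2).comp (Ring.inverse (A q.1)) - l‖ < η := by
    have h1 : ContinuousAt (fun q : (Fin m → E d) × (Fin m → ℝ) => Ring.inverse (A q.1))
        (e, fun i => l (e i)) := by
      have h2 : ContinuousAt Ring.inverse (A e) := by
        rw [hA1]
        exact NormedRing.inverse_continuousAt (1 : (E d →L[ℝ] E d)ˣ)
      exact ContinuousAt.comp (f := fun q : (Fin m → E d) × (Fin m → ℝ) => A q.1)
        (x := (e, fun i => l (e i))) h2 (hAc.comp continuous_fst).continuousAt
    have h2 : ContinuousAt (fun q : (Fin m → E d) × (Fin m → ℝ) =>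
        (f0 q.2).comp (Ring.inverse (A q.1))) (e, fun i => l (e i)) :=
      (hf0c.comp continuous_snd).continuousAt.clm_comp h1
    have h3 : ContinuousAt (fun q : (Fin m → E d) × (Fin m → ℝ) =>
        ‖(f0 q.2).comp (Ring.inverse (A q.1)) - l‖) (e, fun i => l (e i)) :=
      (h2.sub continuousAt_const).norm
    have h4 : ‖(f0 (e, fun i => l (e i)).2).comp (Ring.inverse (A (e, fun i => l (e i)).1)) - l‖
        = 0 := by
      simp only [hA1, hf01, Ring.inverse_one]
      have : l.comp (1 : E d →L[ℝ] E d) = l := by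
        ext x
        rfl
      rw [this, sub_self, norm_zero]
    have h5 : Filter.Tendsto (fun q : (Fin m → E d) × (Fin m → ℝ) =>
        ‖(f0 q.2).comp (Ring.inverse (A q.1)) - l‖) (nhds (e, fun i => l (e i))) (nhds 0) := by
      have := h3.tendsto
      rwa [h4] at this
    exact h5.eventually_lt_const hη
  obtain ⟨δ, hδ, hball⟩ := Metric.eventually_nhds_iff.1 (hunit.and hclose)
  refine ⟨δ, hδ, fun e' t he' ht => ?_⟩
  have hd : dist ((e', t) : (Fin m → E d) × (Fin m → ℝ)) (e, fun i => l (e i)) < δ := by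
    rw [Prod.dist_eq, max_lt_iff, dist_pi_lt_iff hδ, dist_pi_lt_iff hδ]
    refine ⟨fun i => ?_, fun i => ?_⟩
    · rw [dist_eq_norm]
      exact he' i
    · rw [Real.dist_eq]
      exact ht i
  obtain ⟨h1, h2⟩ := hball hd
  refine ⟨(f0 t).comp (Ring.inverse (A e')), fun i => ?_, h2⟩
  have h3 : Ring.inverse (A e') * A e' = 1 := Ring.inverse_mul_cancel _ h1
  have h4 : Ring.inverse (A e') (e' i) = e i := by
    have h5 := DFunLike.congr_fun h3 (e i)
    rw [← hA e' i]
    exact h5
  rw [ContinuousLinearMap.comp_apply, h4, hf0]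

end Pool.Agent.H.MP_4bcbbd_co.C
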