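import Pool.Agent.H.MP_4bcbbd_co.C.Packing

/-!
MP_4bcbbd_co, edges in all dimensions: bounds for the number of points of a tangent configuration.
-/

set_option autoImplicit false

namespace Pool.Agent.H.MP_4bcbbd_co.C

open scoped BigOperators

/-- PROOF. `packing` for the `2 k` points `bs s • p a`, `(a, s) : Fin k × Bool`, with
`P = {z | ‖z‖ < R ∧ ∀ l ∈ F, |l z| < 1}`, where `F` is the finite set of the functionals of `Tangent` for all
`a ≠ b`, `ε = ±1`, and `R > ‖p a‖` for all `a`. Two different signed points: `p a` and `- p a` are separated by any functional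
of `a` and some `b ≠ a` (`k ≥ 2`), `p a` and `- p b` by the one for `ε = 1`, `p a` and `p b` by
the one for `ε = -1`, etc. (`± l`). The points `t • (bs s • p a)`, `0 ≤ t < 1`, are in `P`, so `bs s • p a` is in the closure. -/
theorem tangent_bound {d k : ℕ} (hk : 2 ≤ k) {p u : Fin k → E d} (h : Tangent p u) :
    k ≤ 2 ^ (d - 1) := by
  classical
  have hex : ∀ q : (Fin k × Fin k) × Bool, ∃ l : E d →L[ℝ] ℝ, (∀ c, |l (p c)| ≤ 1) ∧
      (q.1.1 ≠ q.1.2 → l (p q.1.1) = 1 ∧ l (p q.1.2) = bs q.2) := by
    rintro ⟨⟨a, b⟩, s⟩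
    by_cases hab : a = b
    · exact ⟨0, fun c => by simp, fun h1 => absurd hab h1⟩
    · obtain ⟨l, l1, -, l3, -, l5⟩ := (h a b hab).2 (bs s) (bs_or s)
      refine ⟨l, fun c => ?_, fun _ => ⟨l1, l3⟩⟩
      by_cases hca : c = a
      · rw [hca, l1, abs_one]
      · by_cases hcb : c = b
        · rw [hcb, l3, abs_bs]
        · exact (l5 c hca hcb).le
  choose F hF1 hF2 using hex
  obtain ⟨R, hR⟩ : ∃ R : ℝ, R = 1 + ∑ c, ‖p c‖ := ⟨_, rfl⟩
  have hRc : ∀ c, ‖p c‖ < R := by
    intro c
    have := Finset.single_le_sum (f := fun c => ‖p c‖) (fun i _ => norm_nonneg _)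
      (Finset.mem_univ c)
    rw [hR]
    linarith
  have hR0 : 0 < R := by
    rw [hR]
    have : 0 ≤ ∑ c, ‖p c‖ := Finset.sum_nonneg fun _ _ => norm_nonneg _
    linarith
  obtain ⟨P, hP⟩ : ∃ P : Set (E d), P = Metric.ball 0 R ∩ ⋂ q, {z | |F q z| < 1} := ⟨_, rfl⟩
  have hmem : ∀ z, z ∈ P ↔ ‖z‖ < R ∧ ∀ q, |F q z| < 1 := by
    intro z
    rw [hP, Set.mem_inter_iff, Metric.mem_ball, dist_zero_right, Set.mem_iInter]
    rfl
  have hPo : IsOpen P := by
    rw [hP]
    refine Metric.isOpen_ball.inter (isOpen_iInter_of_finite fun q => ?_)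
    exact isOpen_lt (F q).continuous.abs continuous_const
  have hPc : Convex ℝ P := by
    rw [hP]
    refine (convex_ball 0 R).inter (convex_iInter fun q => ?_)
    intro z1 h1 z2 h2 a b ha hb hab
    have h1' := abs_lt.1 (show |F q z1| < 1 from h1)
    have h2' := abs_lt.1 (show |F q z2| < 1 from h2)
    show |F q (a • z1 + b • z2)| < 1
    rw [map_add, map_smul, map_smul, smul_eq_mul, smul_eq_mul, abs_lt]
    have hb' : b = 1 - a := by linarith
    subst hb'
    constructor
    · nlinarith [h1'.1, h2'.1, mul_nonneg ha (by linarith [h1'.1] : (0 : ℝ) ≤ F q z1 + 1),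
        mul_nonneg hb (by linarith [h2'.1] : (0 : ℝ) ≤ F q z2 + 1)]
    · nlinarith [h1'.2, h2'.2, mul_nonneg ha (by linarith [h1'.2] : (0 : ℝ) ≤ 1 - F q z1),
        mul_nonneg hb (by linarith [h2'.2] : (0 : ℝ) ≤ 1 - F q z2)]
  have hPb : Bornology.IsBounded P := by
    rw [hP]
    exact Metric.isBounded_ball.subset Set.inter_subset_left
  have hP0 : (0 : E d) ∈ P := by
    rw [hmem]
    refine ⟨by rw [norm_zero]; exact hR0, fun q => ?_⟩
    rw [map_zero, abs_zero]
    exact one_pos
  have hcl : ∀ i : Fin k × Bool, bs i.2 • p i.1 ∈ closure P := by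
    intro i
    have h1 : Filter.Tendsto (fun t : ℝ => t • (bs i.2 • p i.1)) (nhdsWithin 1 (Set.Iio 1))
        (nhds (bs i.2 • p i.1)) := by
      have h2 : Continuous fun t : ℝ => t • (bs i.2 • p i.1) := by fun_prop
      have h3 := h2.tendsto 1
      rw [one_smul] at h3
      exact h3.mono_left nhdsWithin_le_nhds
    refine mem_closure_of_tendsto h1 ?_
    have h4 : ∀ᶠ t : ℝ in nhdsWithin 1 (Set.Iio 1), 0 < t :=
      (lt_mem_nhds one_pos).filter_mono nhdsWithin_le_nhds
    filter_upwards [h4, self_mem_nhdsWithin] with t ht0 ht1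
    have ht1' : t < 1 := ht1
    rw [hmem]
    constructor
    · rw [norm_smul, norm_smul, Real.norm_eq_abs, Real.norm_eq_abs, abs_bs, one_mul,
        abs_of_pos ht0]
      have := hRc i.1
      have h5 := norm_nonneg (p i.1)
      nlinarith
    · intro q
      rw [map_smul, map_smul, smul_eq_mul, smul_eq_mul, abs_mul, abs_mul, abs_bs, one_mul,
        abs_of_pos ht0]
      have h5 := hF1 q i.1
      have h6 := abs_nonneg (F q (p i.1))
      nlinarith
  have hcard := packing P hPo hPc hPb hP0 (fun i : Fin k × Bool => bs i.2 • p i.1) hcl (by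
    rintro ⟨a, s⟩ ⟨b, t⟩ hne
    have hbs : ∀ r : Bool, ∀ q, ∀ z ∈ P, |(bs r • F q) z| < 1 := by
      intro r q z hz
      rw [ContinuousLinearMap.smul_apply, smul_eq_mul, abs_mul, abs_bs, one_mul]
      exact ((hmem z).1 hz).2 q
    by_cases hab : a = b
    · subst hab
      have hst : s ≠ t := fun h1 => hne (by rw [h1])
      obtain ⟨c, hc⟩ : ∃ c : Fin k, a ≠ c := by
        by_cases ha : (a : ℕ) = 0
        · exact ⟨⟨1, by omega⟩, fun h1 => by
            have := congrArg Fin.val h1
            simp only at this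
            omega⟩
        · exact ⟨⟨0, by omega⟩, fun h1 => by
            have := congrArg Fin.val h1
            simp only at this
            omega⟩
      obtain ⟨f1, -⟩ := hF2 ((a, c), true) hc
      refine ⟨bs s • F ((a, c), true), ?_, ?_, hbs _ _⟩
      · show (bs s • F ((a, c), true)) (bs s • p a) = 1
        rw [map_smul, ContinuousLinearMap.smul_apply, f1, smul_eq_mul, smul_eq_mul, mul_one,
          bs_mul_self]
      · show (bs s • F ((a, c), true)) (bs t • p a) = -1
        rw [map_smul, ContinuousLinearMap.smul_apply, f1, smul_eq_mul, smul_eq_mul, mul_one]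
        cases s <;> cases t
        · exact absurd rfl hst
        · norm_num
        · norm_num
        · exact absurd rfl hst
    · obtain ⟨f1, f2⟩ := hF2 ((a, b), xor s t) hab
      refine ⟨bs s • F ((a, b), xor s t), ?_, ?_, hbs _ _⟩
      · show (bs s • F ((a, b), xor s t)) (bs s • p a) = 1
        rw [map_smul, ContinuousLinearMap.smul_apply, f1, smul_eq_mul, smul_eq_mul, mul_one,
          bs_mul_self]
      · show (bs s • F ((a, b), xor s t)) (bs t • p b) = -1
        rw [map_smul, ContinuousLinearMap.smul_apply, f2, smul_eq_mul, smul_eq_mul]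
        cases s <;> cases t <;> norm_num)
  rw [Fintype.card_prod, Fintype.card_fin, Fintype.card_bool] at hcard
  rcases Nat.eq_zero_or_pos d with hd | hd
  · subst hd
    simp at hcard
    omega
  · have h1 : 2 ^ d = 2 * 2 ^ (d - 1) := by
      rw [← pow_succ']
      congr 1
      omega
    omega

end Pool.Agent.H.MP_4bcbbd_co.C
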