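import Pool.Agent.H.MP_4bcbbd_co.Base

/-!
MP_4bcbbd_co, edges in all dimensions: tangent configurations and the cluster number.
-/

set_option autoImplicit false

namespace Pool.Agent.H.MP_4bcbbd_co.C

/-- A tangent configuration: points `p a` with directions `u a`, no two of them parallel, such that for
`a ≠ b` and both signs `ε` some hyperplane `l = 1` contains `p a` and `ε • p b`, is parallel to
`u a` and `u b`, and has all the other points `± p c` strictly below it. -/
def Tangent {d k : ℕ} (p u : Fin k → E d) : Prop :=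
  ∀ a b : Fin k, a ≠ b → LinearIndependent ℝ ![u a, u b] ∧
    ∀ ε : ℝ, (ε = 1 ∨ ε = -1) → ∃ l : E d →L[ℝ] ℝ,
      l (p a) = 1 ∧ l (u a) = 0 ∧ l (p b) = ε ∧ l (u b) = 0 ∧
        ∀ c, c ≠ a → c ≠ b → |l (p c)| < 1

/-- The cluster number: the largest number of points of a tangent configuration in `ℝ^d`. -/
noncomputable def clusterNumber (d : ℕ) : ℕ :=
  sSup {k : ℕ | ∃ p u : Fin k → E d, Tangent p u}

/-- the sign of a boolean. -/
def bs (s : Bool) : ℝ := if s then 1 else -1

@[simp] lemma bs_true : bs true = 1 := rfl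

@[simp] lemma bs_false : bs false = -1 := rfl

lemma bs_or (s : Bool) : bs s = 1 ∨ bs s = -1 := by
  cases s
  · exact Or.inr rfl
  · exact Or.inl rfl

lemma bs_mul_self (s : Bool) : bs s * bs s = 1 := by
  cases s <;> norm_num

lemma abs_bs (s : Bool) : |bs s| = 1 := by
  cases s <;> norm_num

/-- a functional with value `1` at `x i`, `ε` at `x j`, and of absolute value `< 1` at the other
points. -/
def Two {n d : ℕ} (x : Fin n → E d) (i j : Fin n) (ε : ℝ) : Prop :=
  ∃ l : E d →L[ℝ] ℝ, l (x i) = 1 ∧ l (x j) = ε ∧ ∀ m, m ≠ i → m ≠ j → |l (x m)| < 1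

/-- the four vectors of two clusters are linearly independent. -/
theorem Tangent.li {d k : ℕ} {p u : Fin k → E d} (h : Tangent p u) {a b : Fin k} (hab : a ≠ b) :
    LinearIndependent ℝ ![p a, u a, p b, u b] := by
  obtain ⟨hu, hl⟩ := h a b hab
  obtain ⟨l, h1, h2, h3, h4, -⟩ := hl 1 (Or.inl rfl)
  obtain ⟨m, m1, m2, m3, m4, -⟩ := hl (-1) (Or.inr rfl)
  rw [LinearIndependent.pair_iff] at hu
  rw [Fintype.linearIndependent_iff]
  intro g hg
  simp only [Fin.sum_univ_four, Matrix.cons_val_zero, Matrix.cons_val_one, Matrix.cons_val] at hg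
  have e1 := congrArg l hg
  have e2 := congrArg m hg
  simp only [map_add, map_smul, smul_eq_mul, h1, h2, h3, h4, m1, m2, m3, m4, map_zero] at e1 e2
  have e3 : g 0 = 0 := by linarith
  have e4 : g 2 = 0 := by linarith
  rw [e3, e4, zero_smul, zero_smul, zero_add, add_zero] at hg
  obtain ⟨e5, e6⟩ := hu _ _ hg
  intro i
  fin_cases i
  · exact e3
  · exact e5
  · exact e4
  · exact e6

end Pool.Agent.H.MP_4bcbbd_co.C
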