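import Pool.Agent.H.MP_4bcbbd_co.C.Cfg

/-!
MP_4bcbbd_co, edges in all dimensions: polyhedra of functionals and their vertices.
-/

set_option autoImplicit false

namespace Pool.Agent.H.MP_4bcbbd_co.C

/-- the functionals with prescribed values at the points `w i`, `i ∈ B`, and of absolute value at
most `1` at the points `w i`, `i ∈ A`. -/
def NN {d : ℕ} {Λ : Type} (w : Λ → E d) (A B : Set Λ) (τ : Λ → ℝ) : Set (E d →L[ℝ] ℝ) :=
  {f | (∀ i ∈ B, f (w i) = τ i) ∧ ∀ i ∈ A, |f (w i)| ≤ 1}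

/-- the signed active set. -/
def code {d : ℕ} {Λ : Type} (w : Λ → E d) (A : Set Λ) (f : E d →L[ℝ] ℝ) : Set Λ × Set Λ :=
  ({i | i ∈ A ∧ f (w i) = 1}, {i | i ∈ A ∧ f (w i) = -1})

/-- Mixing. PROOF: `R = (g x - 1) / (1 - f2 x)`, `R' = (g x' - 1) / (1 - f1 x')`, both positive, and
`f = (1 + R + R')⁻¹ • (g + R' • f1 + R • f2)`. -/
theorem mix {d : ℕ} {Λ : Type} {w : Λ → E d} {A : Set Λ} {x x' : E d} {g f1 f2 : E d →L[ℝ] ℝ}
    (hg : 1 < g x) (hg' : 1 < g x') (h1 : f1 x = 1) (h1' : f1 x' < 1) (h2 : f2 x' = 1)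
    (h2' : f2 x < 1) (hgA : ∀ i ∈ A, |g (w i)| ≤ 1) (hA1 : ∀ i ∈ A, |f1 (w i)| < 1)
    (hA2 : ∀ i ∈ A, |f2 (w i)| < 1) :
    ∃ f : E d →L[ℝ] ℝ, f x = 1 ∧ f x' = 1 ∧ (∀ i ∈ A, |f (w i)| < 1) ∧
      ∀ (y : E d) (c : ℝ), g y = c → f1 y = c → f2 y = c → f y = c := by
  obtain ⟨R, hR⟩ : ∃ R : ℝ, R = (g x - 1) / (1 - f2 x) := ⟨_, rfl⟩
  obtain ⟨R', hR'⟩ : ∃ R' : ℝ, R' = (g x' - 1) / (1 - f1 x') := ⟨_, rfl⟩
  have hR0 : 0 < R := by rw [hR]; exact div_pos (by linarith) (by linarith)
  have hR0' : 0 < R' := by rw [hR']; exact div_pos (by linarith) (by linarith)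
  have eR : R * (1 - f2 x) = g x - 1 := by
    rw [hR]; exact div_mul_cancel₀ _ (by linarith)
  have eR' : R' * (1 - f1 x') = g x' - 1 := by
    rw [hR']; exact div_mul_cancel₀ _ (by linarith)
  have hS : 0 < 1 + R + R' := by linarith
  have hval : ∀ y, ((1 + R + R')⁻¹ • (g + R' • f1 + R • f2)) y =
      (1 + R + R')⁻¹ * (g y + R' * f1 y + R * f2 y) := by
    intro y
    simp only [ContinuousLinearMap.smul_apply, ContinuousLinearMap.add_apply, smul_eq_mul]
  refine ⟨(1 + R + R')⁻¹ • (g + R' • f1 + R • f2), ?_, ?_, ?_, ?_⟩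
  · rw [hval, h1]
    have : g x + R' * 1 + R * f2 x = 1 + R + R' := by linarith
    rw [this, inv_mul_cancel₀ hS.ne']
  · rw [hval, h2]
    have : g x' + R' * f1 x' + R * 1 = 1 + R + R' := by linarith
    rw [this, inv_mul_cancel₀ hS.ne']
  · intro i hi
    rw [hval, abs_mul, abs_of_pos (inv_pos.2 hS), inv_mul_lt_iff₀ hS, mul_one]
    have e1 := hgA i hi
    have e2 := hA1 i hi
    have e3 := hA2 i hi
    rw [abs_le] at e1
    rw [abs_lt] at e2 e3 ⊢
    constructor <;> nlinarith
  · intro y c hy1 hy2 hy3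
    rw [hval, hy1, hy2, hy3]
    field_simp
    ring

/-- PROOF: if two vertices `f`, `g` have the same signed active set then `f ± t (g - f)` is in the
polyhedron for small `t > 0`, and `f` is the midpoint. -/
theorem code_inj {d : ℕ} {Λ : Type} [Finite Λ] {w : Λ → E d} {A B : Set Λ} {τ : Λ → ℝ}
    {f g : E d →L[ℝ] ℝ} (hf : f ∈ (NN w A B τ).extremePoints ℝ)
    (hg : g ∈ (NN w A B τ).extremePoints ℝ) (h : code w A f = code w A g) : f = g := by
  obtain ⟨hf1, hf2⟩ := mem_extremePoints.1 hf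
  have hg1 := (mem_extremePoints.1 hg).1
  have hc1 : ∀ i ∈ A, f (w i) = 1 → g (w i) = 1 := by
    intro i hi h1
    have h2 : i ∈ (code w A f).1 := ⟨hi, h1⟩
    rw [h] at h2
    exact h2.2
  have hc2 : ∀ i ∈ A, f (w i) = -1 → g (w i) = -1 := by
    intro i hi h1
    have h2 : i ∈ (code w A f).2 := ⟨hi, h1⟩
    rw [h] at h2
    exact h2.2
  have hev : ∀ᶠ t : ℝ in nhds 0, f + t • (g - f) ∈ NN w A B τ := by
    have h1 : ∀ᶠ t : ℝ in nhds 0, ∀ i, i ∈ A → |(f + t • (g - f)) (w i)| ≤ 1 := by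
      rw [Filter.eventually_all]
      intro i
      by_cases hi : i ∈ A
      · by_cases e1 : f (w i) = 1
        · refine Filter.Eventually.of_forall fun t _ => ?_
          have e2 := hc1 i hi e1
          simp [e1, e2]
        · by_cases e3 : f (w i) = -1
          · refine Filter.Eventually.of_forall fun t _ => ?_
            have e4 := hc2 i hi e3
            simp [e3, e4]
          · have h3 : |f (w i)| < 1 := by
              refine lt_of_le_of_ne (hf1.2 i hi) fun h4 => ?_
              rcases (abs_eq one_pos.le).1 h4 with h5 | h5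
              · exact e1 h5
              · exact e3 h5
            have hcont : Continuous fun t : ℝ => |(f + t • (g - f)) (w i)| := by
              have h4 : (fun t : ℝ => |(f + t • (g - f)) (w i)|) =
                  fun t : ℝ => |f (w i) + t * (g (w i) - f (w i))| := by
                funext t
                simp
              rw [h4]
              fun_prop
            have h4 : Filter.Tendsto (fun t : ℝ => |(f + t • (g - f)) (w i)|) (nhds 0)
                (nhds |f (w i)|) := by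
              have := hcont.tendsto 0
              simpa using this
            filter_upwards [h4.eventually_lt_const h3] with t ht _
            exact ht.le
      · exact Filter.Eventually.of_forall fun t h => absurd h hi
    filter_upwards [h1] with t ht
    refine ⟨fun i hi => ?_, ht⟩
    have e1 := hf1.1 i hi
    have e2 := hg1.1 i hi
    simp [e1, e2]
  have hev2 : ∀ᶠ t : ℝ in nhds 0, f + (-t) • (g - f) ∈ NN w A B τ := by
    have h1 : Filter.Tendsto (fun t : ℝ => -t) (nhds 0) (nhds 0) := by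
      have := (continuous_neg (G := ℝ)).tendsto 0
      simpa using this
    exact h1.eventually hev
  have hev3 : ∀ᶠ t : ℝ in nhdsWithin 0 (Set.Ioi 0), f + t • (g - f) ∈ NN w A B τ ∧
      f + (-t) • (g - f) ∈ NN w A B τ :=
    (hev.and hev2).filter_mono nhdsWithin_le_nhds
  obtain ⟨t, ⟨ht1, ht2⟩, ht0⟩ := (hev3.and self_mem_nhdsWithin).exists
  have ht0' : (0 : ℝ) < t := ht0
  have hseg : f ∈ openSegment ℝ (f + t • (g - f)) (f + (-t) • (g - f)) := by
    refine ⟨1 / 2, 1 / 2, by norm_num, by norm_num, by norm_num, ?_⟩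
    module
  have h3 := (hf2 _ ht1 _ ht2 hseg).1
  have h4 : t • (g - f) = 0 := by
    have h5 : f + t • (g - f) = f + 0 := by rw [h3, add_zero]
    exact add_left_cancel h5
  rcases smul_eq_zero.1 h4 with h5 | h5
  · exact absurd h5 ht0'.ne'
  · exact (sub_eq_zero.1 h5).symm

end Pool.Agent.H.MP_4bcbbd_co.C
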