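import Pool.Agent.H.MP_4bcbbd_co.C.TanLt

/-!
MP_4bcbbd_co, edges in all dimensions: the faces between two clusters.
-/

set_option autoImplicit false

namespace Pool.Agent.H.MP_4bcbbd_co.C

open scoped BigOperators

/-- Faces between the clusters `a` and `b`.
PROOF. Let `f₀ = f a b s`; `κ > 0` with `f₀ (v a) ≤ -2κ`, `bs s * f₀ (v b) ≤ -2κ` (as
`bs s • f a b s = f b a s`, `(hf.symm a b hab s)`, the hypothesis `hvb`). The family `e = ![p a, u a, p b, u b]` is linearly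
independent; `adjust` for `f₀` with small `η`, applied to
`e' = ![cv a s₁, cv' a s₁, cv b s₂, cv' b s₂]` (near `e` for small parameters by `cv_continuous`) and
`t = ![1, 0, bs s, 0]` gives `l` with `‖l - f₀‖ < η`. `tangent_lt` for both clusters (`M` larger than `1` and the values
`(‖f₀‖ + 1) * ‖p a‖` etc.); for the other clusters `|l (cv c σ)| < 1` because
`|f₀ (p c)| < 1`, `cv c σ` is near `p c` and `l` near `f₀`. -/
theorem cross_face {d k : ℕ} {p u v w : Fin k → E d}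
    {f : Fin k → Fin k → Bool → (E d →L[ℝ] ℝ)} (h : Tangent p u) (hf : Fam p u f) {a b : Fin k}
    (hab : a ≠ b) (s : Bool) (hva : f a b s (v a) < 0) (hvb : f b a s (v b) < 0) :
    ∃ δ : ℝ, 0 < δ ∧ ∀ s₁ s₂ : ℝ, |s₁| < δ → |s₂| < δ → ∃ l : E d →L[ℝ] ℝ,
      l (cv (p a) (u a) (v a) (w a) s₁) = 1 ∧ l (cv (p b) (u b) (v b) (w b) s₂) = bs s ∧
      (∀ σ : ℝ, |σ| < δ → σ ≠ s₁ → |l (cv (p a) (u a) (v a) (w a) σ)| < 1) ∧
      (∀ σ : ℝ, |σ| < δ → σ ≠ s₂ → |l (cv (p b) (u b) (v b) (w b) σ)| < 1) ∧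
      ∀ c, c ≠ a → c ≠ b → ∀ σ : ℝ, |σ| < δ → |l (cv (p c) (u c) (v c) (w c) σ)| < 1 := by
  classical
  have hvb' : bs s * f a b s (v b) < 0 := by
    have h1 := hf.symm a b hab s
    rw [h1, ContinuousLinearMap.smul_apply, smul_eq_mul] at hvb
    exact hvb
  obtain ⟨κ, hκ⟩ : ∃ κ : ℝ, κ = min (-(f a b s (v a))) (-(bs s * f a b s (v b))) / 2 := ⟨_, rfl⟩
  have hκ0 : 0 < κ := by
    rw [hκ]
    exact half_pos (lt_min (by linarith) (by linarith))
  have hκ1 : f a b s (v a) < -κ := by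
    have : 2 * κ ≤ -(f a b s (v a)) := by
      rw [hκ]
      have := min_le_left (-(f a b s (v a))) (-(bs s * f a b s (v b)))
      linarith
    linarith
  have hκ2 : bs s * f a b s (v b) < -κ := by
    have : 2 * κ ≤ -(bs s * f a b s (v b)) := by
      rw [hκ]
      have := min_le_right (-(f a b s (v a))) (-(bs s * f a b s (v b)))
      linarith
    linarith
  obtain ⟨M, hM⟩ : ∃ M : ℝ, M = 1 + |f a b s (p a)| + |f a b s (v a)| + |f a b s (w a)| +
      |f a b s (p b)| + |f a b s (v b)| + |f a b s (w b)| := ⟨_, rfl⟩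
  have n1 := abs_nonneg (f a b s (p a))
  have n2 := abs_nonneg (f a b s (v a))
  have n3 := abs_nonneg (f a b s (w a))
  have n4 := abs_nonneg (f a b s (p b))
  have n5 := abs_nonneg (f a b s (v b))
  have n6 := abs_nonneg (f a b s (w b))
  have hM1 : 1 ≤ M := by linarith
  -- continuity in the functional
  have happ : ∀ x : E d, Filter.Tendsto (fun q : (E d →L[ℝ] ℝ) × ℝ => q.1 x)
      (nhds (f a b s, 0)) (nhds (f a b s x)) := by
    intro x
    have hcont : Continuous fun q : (E d →L[ℝ] ℝ) × ℝ => q.1 x :=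
      continuous_fst.clm_apply continuous_const
    exact hcont.tendsto (f a b s, (0 : ℝ))
  have habs : ∀ x : E d, |f a b s x| < M → ∀ᶠ q : (E d →L[ℝ] ℝ) × ℝ in nhds (f a b s, 0),
      |q.1 x| < M := fun x hx => (happ x).abs.eventually_lt_const hx
  have hev : ∀ᶠ q : (E d →L[ℝ] ℝ) × ℝ in nhds (f a b s, 0),
      (∀ c, c ≠ a → c ≠ b → |q.1 (cv (p c) (u c) (v c) (w c) q.2)| < 1) ∧
      q.1 (v a) < -κ ∧ bs s * q.1 (v b) < -κ ∧
      (|q.1 (p a)| < M ∧ |q.1 (v a)| < M ∧ |q.1 (w a)| < M) ∧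
      (|q.1 (p b)| < M ∧ |q.1 (v b)| < M ∧ |q.1 (w b)| < M) := by
    refine Filter.Eventually.and ?_ (((happ (v a)).eventually_lt_const hκ1).and
      ((((happ (v b)).const_mul (bs s)).eventually_lt_const hκ2).and
      (((habs (p a) (by linarith)).and ((habs (v a) (by linarith)).and
        (habs (w a) (by linarith)))).and
      ((habs (p b) (by linarith)).and ((habs (v b) (by linarith)).and
        (habs (w b) (by linarith)))))))
    rw [Filter.eventually_all]
    intro c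
    by_cases hc : c ≠ a ∧ c ≠ b
    · have hcont : Continuous fun q : (E d →L[ℝ] ℝ) × ℝ =>
          |q.1 (cv (p c) (u c) (v c) (w c) q.2)| :=
        (continuous_fst.clm_apply ((cv_continuous _ _ _ _).comp continuous_snd)).abs
      have h1 := hcont.tendsto (f a b s, (0 : ℝ))
      have h2 : |f a b s (cv (p c) (u c) (v c) (w c) 0)| < 1 := by
        rw [cv_zero]
        exact hf.lt a b hab s c hc.1 hc.2
      filter_upwards [h1.eventually_lt_const h2] with q hq _ _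
      exact hq
    · exact Filter.Eventually.of_forall fun q h1 h2 => absurd ⟨h1, h2⟩ hc
  obtain ⟨η, hη, hball⟩ := Metric.eventually_nhds_iff.1 hev
  obtain ⟨δ₁, hδ₁, hadj⟩ := adjust (h.li hab) (f a b s) hη
  -- the curves near zero
  have hcv : ∀ c, ∀ᶠ t : ℝ in nhds 0, ‖cv (p c) (u c) (v c) (w c) t - p c‖ < δ₁ ∧
      ‖cv' (p c) (u c) (v c) (w c) t - u c‖ < δ₁ := by
    intro c
    refine Filter.Eventually.and ?_ ?_
    · have h1 : Continuous fun t : ℝ => ‖cv (p c) (u c) (v c) (w c) t - p c‖ :=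
        ((cv_continuous _ _ _ _).sub continuous_const).norm
      have h2 := h1.tendsto 0
      rw [cv_zero, sub_self, norm_zero] at h2
      exact h2.eventually_lt_const hδ₁
    · have h1 : Continuous fun t : ℝ => ‖cv' (p c) (u c) (v c) (w c) t - u c‖ :=
        ((cv'_continuous _ _ _ _).sub continuous_const).norm
      have h2 := h1.tendsto 0
      rw [cv'_zero, sub_self, norm_zero] at h2
      exact h2.eventually_lt_const hδ₁
  obtain ⟨δ₂, hδ₂, hball2⟩ := Metric.eventually_nhds_iff.1 ((hcv a).and (hcv b))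
  obtain ⟨δ₃, hδ₃⟩ : ∃ δ₃ : ℝ, δ₃ = min κ 1 / (100 * M) := ⟨_, rfl⟩
  have hδ₃0 : 0 < δ₃ := by
    rw [hδ₃]
    exact div_pos (lt_min hκ0 one_pos) (by linarith)
  have hδ₃1 : 100 * M * δ₃ = min κ 1 := by
    rw [hδ₃]
    field_simp
  obtain ⟨δ, hδ⟩ : ∃ δ : ℝ, δ = min (min δ₂ η) δ₃ := ⟨_, rfl⟩
  have hδ0 : 0 < δ := by
    rw [hδ]
    exact lt_min (lt_min hδ₂ hη) hδ₃0
  have hd2 : δ ≤ δ₂ := by
    rw [hδ]
    exact (min_le_left _ _).trans (min_le_left _ _)
  have hdη : δ ≤ η := by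
    rw [hδ]
    exact (min_le_left _ _).trans (min_le_right _ _)
  have hd3 : δ ≤ δ₃ := by
    rw [hδ]
    exact min_le_right _ _
  have hMδ : 100 * M * δ ≤ min κ 1 := by
    rw [← hδ₃1]
    exact mul_le_mul_of_nonneg_left hd3 (by linarith)
  have hMδ1 : 100 * M * δ ≤ κ := hMδ.trans (min_le_left _ _)
  have hMδ2 : 100 * M * δ ≤ 1 := hMδ.trans (min_le_right _ _)
  refine ⟨δ, hδ0, fun s₁ s₂ hs₁ hs₂ => ?_⟩
  have hb1 := (hball2 (y := s₁) (by
    rw [Real.dist_eq, sub_zero]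
    exact hs₁.trans_le hd2)).1
  have hb2 := (hball2 (y := s₂) (by
    rw [Real.dist_eq, sub_zero]
    exact hs₂.trans_le hd2)).2
  obtain ⟨l, hl, hlf⟩ := hadj
    ![cv (p a) (u a) (v a) (w a) s₁, cv' (p a) (u a) (v a) (w a) s₁,
      cv (p b) (u b) (v b) (w b) s₂, cv' (p b) (u b) (v b) (w b) s₂] ![1, 0, bs s, 0]
    (by
      intro i
      fin_cases i
      · exact hb1.1
      · exact hb1.2
      · exact hb2.1
      · exact hb2.2)
    (by
      intro i
      fin_cases i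
      · show |1 - f a b s (p a)| < δ₁
        rw [hf.one a b hab s, sub_self, abs_zero]
        exact hδ₁
      · show |0 - f a b s (u a)| < δ₁
        rw [hf.zero a b hab s, sub_self, abs_zero]
        exact hδ₁
      · show |bs s - f a b s (p b)| < δ₁
        rw [hf.val hab s, sub_self, abs_zero]
        exact hδ₁
      · show |0 - f a b s (u b)| < δ₁
        rw [hf.val_u hab s, sub_self, abs_zero]
        exact hδ₁)
  have hnear : ∀ σ : ℝ, |σ| < δ → dist ((l, σ) : (E d →L[ℝ] ℝ) × ℝ) (f a b s, 0) < η := by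
    intro σ hσ
    rw [Prod.dist_eq, max_lt_iff]
    refine ⟨?_, ?_⟩
    · rw [dist_eq_norm]
      exact hlf
    · rw [Real.dist_eq, sub_zero]
      exact hσ.trans_le hdη
  obtain ⟨-, k1, k2, ⟨k3, k4, k5⟩, k6, k7, k8⟩ := hball (hnear 0 (by rw [abs_zero]; exact hδ0))
  have hl0 : l (cv (p a) (u a) (v a) (w a) s₁) = 1 := hl 0
  have hl1 : l (cv' (p a) (u a) (v a) (w a) s₁) = 0 := hl 1
  have hl2 : l (cv (p b) (u b) (v b) (w b) s₂) = bs s := hl 2
  have hl3 : l (cv' (p b) (u b) (v b) (w b) s₂) = 0 := hl 3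
  refine ⟨l, hl0, hl2, ?_, ?_, ?_⟩
  · intro σ hσ hne
    exact tangent_lt hκ0 hM1 (Or.inl rfl) hδ0 hMδ1 hMδ2 k3.le
      (by rw [one_mul]; exact k1.le) k4.le k5.le hs₁ hσ hne hl0 hl1
  · intro σ hσ hne
    exact tangent_lt hκ0 hM1 (bs_or s) hδ0 hMδ1 hMδ2 k6.le k2.le k7.le k8.le hs₂ hσ hne hl2 hl3
  · intro c hca hcb σ hσ
    exact (hball (hnear σ hσ)).1 c hca hcb

end Pool.Agent.H.MP_4bcbbd_co.C
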