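import Pool.Agent.H.MP_4bcbbd_co.C.Double

/-!
MP_4bcbbd_co, edges in all dimensions: `2^(d-3)` clusters in dimension `d`.

The vertices `x` of the `n`-cube, one of each antipodal pair, are put at `((1 - t²) x, t v)` in `ℝ^n × ℝ^2`
with `v = (1, r)`, with the derivative with respect to `t` as direction; the parameters `t > 0` are small and of
pairwise different orders of magnitude.
-/

set_option autoImplicit false

namespace Pool.Agent.H.MP_4bcbbd_co.C

open scoped BigOperators

/-- a functional on `(J → ℝ) × (ℝ × ℝ)` in coordinates. -/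
noncomputable def lin {J : Type} [Fintype J] (φ : J → ℝ) (m₁ m₂ : ℝ) : ((J → ℝ) × (ℝ × ℝ)) →L[ℝ] ℝ :=
  (∑ j, φ j • ContinuousLinearMap.proj (R := ℝ) (φ := fun _ : J => ℝ) j).comp
      (ContinuousLinearMap.fst ℝ (J → ℝ) (ℝ × ℝ)) +
    (m₁ • ContinuousLinearMap.fst ℝ ℝ ℝ + m₂ • ContinuousLinearMap.snd ℝ ℝ ℝ).comp
      (ContinuousLinearMap.snd ℝ (J → ℝ) (ℝ × ℝ))

lemma lin_apply {J : Type} [Fintype J] (φ : J → ℝ) (m₁ m₂ : ℝ) (z : J → ℝ) (s₁ s₂ : ℝ) :
    lin φ m₁ m₂ (z, (s₁, s₂)) = ∑ j, φ j * z j + (m₁ * s₁ + m₂ * s₂) := by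
  simp [lin, ContinuousLinearMap.sum_apply]

/-- the values of the cube functional on a sign vector. -/
theorem cube_values {J : Type} [Fintype J] (x y : J → ℝ) (hx : ∀ j, x j = 1 ∨ x j = -1)
    (hy : ∀ j, y j = 1 ∨ y j = -1) (h1 : x ≠ y) (h2 : x ≠ -y) (S δ : ℝ) :
    ∃ φ : J → ℝ, ∑ j, φ j * x j = S + δ ∧ ∑ j, φ j * y j = S - δ ∧
      ∀ z : J → ℝ, (∀ j, z j = 1 ∨ z j = -1) → z ≠ x → z ≠ y →
        ∃ α β : ℝ, ∑ j, φ j * z j = S * α + δ * β ∧
          ((α ≤ 1 - 2 / (Fintype.card J : ℝ) ∧ |β| ≤ 1) ∨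
            (α = 1 ∧ |β| ≤ 1 - 2 / (Fintype.card J : ℝ))) := by
  set A : ℝ := ∑ j, (1 + x j * y j) / 2 with hA
  set D : ℝ := ∑ j, (1 - x j * y j) / 2 with hD
  have hterm : ∀ j, 0 ≤ (1 + x j * y j) / 2 ∧ 0 ≤ (1 - x j * y j) / 2 := by
    intro j
    rcases hx j with h | h <;> rcases hy j with h' | h' <;> rw [h, h'] <;> norm_num
  have hAn : A ≤ (Fintype.card J : ℝ) := by
    have h3 : A ≤ ∑ _j : J, (1 : ℝ) := by
      refine Finset.sum_le_sum fun j _ => ?_
      have := (hterm j).2
      linarith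
    simpa using h3
  have hDn : D ≤ (Fintype.card J : ℝ) := by
    have h3 : D ≤ ∑ _j : J, (1 : ℝ) := by
      refine Finset.sum_le_sum fun j _ => ?_
      have := (hterm j).1
      linarith
    simpa using h3
  have hA1 : 1 ≤ A := by
    obtain ⟨j, hj⟩ := Function.ne_iff.1 h2
    have h3 : (1 + x j * y j) / 2 ≤ A :=
      Finset.single_le_sum (f := fun j => (1 + x j * y j) / 2) (fun j _ => (hterm j).1)
        (Finset.mem_univ j)
    rw [Pi.neg_apply] at hj
    rcases hx j with h | h <;> rcases hy j with h' | h' <;> rw [h, h'] at h3 hj <;> norm_num at h3 hj <;>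
      exact h3
  have hD1 : 1 ≤ D := by
    obtain ⟨j, hj⟩ := Function.ne_iff.1 h1
    have h3 : (1 - x j * y j) / 2 ≤ D :=
      Finset.single_le_sum (f := fun j => (1 - x j * y j) / 2) (fun j _ => (hterm j).2)
        (Finset.mem_univ j)
    rcases hx j with h | h <;> rcases hy j with h' | h' <;> rw [h, h'] at h3 hj <;> norm_num at h3 hj <;>
      exact h3
  have hA0 : A ≠ 0 := by linarith
  have hD0 : D ≠ 0 := by linarith
  have hn : (0 : ℝ) < (Fintype.card J : ℝ) := by linarith
  have key : ∀ z : J → ℝ, ∑ j, (S / A * ((x j + y j) / 2) + δ / D * ((x j - y j) / 2)) * z j =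
      S * ((∑ j, (x j + y j) / 2 * z j) / A) + δ * ((∑ j, (x j - y j) / 2 * z j) / D) := by
    intro z
    rw [Finset.sum_div, Finset.sum_div, Finset.mul_sum, Finset.mul_sum, ← Finset.sum_add_distrib]
    refine Finset.sum_congr rfl fun j _ => ?_
    field_simp
  refine ⟨fun j => S / A * ((x j + y j) / 2) + δ / D * ((x j - y j) / 2), ?_, ?_, ?_⟩
  · rw [key]
    have e1 : ∑ j, (x j + y j) / 2 * x j = A := by
      refine Finset.sum_congr rfl fun j _ => ?_
      rcases hx j with h | h <;> rw [h] <;> ring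
    have e2 : ∑ j, (x j - y j) / 2 * x j = D := by
      refine Finset.sum_congr rfl fun j _ => ?_
      rcases hx j with h | h <;> rw [h] <;> ring
    rw [e1, e2, div_self hA0, div_self hD0]
    ring
  · rw [key]
    have e1 : ∑ j, (x j + y j) / 2 * y j = A := by
      refine Finset.sum_congr rfl fun j _ => ?_
      rcases hy j with h | h <;> rw [h] <;> ring
    have e2 : ∑ j, (x j - y j) / 2 * y j = -D := by
      rw [hD, ← Finset.sum_neg_distrib]
      refine Finset.sum_congr rfl fun j _ => ?_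
      rcases hy j with h | h <;> rw [h] <;> ring
    rw [e1, e2, div_self hA0, neg_div, div_self hD0]
    ring
  · intro z hz hzx hzy
    set α₀ : ℝ := ∑ j, (x j + y j) / 2 * z j with hα₀
    set β₀ : ℝ := ∑ j, (x j - y j) / 2 * z j with hβ₀
    refine ⟨α₀ / A, β₀ / D, key z, ?_⟩
    have a1 : A - α₀ = ∑ j, ((1 + x j * y j) / 2 - (x j + y j) / 2 * z j) := by
      rw [Finset.sum_sub_distrib]
    have b1 : D - β₀ = ∑ j, ((1 - x j * y j) / 2 - (x j - y j) / 2 * z j) := by
      rw [Finset.sum_sub_distrib]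
    have b2 : D + β₀ = ∑ j, ((1 - x j * y j) / 2 + (x j - y j) / 2 * z j) := by
      rw [Finset.sum_add_distrib]
    have t1 : ∀ j, 0 ≤ (1 + x j * y j) / 2 - (x j + y j) / 2 * z j := by
      intro j
      rcases hx j with h | h <;> rcases hy j with h' | h' <;> rcases hz j with h'' | h'' <;>
        rw [h, h', h''] <;> norm_num
    have t2 : ∀ j, 0 ≤ (1 - x j * y j) / 2 - (x j - y j) / 2 * z j := by
      intro j
      rcases hx j with h | h <;> rcases hy j with h' | h' <;> rcases hz j with h'' | h'' <;>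
        rw [h, h', h''] <;> norm_num
    have t3 : ∀ j, 0 ≤ (1 - x j * y j) / 2 + (x j - y j) / 2 * z j := by
      intro j
      rcases hx j with h | h <;> rcases hy j with h' | h' <;> rcases hz j with h'' | h'' <;>
        rw [h, h', h''] <;> norm_num
    have hβ1 : |β₀ / D| ≤ 1 := by
      have p1 : 0 ≤ D - β₀ := by rw [b1]; exact Finset.sum_nonneg fun j _ => t2 j
      have p2 : 0 ≤ D + β₀ := by rw [b2]; exact Finset.sum_nonneg fun j _ => t3 j
      rw [abs_div, abs_of_pos (by linarith : 0 < D), div_le_one (by linarith), abs_le]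
      constructor <;> linarith
    by_cases hc : ∃ j, x j = y j ∧ z j ≠ x j
    · left
      obtain ⟨j, hj1, hj2⟩ := hc
      refine ⟨?_, hβ1⟩
      have p1 : 2 ≤ A - α₀ := by
        rw [a1]
        have h3 : (1 + x j * y j) / 2 - (x j + y j) / 2 * z j ≤
            ∑ j, ((1 + x j * y j) / 2 - (x j + y j) / 2 * z j) :=
          Finset.single_le_sum (f := fun j => (1 + x j * y j) / 2 - (x j + y j) / 2 * z j)
            (fun j _ => t1 j) (Finset.mem_univ j)
        refine le_trans ?_ h3
        rw [← hj1]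
        rcases hx j with h | h <;> rcases hz j with h'' | h'' <;> rw [h, h''] at hj2 ⊢ <;>
          first | exact absurd rfl hj2 | norm_num
      have p2 : α₀ / A ≤ 1 - 2 / A := by
        rw [div_le_iff₀ (by linarith), sub_mul, div_mul_cancel₀ _ hA0]
        linarith
      have p3 : 2 / (Fintype.card J : ℝ) ≤ 2 / A :=
        div_le_div_of_nonneg_left (by norm_num) (by linarith) hAn
      linarith
    · right
      push Not at hc
      have p0 : A - α₀ = 0 := by
        rw [a1]
        refine Finset.sum_eq_zero fun j _ => ?_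
        rcases hx j with h | h <;> rcases hy j with h' | h' <;> rw [h, h']
        · have := hc j (by rw [h, h'])
          rw [this, h]; norm_num
        · norm_num
        · norm_num
        · have := hc j (by rw [h, h'])
          rw [this, h]; norm_num
      have p1 : 2 ≤ D - β₀ := by
        obtain ⟨j, hj⟩ := Function.ne_iff.1 hzx
        have hxy : x j ≠ y j := fun h => hj (hc j h)
        rw [b1]
        have h3 : (1 - x j * y j) / 2 - (x j - y j) / 2 * z j ≤
            ∑ j, ((1 - x j * y j) / 2 - (x j - y j) / 2 * z j) :=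
          Finset.single_le_sum (f := fun j => (1 - x j * y j) / 2 - (x j - y j) / 2 * z j)
            (fun j _ => t2 j) (Finset.mem_univ j)
        refine le_trans ?_ h3
        rcases hx j with h | h <;> rcases hy j with h' | h' <;> rcases hz j with h'' | h'' <;>
          rw [h, h'] at hxy <;> rw [h, h''] at hj <;> rw [h, h', h''] <;>
            first | exact absurd rfl hxy | exact absurd rfl hj | norm_num
      have p2 : 2 ≤ D + β₀ := by
        obtain ⟨j, hj⟩ := Function.ne_iff.1 hzy
        have hxy : x j ≠ y j := fun h => hj ((hc j h).trans h)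
        rw [b2]
        have h3 : (1 - x j * y j) / 2 + (x j - y j) / 2 * z j ≤
            ∑ j, ((1 - x j * y j) / 2 + (x j - y j) / 2 * z j) :=
          Finset.single_le_sum (f := fun j => (1 - x j * y j) / 2 + (x j - y j) / 2 * z j)
            (fun j _ => t3 j) (Finset.mem_univ j)
        refine le_trans ?_ h3
        rcases hx j with h | h <;> rcases hy j with h' | h' <;> rcases hz j with h'' | h'' <;>
          rw [h, h'] at hxy <;> rw [h', h''] at hj <;> rw [h, h', h''] <;>
            first | exact absurd rfl hxy | exact absurd rfl hj | norm_num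
      have e1 : α₀ = A := by linarith
      refine ⟨by rw [e1, div_self hA0], ?_⟩
      have p3 : |β₀ / D| ≤ 1 - 2 / D := by
        rw [abs_div, abs_of_pos (by linarith : 0 < D), div_le_iff₀ (by linarith), sub_mul,
          div_mul_cancel₀ _ hD0, abs_le]
        constructor <;> linarith
      have p4 : 2 / (Fintype.card J : ℝ) ≤ 2 / D :=
        div_le_div_of_nonneg_left (by norm_num) (by linarith) hDn
      linarith

/-- the inequality behind the cube configuration. -/
theorem cube_ineq {n R ta tb T ρ γ α β M : ℝ} (hn : 1 ≤ n) (hR : 1 ≤ R) (hρ : 0 < ρ)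
    (hρ1 : 8 * n * R * ρ < 1) (hta : 0 < ta) (htb : 0 < tb) (hT : T = max ta tb) (hTρ : T ≤ ρ)
    (hγ0 : 0 < γ) (hγρ : γ ≤ ρ) (hγ : γ ≤ ρ * T ∨ T ≤ ρ * γ) (hM : |M| ≤ 4 * R * T)
    (hαβ : (α ≤ 1 - 2 / n ∧ |β| ≤ 1) ∨ (α = 1 ∧ |β| ≤ 1 - 2 / n)) :
    (1 - γ ^ 2) * ((1 / (1 + ta ^ 2) + 1 / (1 + tb ^ 2)) / 2 * α +
      (1 / (1 + ta ^ 2) - 1 / (1 + tb ^ 2)) / 2 * β) + γ * M < 1 := by
  have hn0 : (0 : ℝ) < n := by linarith
  have hT0 : 0 < T := by rw [hT]; exact lt_max_of_lt_left hta
  have hRρ : R * ρ * n < 1 / 8 := by nlinarith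
  have hRρ' : R * ρ < 1 / (8 * n) := by
    rw [lt_div_iff₀ (by linarith)]
    linarith
  have hn1 : 1 / (8 * n) ≤ 1 / 8 := by
    apply one_div_le_one_div_of_le (by norm_num)
    linarith
  have hρR : ρ ≤ R * ρ := by nlinarith
  have hρ8 : ρ < 1 / 8 := by linarith
  have hT8 : T < 1 / 8 := by linarith
  have hγ8 : γ < 1 / 8 := by linarith
  have hγ2 : 0 < 1 - γ ^ 2 := by nlinarith
  set a : ℝ := 1 / (1 + ta ^ 2) with ha
  set b : ℝ := 1 / (1 + tb ^ 2) with hb
  have hta2 : ta ^ 2 ≤ T ^ 2 := by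
    have : ta ≤ T := by rw [hT]; exact le_max_left _ _
    nlinarith
  have htb2 : tb ^ 2 ≤ T ^ 2 := by
    have : tb ≤ T := by rw [hT]; exact le_max_right _ _
    nlinarith
  have ha1 : a ≤ 1 := by
    rw [ha, div_le_one (by positivity)]; nlinarith
  have hb1 : b ≤ 1 := by
    rw [hb, div_le_one (by positivity)]; nlinarith
  have ha2 : 1 - T ^ 2 ≤ a := by
    rw [ha, le_div_iff₀ (by positivity)]; nlinarith [sq_nonneg T, sq_nonneg ta]
  have hb2 : 1 - T ^ 2 ≤ b := by
    rw [hb, le_div_iff₀ (by positivity)]; nlinarith [sq_nonneg T, sq_nonneg tb]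
  have hT2 : T ^ 2 < 1 / 64 := by nlinarith
  have hγM : γ * M ≤ γ * (4 * R * T) :=
    mul_le_mul_of_nonneg_left ((le_abs_self M).trans hM) hγ0.le
  have h8n : 0 < 1 / n := by positivity
  have h8n' : 1 / (8 * n) = 1 / n / 8 := by
    field_simp
  rcases hαβ with ⟨h1, h2⟩ | ⟨h1, h2⟩
  · have hV : (a + b) / 2 * α + (a - b) / 2 * β ≤ 1 - 2 / n + 5 / 2 * T ^ 2 := by
      have e1 : (a + b) / 2 * α ≤ (a + b) / 2 * (1 - 2 / n) :=
        mul_le_mul_of_nonneg_left h1 (by linarith)
      have e2 : (a + b) / 2 * (1 - 2 / n) ≤ 1 - 2 / n + 2 * T ^ 2 := by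
        have e3 : (a + b) / 2 * (1 - 2 / n) =
            1 - 2 / n - (1 - (a + b) / 2) + (1 - (a + b) / 2) * (2 / n) := by ring
        have e4 : 2 / n ≤ 2 := by
          rw [div_le_iff₀ hn0]; linarith
        have e5 : (1 - (a + b) / 2) * (2 / n) ≤ (1 - (a + b) / 2) * 2 :=
          mul_le_mul_of_nonneg_left e4 (by linarith)
        linarith
      have e6 : (a - b) / 2 * β ≤ T ^ 2 / 2 := by
        have e7 : |(a - b) / 2 * β| ≤ T ^ 2 / 2 * 1 := by
          rw [abs_mul]
          refine mul_le_mul ?_ h2 (abs_nonneg _) (by positivity)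
          rw [abs_le]
          constructor <;> linarith
        linarith [le_abs_self ((a - b) / 2 * β)]
      linarith
    set V : ℝ := (a + b) / 2 * α + (a - b) / 2 * β with hVd
    have hV2 : (1 - γ ^ 2) * V ≤ max V 0 := by
      rcases le_total 0 V with h | h
      · rw [max_eq_left h]; nlinarith [mul_nonneg (sq_nonneg γ) h]
      · rw [max_eq_right h]; exact mul_nonpos_of_nonneg_of_nonpos hγ2.le h
    have hγT : γ * (4 * R * T) ≤ 4 * (R * ρ) * ρ := by
      have e1 : γ * T ≤ ρ * ρ := mul_le_mul hγρ hTρ hT0.le hρ.le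
      have e2 : 0 ≤ R := by linarith
      nlinarith
    have hsmall : 4 * (R * ρ) * ρ < 1 / n / 16 := by
      have e1 : (R * ρ) * ρ < (1 / n / 8) * (1 / 8) := by
        rw [← h8n']
        exact mul_lt_mul' hRρ'.le hρ8 hρ.le (by positivity)
      linarith
    have hT3 : T ^ 2 < 1 / n / 64 := by
      have e1 : T ^ 2 ≤ (R * ρ) * ρ := by nlinarith
      linarith
    rcases le_total 0 V with h | h
    · rw [max_eq_left h] at hV2
      have e2 : 2 / n = 2 * (1 / n) := by ring
      linarith
    · rw [max_eq_right h] at hV2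
      have e3 : 1 / n ≤ 1 := by
        rw [div_le_one hn0]; exact hn
      linarith
  · rw [abs_le] at h2
    rw [h1]
    have hw : 0 < 2 / n := by positivity
    have hc : ∃ c : ℝ, c ≤ 1 - T ^ 2 / 2 ∧ (a = c ∨ b = c) := by
      have e1 : 1 / (1 + T ^ 2) ≤ 1 - T ^ 2 / 2 := by
        rw [div_le_iff₀ (by positivity)]
        nlinarith [sq_nonneg T]
      refine ⟨1 / (1 + T ^ 2), e1, ?_⟩
      rcases le_total ta tb with h | h
      · right; rw [hb, hT, max_eq_right h]
      · left; rw [ha, hT, max_eq_left h]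
    obtain ⟨c, hc1, hc2⟩ := hc
    have hV : (a + b) / 2 * 1 + (a - b) / 2 * β ≤ 1 - T ^ 2 * (1 / n / 2) := by
      have e1 : (a + b) / 2 * 1 + (a - b) / 2 * β = (a * (1 + β) + b * (1 - β)) / 2 := by ring
      rw [e1]
      rcases hc2 with h | h
      · have e2 : a * (1 + β) ≤ (1 - T ^ 2 / 2) * (1 + β) :=
          mul_le_mul_of_nonneg_right (by linarith) (by linarith)
        have e3 : b * (1 - β) ≤ 1 * (1 - β) := mul_le_mul_of_nonneg_right hb1 (by linarith)
        have e4 : T ^ 2 / 2 * (2 / n) ≤ T ^ 2 / 2 * (1 + β) :=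
          mul_le_mul_of_nonneg_left (by linarith) (by positivity)
        have e5 : T ^ 2 / 2 * (2 / n) = 2 * (T ^ 2 * (1 / n / 2)) := by ring
        linarith
      · have e2 : b * (1 - β) ≤ (1 - T ^ 2 / 2) * (1 - β) :=
          mul_le_mul_of_nonneg_right (by linarith) (by linarith)
        have e3 : a * (1 + β) ≤ 1 * (1 + β) := mul_le_mul_of_nonneg_right ha1 (by linarith)
        have e4 : T ^ 2 / 2 * (2 / n) ≤ T ^ 2 / 2 * (1 - β) :=
          mul_le_mul_of_nonneg_left (by linarith) (by positivity)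
        have e5 : T ^ 2 / 2 * (2 / n) = 2 * (T ^ 2 * (1 / n / 2)) := by ring
        linarith
    have hV0 : 0 ≤ (a + b) / 2 * 1 + (a - b) / 2 * β := by
      have e1 : (a + b) / 2 * 1 + (a - b) / 2 * β = (a * (1 + β) + b * (1 - β)) / 2 := by ring
      rw [e1]
      have e2 : 0 ≤ a * (1 + β) := mul_nonneg (by linarith) (by linarith)
      have e3 : 0 ≤ b * (1 - β) := mul_nonneg (by linarith) (by linarith)
      linarith
    set V : ℝ := (a + b) / 2 * 1 + (a - b) / 2 * β with hVd
    rcases hγ with h | h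
    · have e1 : (1 - γ ^ 2) * V ≤ V := by nlinarith [mul_nonneg (sq_nonneg γ) hV0]
      have e2 : γ * (4 * R * T) ≤ ρ * T * (4 * R * T) :=
        mul_le_mul_of_nonneg_right h (by positivity)
      have e3 : ρ * T * (4 * R * T) = 4 * (R * ρ) * T ^ 2 := by ring
      have e4 : 4 * (R * ρ) * T ^ 2 < 4 * (1 / n / 8) * T ^ 2 := by
        rw [← h8n']
        have : 0 < T ^ 2 := by positivity
        nlinarith
      have e5 : 4 * (1 / n / 8) * T ^ 2 = T ^ 2 * (1 / n / 2) := by ring
      linarith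
    · have e1 : (1 - γ ^ 2) * V ≤ (1 - γ ^ 2) * 1 := by
        refine mul_le_mul_of_nonneg_left ?_ hγ2.le
        have : 0 ≤ T ^ 2 * (1 / n / 2) := by positivity
        linarith
      have e2 : γ * (4 * R * T) ≤ γ * (4 * R * (ρ * γ)) := by
        refine mul_le_mul_of_nonneg_left ?_ hγ0.le
        exact mul_le_mul_of_nonneg_left h (by linarith)
      have e3 : γ * (4 * R * (ρ * γ)) = 4 * (R * ρ) * γ ^ 2 := by ring
      have e4 : 4 * (R * ρ) * γ ^ 2 < 1 * γ ^ 2 := by
        have : 0 < γ ^ 2 := by positivity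
        nlinarith
      linarith

/-- the cube configuration. -/
theorem cube_tanV {J ι : Type} [Fintype J] [Fintype ι] (X : ι → J → ℝ)
    (hX : ∀ a j, X a j = 1 ∨ X a j = -1) (h1 : ∀ a b, a ≠ b → X a ≠ X b)
    (h2 : ∀ a b, a ≠ b → X a ≠ -X b) :
    ∃ p u : ι → (J → ℝ) × (ℝ × ℝ), TanV p u := by
  classical
  set n : ℝ := (Fintype.card J : ℝ) with hn
  set R : ℝ := (Fintype.card ι : ℝ) + 1 with hR
  set ρ : ℝ := 1 / (8 * (n + 1) * R) with hρ
  let rk : ι → ℕ := fun a => (Fintype.equivFin ι a : ℕ)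
  have hrk : Function.Injective rk := by
    intro a b hab
    exact (Fintype.equivFin ι).injective (Fin.ext hab)
  have hrkN : ∀ a, (rk a : ℝ) ≤ (Fintype.card ι : ℝ) := by
    intro a
    have : rk a < Fintype.card ι := (Fintype.equivFin ι a).isLt
    exact_mod_cast this.le
  have hn0 : 0 ≤ n := Nat.cast_nonneg _
  have hR1 : 1 ≤ R := by
    have : (0 : ℝ) ≤ (Fintype.card ι : ℝ) := Nat.cast_nonneg _
    linarith
  have hρ0 : 0 < ρ := by positivity
  have hρ1 : 8 * n * R * ρ < 1 := by
    have h3 : 8 * (n + 1) * R * ρ = 1 := by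
      rw [hρ]
      field_simp
    have h4 : 0 < 8 * R * ρ := by positivity
    nlinarith
  have hρ2 : ρ < 1 := by
    have h3 : 8 * (n + 1) * R * ρ = 1 := by
      rw [hρ]
      field_simp
    have h4 : 1 ≤ (n + 1) * R := by nlinarith
    nlinarith
  let t : ι → ℝ := fun a => ρ ^ (rk a + 1)
  have ht0 : ∀ a, 0 < t a := fun a => pow_pos hρ0 _
  have htρ : ∀ a, t a ≤ ρ := by
    intro a
    show ρ ^ (rk a + 1) ≤ ρ
    rw [pow_succ]
    have := pow_le_one₀ hρ0.le hρ2.le (n := rk a)
    nlinarith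
  refine ⟨fun a => (fun j => (1 - t a ^ 2) * X a j, (t a, t a * (rk a : ℝ))),
    fun a => (fun j => -(2 * t a) * X a j, (1, (rk a : ℝ))), ?_⟩
  intro a b hab
  have hr : rk a ≠ rk b := hrk.ne hab
  have hr' : (rk a : ℝ) - (rk b : ℝ) ≠ 0 := by
    rw [sub_ne_zero]
    exact_mod_cast hr
  refine ⟨?_, fun s => ?_⟩
  · rw [LinearIndependent.pair_iff]
    intro s t' hst
    have h3 := congrArg (fun w => w.2.1) hst
    have h4 := congrArg (fun w => w.2.2) hst
    simp only [Prod.snd_add, Prod.smul_snd, Prod.fst_add, Prod.smul_fst, smul_eq_mul, mul_one,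
      Prod.snd_zero, Prod.fst_zero] at h3 h4
    have h5 : s * ((rk a : ℝ) - (rk b : ℝ)) = 0 := by
      have : t' = -s := by linarith
      rw [this] at h4
      linarith
    rcases mul_eq_zero.1 h5 with h6 | h6
    · exact ⟨h6, by linarith⟩
    · exact absurd h6 hr'
  · have hy : ∀ j, (bs s • X b) j = 1 ∨ (bs s • X b) j = -1 := by
      intro j
      rw [Pi.smul_apply, smul_eq_mul]
      cases s <;> rcases hX b j with h | h <;> rw [h] <;> simp
    have hxy : X a ≠ bs s • X b := by
      cases s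
      · rw [bs_false, neg_smul, one_smul]; exact h2 a b hab
      · rw [bs_true, one_smul]; exact h1 a b hab
    have hxy' : X a ≠ -(bs s • X b) := by
      cases s
      · rw [bs_false, neg_smul, one_smul, neg_neg]; exact h1 a b hab
      · rw [bs_true, one_smul]; exact h2 a b hab
    set A : ℝ := 1 / (1 + t a ^ 2) with hA
    set B : ℝ := 1 / (1 + t b ^ 2) with hB
    have hA1 : (1 + t a ^ 2) * A = 1 := by
      rw [hA]; field_simp
    have hB1 : (1 + t b ^ 2) * B = 1 := by
      rw [hB]; field_simp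
    have hA0 : 0 < A := by positivity
    have hB0 : 0 < B := by positivity
    have hAle : A ≤ 1 := by nlinarith [sq_nonneg (t a)]
    have hBle : B ≤ 1 := by nlinarith [sq_nonneg (t b)]
    obtain ⟨φ, f1, f2, f3⟩ := cube_values (X a) (bs s • X b) (hX a) hy hxy hxy' ((A + B) / 2)
      ((A - B) / 2)
    have f1' : ∑ j, φ j * X a j = A := by rw [f1]; ring
    have f2' : ∑ j, φ j * X b j = bs s * B := by
      have e1 : ∑ j, φ j * (bs s • X b) j = bs s * ∑ j, φ j * X b j := by
        rw [Finset.mul_sum]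
        refine Finset.sum_congr rfl fun j _ => ?_
        rw [Pi.smul_apply, smul_eq_mul]
        ring
      rw [e1] at f2
      have e2 : ∑ j, φ j * X b j = bs s * bs s * ∑ j, φ j * X b j := by
        rw [bs_mul_self, one_mul]
      rw [e2, mul_assoc, f2]
      ring
    set m₂ : ℝ := (2 * t a * A - bs s * (2 * t b * B)) / ((rk a : ℝ) - (rk b : ℝ)) with hm₂
    set m₁ : ℝ := 2 * t a * A - m₂ * (rk a : ℝ) with hm₁
    have hm2 : m₂ * ((rk a : ℝ) - (rk b : ℝ)) = 2 * t a * A - bs s * (2 * t b * B) := by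
      rw [hm₂, div_mul_cancel₀ _ hr']
    have hma : m₁ + m₂ * (rk a : ℝ) = 2 * t a * A := by rw [hm₁]; ring
    have hmb : m₁ + m₂ * (rk b : ℝ) = bs s * (2 * t b * B) := by
      have : m₁ + m₂ * (rk b : ℝ) = m₁ + m₂ * (rk a : ℝ) - m₂ * ((rk a : ℝ) - (rk b : ℝ)) := by ring
      rw [this, hma, hm2]
      ring
    have hval : ∀ (c : ι) (k q₁ q₂ : ℝ),
        lin φ m₁ m₂ (fun j => k * X c j, (q₁, q₂)) = k * (∑ j, φ j * X c j) + (m₁ * q₁ + m₂ * q₂) := by
      intro c k q₁ q₂
      rw [lin_apply, Finset.mul_sum]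
      congr 1
      refine Finset.sum_congr rfl fun j _ => ?_
      ring
    refine ⟨lin φ m₁ m₂, ?_, ?_, ?_, ?_, ?_⟩
    · show lin φ m₁ m₂ (fun j => (1 - t a ^ 2) * X a j, (t a, t a * (rk a : ℝ))) = 1
      rw [hval, f1']
      have e1 : (1 - t a ^ 2) * A + (m₁ * t a + m₂ * (t a * (rk a : ℝ))) =
          (1 - t a ^ 2) * A + t a * (m₁ + m₂ * (rk a : ℝ)) := by ring
      rw [e1, hma]
      linarith
    · show lin φ m₁ m₂ (fun j => -(2 * t a) * X a j, (1, (rk a : ℝ))) = 0
      rw [hval, f1']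
      linarith
    · show lin φ m₁ m₂ (fun j => (1 - t b ^ 2) * X b j, (t b, t b * (rk b : ℝ))) = bs s
      rw [hval, f2']
      have e1 : (1 - t b ^ 2) * (bs s * B) + (m₁ * t b + m₂ * (t b * (rk b : ℝ))) =
          (1 - t b ^ 2) * (bs s * B) + t b * (m₁ + m₂ * (rk b : ℝ)) := by ring
      rw [e1, hmb]
      have e2 : (1 - t b ^ 2) * (bs s * B) + t b * (bs s * (2 * t b * B)) =
          bs s * ((1 + t b ^ 2) * B) := by ring
      rw [e2, hB1, mul_one]
    · show lin φ m₁ m₂ (fun j => -(2 * t b) * X b j, (1, (rk b : ℝ))) = 0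
      rw [hval, f2']
      linarith
    · intro c hca hcb
      show |lin φ m₁ m₂ (fun j => (1 - t c ^ 2) * X c j, (t c, t c * (rk c : ℝ)))| < 1
      rw [hval]
      -- one-sided bound
      set T : ℝ := max (t a) (t b) with hT
      have hT0 : 0 < T := lt_max_of_lt_left (ht0 a)
      have hTa : t a ≤ T := le_max_left _ _
      have hTb : t b ≤ T := le_max_right _ _
      have hTρ : T ≤ ρ := max_le (htρ a) (htρ b)
      have hM : |m₁ + m₂ * (rk c : ℝ)| ≤ 4 * R * T := by
        have e1 : m₁ + m₂ * (rk c : ℝ) = 2 * t a * A + m₂ * ((rk c : ℝ) - (rk a : ℝ)) := by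
          rw [← hma]; ring
        have e2 : |2 * t a * A| ≤ 2 * T := by
          rw [abs_of_pos (mul_pos (mul_pos two_pos (ht0 a)) hA0)]
          nlinarith [ht0 a]
        have e3 : |bs s * (2 * t b * B)| ≤ 2 * T := by
          rw [abs_mul, abs_bs, one_mul, abs_of_pos (mul_pos (mul_pos two_pos (ht0 b)) hB0)]
          nlinarith [ht0 b]
        have e4 : 1 ≤ |(rk a : ℝ) - (rk b : ℝ)| := by
          have : (1 : ℤ) ≤ |(rk a : ℤ) - (rk b : ℤ)| := by
            apply Int.one_le_abs
            rw [sub_ne_zero]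
            exact_mod_cast hr
          exact_mod_cast this
        have e5 : |m₂| ≤ 4 * T := by
          have e6 : |m₂| * |(rk a : ℝ) - (rk b : ℝ)| ≤ 4 * T := by
            rw [← abs_mul, hm2]
            refine (abs_sub _ _).trans ?_
            linarith
          nlinarith [abs_nonneg m₂]
        have e7 : |(rk c : ℝ) - (rk a : ℝ)| ≤ (Fintype.card ι : ℝ) := by
          have g1 := hrkN c
          have g2 := hrkN a
          have g3 : (0 : ℝ) ≤ (rk c : ℝ) := Nat.cast_nonneg _
          have g4 : (0 : ℝ) ≤ (rk a : ℝ) := Nat.cast_nonneg _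
          rw [abs_le]
          constructor <;> linarith
        rw [e1]
        refine (abs_add_le _ _).trans ?_
        have e8 : |m₂ * ((rk c : ℝ) - (rk a : ℝ))| ≤ 4 * T * (Fintype.card ι : ℝ) := by
          rw [abs_mul]
          exact mul_le_mul e5 e7 (abs_nonneg _) (by positivity)
        rw [hR]
        linarith
      have hγ : t c ≤ ρ * T ∨ T ≤ ρ * t c := by
        have g1 : rk c ≠ rk a := hrk.ne hca
        have g2 : rk c ≠ rk b := hrk.ne hcb
        by_cases hc : rk c < rk a ∧ rk c < rk b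
        · right
          have g3 : ∀ d : ι, rk c < rk d → t d ≤ ρ * t c := by
            intro d hd
            show ρ ^ (rk d + 1) ≤ ρ * ρ ^ (rk c + 1)
            rw [← pow_succ']
            exact pow_le_pow_of_le_one hρ0.le hρ2.le (by omega)
          exact max_le (g3 a hc.1) (g3 b hc.2)
        · left
          have g3 : ∀ d : ι, rk d < rk c → t c ≤ ρ * t d := by
            intro d hd
            show ρ ^ (rk c + 1) ≤ ρ * ρ ^ (rk d + 1)
            rw [← pow_succ']
            exact pow_le_pow_of_le_one hρ0.le hρ2.le (by omega)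
          rcases Nat.lt_or_ge (rk a) (rk c) with h | h
          · exact (g3 a h).trans (mul_le_mul_of_nonneg_left hTa hρ0.le)
          · have h' : rk b < rk c := by
              by_contra h'
              exact hc ⟨by omega, by omega⟩
            exact (g3 b h').trans (mul_le_mul_of_nonneg_left hTb hρ0.le)
      have hn1 : 1 ≤ n := by
        obtain ⟨j, -⟩ := Function.ne_iff.1 hxy
        have : 0 < Fintype.card J := Fintype.card_pos_iff.2 ⟨j⟩
        rw [hn]
        exact_mod_cast this
      have main : ∀ σ : ℝ, (σ = 1 ∨ σ = -1) →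
          σ * ((1 - t c ^ 2) * (∑ j, φ j * X c j) + (m₁ * t c + m₂ * (t c * (rk c : ℝ)))) < 1 := by
        intro σ hσ
        have hz : ∀ j, (σ • X c) j = 1 ∨ (σ • X c) j = -1 := by
          intro j
          rw [Pi.smul_apply, smul_eq_mul]
          rcases hσ with h | h <;> rcases hX c j with h' | h' <;> rw [h, h'] <;> simp
        have hzx : σ • X c ≠ X a := by
          rcases hσ with h | h
          · rw [h, one_smul]; exact h1 c a hca
          · rw [h, neg_smul, one_smul]
            intro h'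
            exact h2 c a hca (by rw [← h', neg_neg])
        have hzy : σ • X c ≠ bs s • X b := by
          have k1 := h1 c b hcb
          have k2 := h2 c b hcb
          rcases hσ with h | h <;> cases s
          · rw [h, one_smul, bs_false, neg_smul, one_smul]; exact k2
          · rw [h, one_smul, bs_true, one_smul]; exact k1
          · rw [h, neg_smul, one_smul, bs_false, neg_smul, one_smul]
            intro h'
            exact k1 (neg_injective h')
          · rw [h, neg_smul, one_smul, bs_true, one_smul]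
            intro h'
            exact k2 (by rw [← h', neg_neg])
        obtain ⟨α, β, g1, g2⟩ := f3 (σ • X c) hz hzx hzy
        have g3 : ∑ j, φ j * (σ • X c) j = σ * ∑ j, φ j * X c j := by
          rw [Finset.mul_sum]
          refine Finset.sum_congr rfl fun j _ => ?_
          rw [Pi.smul_apply, smul_eq_mul]
          ring
        have hMσ : |σ * (m₁ + m₂ * (rk c : ℝ))| ≤ 4 * R * T := by
          rw [abs_mul]
          have : |σ| = 1 := by rcases hσ with h | h <;> rw [h] <;> simp
          rw [this, one_mul]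
          exact hM
        have g4 := cube_ineq (γ := t c) (α := α) (β := β) (M := σ * (m₁ + m₂ * (rk c : ℝ))) hn1 hR1
          hρ0 hρ1 (ht0 a) (ht0 b) hT hTρ (ht0 c) (htρ c) hγ hMσ g2
        rw [← g1, g3] at g4
        refine lt_of_eq_of_lt ?_ g4
        ring
      rw [abs_lt]
      have k1 := main 1 (Or.inl rfl)
      have k2 := main (-1) (Or.inr rfl)
      constructor <;> linarith

theorem tangent_cube (m : ℕ) : ∃ p u : Fin (2 ^ m) → E (m + 3), Tangent p u := by
  classical
  let X : (Fin m → Bool) → Option (Fin m) → ℝ := fun ξ o => o.elim 1 fun i => bs (ξ i)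
  have hX : ∀ a j, X a j = 1 ∨ X a j = -1 := by
    intro a j
    cases j with
    | none => exact Or.inl rfl
    | some i => exact bs_or (a i)
  have h1 : ∀ a b, a ≠ b → X a ≠ X b := by
    intro a b hab h
    apply hab
    funext i
    have h3 : bs (a i) = bs (b i) := congrFun h (some i)
    cases ha : a i <;> cases hb : b i <;> rw [ha, hb] at h3 <;> first | rfl | norm_num at h3
  have h2 : ∀ a b, a ≠ b → X a ≠ -X b := by
    intro a b _ h
    have h3 : (1 : ℝ) = -1 := congrFun h none
    norm_num at h3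
  obtain ⟨p, u, h⟩ := cube_tanV X hX h1 h2
  have hd : Module.finrank ℝ ((Option (Fin m) → ℝ) × (ℝ × ℝ)) = Module.finrank ℝ (E (m + 3)) := by
    rw [Module.finrank_prod, Module.finrank_prod, Module.finrank_fintype_fun_eq_card,
      Fintype.card_option, Fintype.card_fin, Module.finrank_self, finrank_euclideanSpace_fin]
  have hk : Fintype.card (Fin m → Bool) = 2 ^ m := by simp
  exact ⟨_, _, h.tangent (ContinuousLinearEquiv.ofFinrankEq hd) (Fintype.equivFinOfCardEq hk).symm⟩

end Pool.Agent.H.MP_4bcbbd_co.C
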