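import Pool.Agent.H.MP_4bcbbd_co.C.Adjust
import Pool.Agent.H.MP_4bcbbd_co.LP

/-!
MP_4bcbbd_co, edges in all dimensions: the curve of a cluster.
-/

set_option autoImplicit false

namespace Pool.Agent.H.MP_4bcbbd_co.C

open scoped BigOperators

/-- a symmetric family of functionals of a tangent configuration. -/
structure Fam {d k : ℕ} (p u : Fin k → E d) (f : Fin k → Fin k → Bool → (E d →L[ℝ] ℝ)) :
    Prop where
  one : ∀ a b, a ≠ b → ∀ s, f a b s (p a) = 1
  zero : ∀ a b, a ≠ b → ∀ s, f a b s (u a) = 0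
  symm : ∀ a b, a ≠ b → ∀ s, f b a s = bs s • f a b s
  lt : ∀ a b, a ≠ b → ∀ s, ∀ c, c ≠ a → c ≠ b → |f a b s (p c)| < 1

/-- PROOF: choose the functionals `F a b s` of `Tangent` for `a < b` and put `f a b s = F a b s` for `a < b`,
`f a b s = bs s • F b a s` for `b < a` (and `0` for `a = b`). -/
theorem exists_fam {d k : ℕ} {p u : Fin k → E d} (h : Tangent p u) :
    ∃ f : Fin k → Fin k → Bool → (E d →L[ℝ] ℝ), Fam p u f := by
  classical
  have h1 : ∀ a b : Fin k, ∀ s : Bool, ∃ l : E d →L[ℝ] ℝ, a ≠ b → l (p a) = 1 ∧ l (u a) = 0 ∧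
      l (p b) = bs s ∧ l (u b) = 0 ∧ ∀ c, c ≠ a → c ≠ b → |l (p c)| < 1 := by
    intro a b s
    by_cases hab : a = b
    · exact ⟨0, fun h => absurd hab h⟩
    · obtain ⟨l, hl⟩ := (h a b hab).2 (bs s) (bs_or s)
      exact ⟨l, fun _ => hl⟩
  choose F hF using h1
  refine ⟨fun a b s => if a < b then F a b s else bs s • F b a s, ⟨?_, ?_, ?_, ?_⟩⟩
  · intro a b hab s
    by_cases hlt : a < b
    · simp only [hlt, if_true]
      exact (hF a b s hab).1
    · simp only [hlt, if_false]
      rw [ContinuousLinearMap.smul_apply, (hF b a s hab.symm).2.2.1, smul_eq_mul, bs_mul_self]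
  · intro a b hab s
    by_cases hlt : a < b
    · simp only [hlt, if_true]
      exact (hF a b s hab).2.1
    · simp only [hlt, if_false]
      rw [ContinuousLinearMap.smul_apply, (hF b a s hab.symm).2.2.2.1, smul_eq_mul, mul_zero]
  · intro a b hab s
    by_cases hlt : a < b
    · have h2 : ¬ b < a := not_lt.2 hlt.le
      simp only [hlt, h2, if_true, if_false]
    · have h2 : b < a := lt_of_le_of_ne (not_lt.1 hlt) hab.symm
      simp only [hlt, h2, if_true, if_false]
      rw [smul_smul, bs_mul_self, one_smul]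
  · intro a b hab s c hca hcb
    by_cases hlt : a < b
    · simp only [hlt, if_true]
      exact (hF a b s hab).2.2.2.2 c hca hcb
    · simp only [hlt, if_false]
      rw [ContinuousLinearMap.smul_apply, smul_eq_mul, abs_mul, abs_bs, one_mul]
      exact (hF b a s hab.symm).2.2.2.2 c hcb hca

theorem Fam.val {d k : ℕ} {p u : Fin k → E d} {f : Fin k → Fin k → Bool → (E d →L[ℝ] ℝ)}
    (hf : Fam p u f) {a b : Fin k} (hab : a ≠ b) (s : Bool) : f a b s (p b) = bs s := by
  have h1 := hf.symm b a hab.symm s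
  rw [h1, ContinuousLinearMap.smul_apply, hf.one b a hab.symm s, smul_eq_mul, mul_one]

theorem Fam.val_u {d k : ℕ} {p u : Fin k → E d} {f : Fin k → Fin k → Bool → (E d →L[ℝ] ℝ)}
    (hf : Fam p u f) {a b : Fin k} (hab : a ≠ b) (s : Bool) : f a b s (u b) = 0 := by
  have h1 := hf.symm b a hab.symm s
  rw [h1, ContinuousLinearMap.smul_apply, hf.zero b a hab.symm s, smul_zero]

/-- the data of the curve of the cluster `a`. -/
structure CV {d k : ℕ} (p u : Fin k → E d) (f : Fin k → Fin k → Bool → (E d →L[ℝ] ℝ))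
    (a : Fin k) (g : E d →L[ℝ] ℝ) (v w : E d) : Prop where
  gp : g (p a) = 1
  gu : g (u a) = 0
  gv : g v = 0
  gw : g w = 0
  gc : ∀ c, c ≠ a → |g (p c)| < 1
  fv : ∀ b, b ≠ a → ∀ s, f a b s v < 0
  li : LinearIndependent ℝ ![p a, u a, v, w]

/-- The data of the curve exist.
PROOF. `k ≥ 2`. Let `z` be a vector in no span of fewer than `d` of the vectors `p c`, `u c`
(`exists_generic`); let `(b₀, s₀)` maximise `f a b s z` over `b ≠ a`, `s` (finite, nonempty), `f₀ = f a b₀ s₀`. The family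
`![p a, u a, p b₀, z]` is linearly independent (`p a, u a, p b₀` are, by `Tangent.li`; `z` is not in their span, `3 < d`), so
there is `θ` with `θ (p a) = θ (u a) = 0`, `θ (p b₀) = - bs s₀`, `θ z = 1` (`exists_dual`). For small
`τ ∈ (0, 1)` the functional `g = f₀ + τ • θ` satisfies `g (p a) = 1`, `g (u a) = 0`, `|g (p c)| < 1` for
`c ≠ a, b₀`, and `g (p b₀) = bs s₀ * (1 - τ)`, so `|g (p b₀)| < 1`. Put `v = z - g z • p a`: `g v = 0` and
`f a b s v = f a b s z - g z ≤ f₀ z - (f₀ z + τ) < 0`. Let `z'` be outside the span of `{p a, u a, z}` (fewer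
than `d` vectors) and `w = z' - g z' • p a`. Independence of `![p a, u a, v, w]` follows from that of
`![p a, u a, z, z']`. -/
theorem exists_cv {d k : ℕ} (hd : 4 ≤ d) (hk : 2 ≤ k) {p u : Fin k → E d} (h : Tangent p u)
    {f : Fin k → Fin k → Bool → (E d →L[ℝ] ℝ)} (hf : Fam p u f) (a : Fin k) :
    ∃ (g : E d →L[ℝ] ℝ) (v w : E d), CV p u f a g v w := by
  classical
  obtain ⟨z, hz⟩ := exists_generic
    ((Finset.univ.image p ∪ Finset.univ.image u : Finset (E d)))
  have hpm : ∀ c, p c ∈ (Finset.univ.image p ∪ Finset.univ.image u : Finset (E d)) := fun c =>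
    Finset.mem_union_left _ (Finset.mem_image_of_mem _ (Finset.mem_univ _))
  have hum : ∀ c, u c ∈ (Finset.univ.image p ∪ Finset.univ.image u : Finset (E d)) := fun c =>
    Finset.mem_union_right _ (Finset.mem_image_of_mem _ (Finset.mem_univ _))
  -- the functional with the largest value at `z`
  obtain ⟨b₁, hb₁⟩ : ∃ b : Fin k, b ≠ a := by
    by_cases ha : (a : ℕ) = 0
    · exact ⟨⟨1, by omega⟩, fun h1 => by
        have := congrArg Fin.val h1
        simp only at this
        omega⟩
    · exact ⟨⟨0, by omega⟩, fun h1 => by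
        have := congrArg Fin.val h1
        simp only at this
        omega⟩
  obtain ⟨⟨b₀, s₀⟩, hmem, hmax⟩ := Finset.exists_max_image
    ((Finset.univ : Finset (Fin k × Bool)).filter fun q => q.1 ≠ a)
    (fun q => f a q.1 q.2 z) ⟨(b₁, true), Finset.mem_filter.2 ⟨Finset.mem_univ _, hb₁⟩⟩
  have hb₀ : b₀ ≠ a := (Finset.mem_filter.1 hmem).2
  have hmax' : ∀ b, b ≠ a → ∀ s, f a b s z ≤ f a b₀ s₀ z := fun b hb s =>
    hmax (b, s) (Finset.mem_filter.2 ⟨Finset.mem_univ _, hb⟩)
  -- independence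
  have hli3 : LinearIndependent ℝ ![p a, u a, p b₀] := by
    have h1 := (h.li hb₀.symm).comp (![0, 1, 2] : Fin 3 → Fin 4) (by
      intro i j hij
      fin_cases i <;> fin_cases j <;> simp_all)
    convert h1 using 1
    funext i
    fin_cases i <;> rfl
  have hzs : z ∉ Submodule.span ℝ (Set.range ![p a, u a, p b₀]) := by
    have h1 := hz {p a, u a, p b₀} (by
      intro v hv
      rw [Finset.mem_insert, Finset.mem_insert, Finset.mem_singleton] at hv
      rcases hv with rfl | rfl | rfl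
      · exact hpm a
      · exact hum a
      · exact hpm b₀) (lt_of_le_of_lt Finset.card_le_three hd)
    intro h2
    apply h1
    refine Submodule.span_mono ?_ h2
    rintro _ ⟨i, rfl⟩
    fin_cases i
    · simp
    · simp
    · simp
  have hli4 : LinearIndependent ℝ ![z, p a, u a, p b₀] :=
    linearIndependent_finCons.2 ⟨hli3, hzs⟩
  obtain ⟨g, hg⟩ := exists_dual hli4
  obtain ⟨θ, hθ⟩ : ∃ θ : E d →L[ℝ] ℝ, θ = g 0 - bs s₀ • g 3 := ⟨_, rfl⟩
  have hθz : θ z = 1 := by
    have h1 : g 0 z = 1 := by simpa using hg 0 0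
    have h2 : g 3 z = 0 := by simpa using hg 3 0
    rw [hθ, ContinuousLinearMap.sub_apply, ContinuousLinearMap.smul_apply, h1, h2, smul_zero,
      sub_zero]
  have hθp : θ (p a) = 0 := by
    have h1 : g 0 (p a) = 0 := by simpa using hg 0 1
    have h2 : g 3 (p a) = 0 := by simpa using hg 3 1
    rw [hθ, ContinuousLinearMap.sub_apply, ContinuousLinearMap.smul_apply, h1, h2, smul_zero,
      sub_zero]
  have hθu : θ (u a) = 0 := by
    have h1 : g 0 (u a) = 0 := by simpa using hg 0 2
    have h2 : g 3 (u a) = 0 := by simpa using hg 3 2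
    rw [hθ, ContinuousLinearMap.sub_apply, ContinuousLinearMap.smul_apply, h1, h2, smul_zero,
      sub_zero]
  have hθb : θ (p b₀) = -bs s₀ := by
    have h1 : g 0 (p b₀) = 0 := by simpa using hg 0 3
    have h2 : g 3 (p b₀) = 1 := by simpa using hg 3 3
    rw [hθ, ContinuousLinearMap.sub_apply, ContinuousLinearMap.smul_apply, h1, h2, smul_eq_mul,
      mul_one, zero_sub]
  -- the functional `G`
  have hev : ∀ᶠ τ : ℝ in nhdsWithin 0 (Set.Ioi 0), (∀ c, c ≠ a → c ≠ b₀ →
      |(f a b₀ s₀ + τ • θ) (p c)| < 1) ∧ τ < 1 := by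
    refine Filter.Eventually.filter_mono nhdsWithin_le_nhds ?_
    refine Filter.Eventually.and ?_ (gt_mem_nhds one_pos)
    rw [Filter.eventually_all]
    intro c
    by_cases hc : c ≠ a ∧ c ≠ b₀
    · have hcont : Continuous fun t : ℝ => |(f a b₀ s₀ + t • θ) (p c)| := by
        have h4 : (fun t : ℝ => |(f a b₀ s₀ + t • θ) (p c)|) =
            fun t : ℝ => |f a b₀ s₀ (p c) + t * θ (p c)| := by
          funext t
          simp
        rw [h4]
        fun_prop
      have h4 : Filter.Tendsto (fun t : ℝ => |(f a b₀ s₀ + t • θ) (p c)|) (nhds 0)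
          (nhds |f a b₀ s₀ (p c)|) := by
        have := hcont.tendsto 0
        simpa using this
      filter_upwards [h4.eventually_lt_const (hf.lt a b₀ hb₀.symm s₀ c hc.1 hc.2)] with t ht _ _
      exact ht
    · exact Filter.Eventually.of_forall fun t h1 h2 => absurd ⟨h1, h2⟩ hc
  obtain ⟨τ, ⟨hτ1, hτ2⟩, hτ0⟩ := (hev.and self_mem_nhdsWithin).exists
  have hτ0' : (0 : ℝ) < τ := hτ0
  obtain ⟨G, hG⟩ : ∃ G : E d →L[ℝ] ℝ, G = f a b₀ s₀ + τ • θ := ⟨_, rfl⟩
  have hGv : ∀ x, G x = f a b₀ s₀ x + τ * θ x := by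
    intro x
    rw [hG, ContinuousLinearMap.add_apply, ContinuousLinearMap.smul_apply, smul_eq_mul]
  have hGp : G (p a) = 1 := by
    rw [hGv, hf.one a b₀ hb₀.symm s₀, hθp, mul_zero, add_zero]
  have hGu : G (u a) = 0 := by
    rw [hGv, hf.zero a b₀ hb₀.symm s₀, hθu, mul_zero, add_zero]
  have hGz : G z = f a b₀ s₀ z + τ := by
    rw [hGv, hθz, mul_one]
  have hGc : ∀ c, c ≠ a → |G (p c)| < 1 := by
    intro c hc
    by_cases hcb : c = b₀
    · rw [hcb, hGv, hf.val hb₀.symm s₀, hθb]
      have h1 : bs s₀ + τ * -bs s₀ = bs s₀ * (1 - τ) := by ring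
      rw [h1, abs_mul, abs_bs, one_mul, abs_lt]
      constructor <;> linarith
    · rw [hG]
      exact hτ1 c hc hcb
  -- the vectors
  obtain ⟨z', hz'⟩ := exists_generic ({z, p a, u a} : Finset (E d))
  have hli3' : LinearIndependent ℝ ![z, p a, u a] := by
    have h1 := hli4.comp (![0, 1, 2] : Fin 3 → Fin 4) (by
      intro i j hij
      fin_cases i <;> fin_cases j <;> simp_all)
    convert h1 using 1
    funext i
    fin_cases i <;> rfl
  have hzs' : z' ∉ Submodule.span ℝ (Set.range ![z, p a, u a]) := by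
    have h1 := hz' {z, p a, u a} (Finset.Subset.refl _)
      (lt_of_le_of_lt Finset.card_le_three hd)
    intro h2
    apply h1
    refine Submodule.span_mono ?_ h2
    rintro _ ⟨i, rfl⟩
    fin_cases i
    · simp
    · simp
    · simp
  have hli5 : LinearIndependent ℝ ![z', z, p a, u a] :=
    linearIndependent_finCons.2 ⟨hli3', hzs'⟩
  refine ⟨G, z - G z • p a, z' - G z' • p a, hGp, hGu, ?_, ?_, hGc, ?_, ?_⟩
  · rw [map_sub, map_smul, hGp, smul_eq_mul, mul_one, sub_self]
  · rw [map_sub, map_smul, hGp, smul_eq_mul, mul_one, sub_self]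
  · intro b hb s
    rw [map_sub, map_smul, hf.one a b hb.symm s, smul_eq_mul, mul_one, hGz]
    have := hmax' b hb s
    linarith
  · rw [Fintype.linearIndependent_iff] at hli5 ⊢
    intro c hc
    simp only [Fin.sum_univ_four, Matrix.cons_val_zero, Matrix.cons_val_one,
      Matrix.cons_val] at hc
    have h1 := hli5 ![c 3, c 2, c 0 - c 2 * G z - c 3 * G z', c 1] (by
      simp only [Fin.sum_univ_four, Matrix.cons_val_zero, Matrix.cons_val_one,
        Matrix.cons_val]
      rw [← hc]
      module)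
    have e3 : c 3 = 0 := by simpa using h1 0
    have e2 : c 2 = 0 := by simpa using h1 1
    have e0 : c 0 = 0 := by
      have := h1 2
      simpa [e3, e2] using this
    have e1 : c 1 = 0 := by simpa using h1 3
    intro i
    fin_cases i
    · exact e0
    · exact e1
    · exact e2
    · exact e3

/-- the curve. -/
noncomputable def cv {d : ℕ} (p u v w : E d) (s : ℝ) : E d :=
  (1 - s ^ 4) • p + s • u + s ^ 2 • v + s ^ 3 • w

/-- the derivative of the curve. -/
noncomputable def cv' {d : ℕ} (p u v w : E d) (s : ℝ) : E d :=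
  (-(4 * s ^ 3)) • p + u + (2 * s) • v + (3 * s ^ 2) • w

lemma cv_apply {d : ℕ} (p u v w : E d) (s : ℝ) (f : E d →L[ℝ] ℝ) :
    f (cv p u v w s) = (1 - s ^ 4) * f p + s * f u + s ^ 2 * f v + s ^ 3 * f w := by
  simp only [cv, map_add, map_smul, smul_eq_mul]

lemma cv'_apply {d : ℕ} (p u v w : E d) (s : ℝ) (f : E d →L[ℝ] ℝ) :
    f (cv' p u v w s) = -(4 * s ^ 3) * f p + f u + (2 * s) * f v + (3 * s ^ 2) * f w := by
  simp only [cv', map_add, map_smul, smul_eq_mul]

lemma cv_zero {d : ℕ} (p u v w : E d) : cv p u v w 0 = p := by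
  simp [cv]

lemma cv'_zero {d : ℕ} (p u v w : E d) : cv' p u v w 0 = u := by
  simp [cv']

lemma cv_continuous {d : ℕ} (p u v w : E d) : Continuous (cv p u v w) := by
  unfold cv
  fun_prop

lemma cv'_continuous {d : ℕ} (p u v w : E d) : Continuous (cv' p u v w) := by
  unfold cv'
  fun_prop

end Pool.Agent.H.MP_4bcbbd_co.C
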