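import Pool.Agent.H.MP_4bcbbd_co.C.Adjust

/-!
MP_4bcbbd_co, edges in all dimensions: two more dimensions double the cluster number.
-/

set_option autoImplicit false

namespace Pool.Agent.H.MP_4bcbbd_co.C

open scoped BigOperators

/-- tangent configurations in any space, with any index type. -/
def TanV {V ι : Type} [NormedAddCommGroup V] [NormedSpace ℝ V] (p u : ι → V) : Prop :=
  ∀ a b : ι, a ≠ b → LinearIndependent ℝ ![u a, u b] ∧
    ∀ s : Bool, ∃ l : V →L[ℝ] ℝ,
      l (p a) = 1 ∧ l (u a) = 0 ∧ l (p b) = bs s ∧ l (u b) = 0 ∧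
        ∀ c, c ≠ a → c ≠ b → |l (p c)| < 1

/-- transfer to `ℝ^d` and `Fin k`. -/
theorem TanV.tangent {V ι : Type} [NormedAddCommGroup V] [NormedSpace ℝ V] {p u : ι → V}
    (h : TanV p u) {d k : ℕ} (e : V ≃L[ℝ] E d) (f : Fin k ≃ ι) :
    Tangent (fun i => e (p (f i))) (fun i => e (u (f i))) := by
  intro a b hab
  obtain ⟨h1, h2⟩ := h (f a) (f b) (f.injective.ne hab)
  refine ⟨?_, fun ε hε => ?_⟩
  · rw [LinearIndependent.pair_iff] at h1 ⊢
    intro s t hst
    refine h1 s t ?_
    have h3 : e (s • u (f a) + t • u (f b)) = 0 := by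
      rw [map_add, map_smul, map_smul]
      exact hst
    exact (map_eq_zero_iff e e.injective).1 h3
  · obtain ⟨s, rfl⟩ : ∃ s : Bool, ε = bs s := by
      rcases hε with h3 | h3
      · exact ⟨true, h3⟩
      · exact ⟨false, h3⟩
    obtain ⟨l, l1, l2, l3, l4, l5⟩ := h2 s
    refine ⟨l.comp (e.symm : E d →L[ℝ] V), ?_, ?_, ?_, ?_, ?_⟩
    · simp [l1]
    · simp [l2]
    · simp [l3]
    · simp [l4]
    · intro c hca hcb
      have := l5 (f c) (f.injective.ne hca) (f.injective.ne hcb)
      simpa using this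

theorem Tangent.tanV {d k : ℕ} {p u : Fin k → E d} (h : Tangent p u) : TanV p u := by
  intro a b hab
  obtain ⟨h1, h2⟩ := h a b hab
  exact ⟨h1, fun s => h2 (bs s) (bs_or s)⟩

/-- the cluster number is monotone. -/
theorem tangent_mono {d k : ℕ} (h : ∃ p u : Fin k → E d, Tangent p u) :
    ∃ p u : Fin k → E (d + 1), Tangent p u := by
  obtain ⟨p, u, h⟩ := h
  have h1 : TanV (V := E d × ℝ) (fun i => (p i, (0 : ℝ))) (fun i => (u i, (0 : ℝ))) := by
    intro a b hab
    obtain ⟨h2, h3⟩ := h.tanV a b hab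
    refine ⟨?_, fun s => ?_⟩
    · rw [LinearIndependent.pair_iff] at h2 ⊢
      intro s t hst
      refine h2 s t ?_
      have h4 := congrArg Prod.fst hst
      simpa using h4
    · obtain ⟨l, l1, l2, l3, l4, l5⟩ := h3 s
      refine ⟨l.comp (ContinuousLinearMap.fst ℝ (E d) ℝ), ?_, ?_, ?_, ?_, ?_⟩
      · simp [l1]
      · simp [l2]
      · simp [l3]
      · simp [l4]
      · intro c hca hcb
        simpa using l5 c hca hcb
  have hfr : Module.finrank ℝ (E d × ℝ) = Module.finrank ℝ (E (d + 1)) := by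
    rw [Module.finrank_prod, Module.finrank_self, finrank_euclideanSpace_fin,
      finrank_euclideanSpace_fin]
  exact ⟨_, _, h1.tangent (ContinuousLinearEquiv.ofFinrankEq hfr) (Equiv.refl _)⟩

/-- the doubled configuration. -/
noncomputable def dP {V ι : Type} [NormedAddCommGroup V] [NormedSpace ℝ V] (p : ι → V)
    (A B : ι → ℝ) (q : ι × Bool) : V × (ℝ × ℝ) := (p q.1, (bs q.2 * A q.1, bs q.2 * B q.1))

/-- the functional on the product. -/
noncomputable def dL {V : Type} [NormedAddCommGroup V] [NormedSpace ℝ V] (l : V →L[ℝ] ℝ)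
    (c c' : ℝ) : V × (ℝ × ℝ) →L[ℝ] ℝ :=
  l.coprod (c • ContinuousLinearMap.fst ℝ ℝ ℝ + c' • ContinuousLinearMap.snd ℝ ℝ ℝ)

lemma dL_apply {V : Type} [NormedAddCommGroup V] [NormedSpace ℝ V] (l : V →L[ℝ] ℝ)
    (c c' : ℝ) (x : V) (y z : ℝ) : dL l c c' (x, (y, z)) = l x + (c * y + c' * z) := by
  simp [dL]

/-- unit vectors in pairwise different directions. -/
structure Dirs {ι : Type} (A B : ι → ℝ) : Prop where
  unit : ∀ a, A a * A a + B a * B a = 1
  lt : ∀ a b, a ≠ b → |A a * A b + B a * B b| < 1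
  ne : ∀ a b, a ≠ b → A a * B b - A b * B a ≠ 0

theorem exists_dirs (k : ℕ) : ∃ A B : Fin k → ℝ, Dirs A B := by
  refine ⟨fun a => Real.cos (((a : ℕ) : ℝ) / k), fun a => Real.sin (((a : ℕ) : ℝ) / k), ?_, ?_, ?_⟩
  · intro a
    have := Real.cos_sq_add_sin_sq (((a : ℕ) : ℝ) / k)
    nlinarith
  all_goals
    intro a b hab
    have hk : (0 : ℝ) < k := by
      have : 0 < k := lt_of_le_of_lt (Nat.zero_le _) a.2
      exact_mod_cast this
    obtain ⟨θ, hθ⟩ : ∃ θ : ℝ, θ = ((a : ℕ) : ℝ) / k - ((b : ℕ) : ℝ) / k := ⟨_, rfl⟩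
    have ha : ((a : ℕ) : ℝ) / k < 1 := by
      rw [div_lt_one hk]
      exact_mod_cast a.2
    have hb : ((b : ℕ) : ℝ) / k < 1 := by
      rw [div_lt_one hk]
      exact_mod_cast b.2
    have ha0 : 0 ≤ ((a : ℕ) : ℝ) / k := by positivity
    have hb0 : 0 ≤ ((b : ℕ) : ℝ) / k := by positivity
    have hθ0 : θ ≠ 0 := by
      rw [hθ]
      intro h
      have h1 : ((a : ℕ) : ℝ) / k = ((b : ℕ) : ℝ) / k := by linarith
      rw [div_left_inj' hk.ne'] at h1
      exact hab (Fin.ext (by exact_mod_cast h1))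
    have hpi := Real.pi_gt_three
    have hθ1 : -Real.pi < θ := by rw [hθ]; linarith
    have hθ2 : θ < Real.pi := by rw [hθ]; linarith
    have hsin : Real.sin θ ≠ 0 := by
      intro h
      rw [Real.sin_eq_zero_iff_of_lt_of_lt hθ1 hθ2] at h
      exact hθ0 h
  · show |Real.cos (((a : ℕ) : ℝ) / k) * Real.cos (((b : ℕ) : ℝ) / k) +
      Real.sin (((a : ℕ) : ℝ) / k) * Real.sin (((b : ℕ) : ℝ) / k)| < 1
    rw [← Real.cos_sub, ← hθ]
    have h1 := Real.cos_sq_add_sin_sq θ
    have h2 : 0 < Real.sin θ ^ 2 := by positivity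
    rw [abs_lt]
    constructor <;> nlinarith
  · show Real.cos (((a : ℕ) : ℝ) / k) * Real.sin (((b : ℕ) : ℝ) / k) -
      Real.cos (((b : ℕ) : ℝ) / k) * Real.sin (((a : ℕ) : ℝ) / k) ≠ 0
    intro h
    apply hsin
    rw [hθ, Real.sin_sub]
    linarith

theorem Double_cross {d k : ℕ} {p u : Fin k → E d} (h : Tangent p u) {A B : Fin k → ℝ}
    (hAB : Dirs A B) {a b : Fin k} (hab : a ≠ b) (σ τ s : Bool) :
    ∃ L : E d × (ℝ × ℝ) →L[ℝ] ℝ, L (dP p A B (a, σ)) = 1 ∧
      L (dP u (fun a => -B a) A (a, σ)) = 0 ∧ L (dP p A B (b, τ)) = bs s ∧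
      L (dP u (fun a => -B a) A (b, τ)) = 0 ∧
      ∀ q, q ≠ (a, σ) → q ≠ (b, τ) → |L (dP p A B q)| < 1 := by
  classical
  obtain ⟨l, l1, l2, l3, l4, l5⟩ := (h a b hab).2 (bs s) (bs_or s)
  obtain ⟨g, hg⟩ := exists_dual (h.li hab)
  have g0 : g 0 (p a) = 1 ∧ g 0 (u a) = 0 ∧ g 0 (p b) = 0 ∧ g 0 (u b) = 0 :=
    ⟨by simpa using hg 0 0, by simpa using hg 0 1, by simpa using hg 0 2,
      by simpa using hg 0 3⟩
  have g1 : g 1 (p a) = 0 ∧ g 1 (u a) = 1 ∧ g 1 (p b) = 0 ∧ g 1 (u b) = 0 :=
    ⟨by simpa using hg 1 0, by simpa using hg 1 1, by simpa using hg 1 2,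
      by simpa using hg 1 3⟩
  have g2 : g 2 (p a) = 0 ∧ g 2 (u a) = 0 ∧ g 2 (p b) = 1 ∧ g 2 (u b) = 0 :=
    ⟨by simpa using hg 2 0, by simpa using hg 2 1, by simpa using hg 2 2,
      by simpa using hg 2 3⟩
  have g3 : g 3 (p a) = 0 ∧ g 3 (u a) = 0 ∧ g 3 (p b) = 0 ∧ g 3 (u b) = 1 :=
    ⟨by simpa using hg 3 0, by simpa using hg 3 1, by simpa using hg 3 2,
      by simpa using hg 3 3⟩
  -- the vector `c`
  have hD := hAB.ne a b hab
  obtain ⟨c, c', hc1, hc2⟩ : ∃ c c' : ℝ, c * A a + c' * B a = bs σ ∧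
      c * A b + c' * B b = bs s * bs τ := by
    refine ⟨(bs σ * B b - bs s * bs τ * B a) / (A a * B b - A b * B a),
      (A a * (bs s * bs τ) - A b * bs σ) / (A a * B b - A b * B a), ?_, ?_⟩
    · rw [div_mul_eq_mul_div, div_mul_eq_mul_div, ← add_div, div_eq_iff hD]
      ring
    · rw [div_mul_eq_mul_div, div_mul_eq_mul_div, ← add_div, div_eq_iff hD]
      ring
  obtain ⟨x, hx⟩ : ∃ x : ℝ, x = -(bs σ * (-(c * B a) + c' * A a)) := ⟨_, rfl⟩
  obtain ⟨y, hy⟩ : ∃ y : ℝ, y = -(bs τ * (-(c * B b) + c' * A b)) := ⟨_, rfl⟩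
  obtain ⟨m, hm⟩ : ∃ m : E d →L[ℝ] ℝ, m = (-1 : ℝ) • g 0 + x • g 1 + (-bs s) • g 2 + y • g 3 :=
    ⟨_, rfl⟩
  have m1 : m (p a) = -1 := by
    simp [hm, g0, g1, g2, g3]
  have m2 : m (u a) = x := by
    simp [hm, g0, g1, g2, g3]
  have m3 : m (p b) = -bs s := by
    simp [hm, g0, g1, g2, g3]
  have m4 : m (u b) = y := by
    simp [hm, g0, g1, g2, g3]
  have hev : ∀ᶠ η : ℝ in nhdsWithin 0 (Set.Ioi 0), (∀ q : Fin k × Bool, q.1 ≠ a → q.1 ≠ b →
      |dL (l + η • m) (η * c) (η * c') (dP p A B q)| < 1) ∧ η < 1 := by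
    refine Filter.Eventually.filter_mono nhdsWithin_le_nhds ?_
    refine Filter.Eventually.and ?_ (gt_mem_nhds one_pos)
    rw [Filter.eventually_all]
    intro q
    by_cases hq : q.1 ≠ a ∧ q.1 ≠ b
    · have hform : ∀ η : ℝ, dL (l + η • m) (η * c) (η * c') (dP p A B q) =
          l (p q.1) + η * (m (p q.1) + (c * (bs q.2 * A q.1) + c' * (bs q.2 * B q.1))) := by
        intro η
        unfold dP
        rw [dL_apply]
        simp only [ContinuousLinearMap.add_apply, ContinuousLinearMap.smul_apply, smul_eq_mul]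
        ring
      have hcont : Continuous fun η : ℝ =>
          |dL (l + η • m) (η * c) (η * c') (dP p A B q)| := by
        have h4 : (fun η : ℝ => |dL (l + η • m) (η * c) (η * c') (dP p A B q)|) = fun η : ℝ =>
            |l (p q.1) + η * (m (p q.1) + (c * (bs q.2 * A q.1) + c' * (bs q.2 * B q.1)))| := by
          funext η
          rw [hform]
        rw [h4]
        fun_prop
      have h4 := hcont.tendsto 0
      have h5 : |dL (l + (0 : ℝ) • m) (0 * c) (0 * c') (dP p A B q)| < 1 := by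
        rw [hform, zero_mul, add_zero]
        exact l5 q.1 hq.1 hq.2
      filter_upwards [h4.eventually_lt_const h5] with η hη _ _
      exact hη
    · exact Filter.Eventually.of_forall fun η h1 h2 => absurd ⟨h1, h2⟩ hq
  obtain ⟨η, ⟨hη1, hη2⟩, hη0⟩ := (hev.and self_mem_nhdsWithin).exists
  have hη0' : (0 : ℝ) < η := hη0
  have hpa : ∀ r : Bool, dL (l + η • m) (η * c) (η * c') (dP p A B (a, r)) =
      1 - η + η * (bs r * bs σ) := by
    intro r
    unfold dP
    rw [dL_apply]
    simp only [ContinuousLinearMap.add_apply, ContinuousLinearMap.smul_apply, smul_eq_mul, l1, m1]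
    linear_combination (η * bs r) * hc1
  have hpb : ∀ r : Bool, dL (l + η • m) (η * c) (η * c') (dP p A B (b, r)) =
      bs s * (1 - η) + η * (bs r * (bs s * bs τ)) := by
    intro r
    unfold dP
    rw [dL_apply]
    simp only [ContinuousLinearMap.add_apply, ContinuousLinearMap.smul_apply, smul_eq_mul, l3, m3]
    linear_combination (η * bs r) * hc2
  refine ⟨dL (l + η • m) (η * c) (η * c'), ?_, ?_, ?_, ?_, ?_⟩
  · rw [hpa, bs_mul_self]
    ring
  · unfold dP
    rw [dL_apply]
    simp only [ContinuousLinearMap.add_apply, ContinuousLinearMap.smul_apply, smul_eq_mul, l2, m2,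
      hx]
    ring
  · rw [hpb]
    have h1 : bs τ * (bs s * bs τ) = bs s := by
      rw [mul_comm (bs s) (bs τ), ← mul_assoc, bs_mul_self, one_mul]
    rw [h1]
    ring
  · unfold dP
    rw [dL_apply]
    simp only [ContinuousLinearMap.add_apply, ContinuousLinearMap.smul_apply, smul_eq_mul, l4, m4,
      hy]
    ring
  · rintro ⟨e, r⟩ h1 h2
    by_cases hea : e = a
    · subst hea
      have hr : bs r * bs σ = -1 := by
        cases r <;> cases σ
        · exact absurd rfl h1
        · norm_num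
        · norm_num
        · exact absurd rfl h1
      rw [hpa, hr, abs_lt]
      constructor <;> linarith
    · by_cases heb : e = b
      · subst heb
        have hr : bs r * (bs s * bs τ) = -bs s := by
          cases r <;> cases τ
          · exact absurd rfl h2
          · norm_num
          · norm_num
          · exact absurd rfl h2
        rw [hpb, hr]
        have h3 : bs s * (1 - η) + η * -bs s = bs s * (1 - 2 * η) := by ring
        rw [h3, abs_mul, abs_bs, one_mul, abs_lt]
        constructor <;> linarith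
      · exact hη1 (e, r) hea heb

theorem Double_sib {d k : ℕ} (hk : 2 ≤ k) {p u : Fin k → E d} (h : Tangent p u)
    {A B : Fin k → ℝ} (hAB : Dirs A B) (a : Fin k) {σ τ : Bool} (hστ : σ ≠ τ) (s : Bool) :
    ∃ L : E d × (ℝ × ℝ) →L[ℝ] ℝ, L (dP p A B (a, σ)) = 1 ∧
      L (dP u (fun a => -B a) A (a, σ)) = 0 ∧ L (dP p A B (a, τ)) = bs s ∧
      L (dP u (fun a => -B a) A (a, τ)) = 0 ∧
      ∀ q, q ≠ (a, σ) → q ≠ (a, τ) → |L (dP p A B q)| < 1 := by
  obtain ⟨b, hb⟩ : ∃ b : Fin k, a ≠ b := by
    by_cases ha : (a : ℕ) = 0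
    · exact ⟨⟨1, by omega⟩, fun h1 => by
        have := congrArg Fin.val h1
        simp only at this
        omega⟩
    · exact ⟨⟨0, by omega⟩, fun h1 => by
        have := congrArg Fin.val h1
        simp only at this
        omega⟩
  have hcase : ∀ q : Fin k × Bool, q ≠ (a, σ) → q ≠ (a, τ) → q.1 ≠ a := by
    rintro ⟨e, r⟩ h1 h2 h3
    have h3' : e = a := h3
    subst h3'
    cases r <;> cases σ <;> cases τ <;> simp_all
  cases s
  · refine ⟨dL 0 (bs σ * A a) (bs σ * B a), ?_, ?_, ?_, ?_, ?_⟩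
    · unfold dP
      rw [dL_apply]
      simp only [ContinuousLinearMap.zero_apply]
      have h1 := bs_mul_self σ
      have h2 := hAB.unit a
      linear_combination (A a * A a + B a * B a) * h1 + h2
    · unfold dP
      rw [dL_apply]
      simp only [ContinuousLinearMap.zero_apply]
      ring
    · unfold dP
      rw [dL_apply]
      simp only [ContinuousLinearMap.zero_apply, bs_false]
      have h1 : bs σ * bs τ = -1 := by
        cases σ <;> cases τ
        · exact absurd rfl hστ
        · norm_num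
        · norm_num
        · exact absurd rfl hστ
      have h2 := hAB.unit a
      linear_combination (A a * A a + B a * B a) * h1 - h2
    · unfold dP
      rw [dL_apply]
      simp only [ContinuousLinearMap.zero_apply]
      ring
    · intro q h1 h2
      have h3 := hAB.lt a q.1 (hcase q h1 h2).symm
      unfold dP
      rw [dL_apply]
      simp only [ContinuousLinearMap.zero_apply]
      have h4 : (0 : ℝ) + (bs σ * A a * (bs q.2 * A q.1) + bs σ * B a * (bs q.2 * B q.1)) =
          bs σ * (bs q.2 * (A a * A q.1 + B a * B q.1)) := by ring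
      rw [h4, abs_mul, abs_mul, abs_bs, abs_bs, one_mul, one_mul]
      exact h3
  · obtain ⟨l, l1, l2, l3, l4, l5⟩ := (h a b hb).2 1 (Or.inl rfl)
    obtain ⟨m, m1, m2, m3, m4, m5⟩ := (h a b hb).2 (-1) (Or.inr rfl)
    have hv : ∀ x y z, dL ((1 / 2 : ℝ) • (l + m)) 0 0 (x, (y, z)) = (l x + m x) / 2 := by
      intro x y z
      rw [dL_apply]
      simp only [ContinuousLinearMap.add_apply, ContinuousLinearMap.smul_apply, smul_eq_mul]
      ring
    refine ⟨dL ((1 / 2 : ℝ) • (l + m)) 0 0, ?_, ?_, ?_, ?_, ?_⟩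
    · unfold dP
      rw [hv, l1, m1]
      norm_num
    · unfold dP
      rw [hv, l2, m2]
      norm_num
    · unfold dP
      rw [hv, l1, m1, bs_true]
      norm_num
    · unfold dP
      rw [hv, l2, m2]
      norm_num
    · intro q h1 h2
      have h3 := hcase q h1 h2
      unfold dP
      rw [hv]
      by_cases hqb : q.1 = b
      · rw [hqb, l3, m3]
        norm_num
      · have e1 := abs_lt.1 (l5 q.1 h3 hqb)
        have e2 := abs_lt.1 (m5 q.1 h3 hqb)
        rw [abs_lt]
        constructor <;> linarith [e1.1, e1.2, e2.1, e2.2]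

/-- two more dimensions double the cluster number. -/
theorem tangent_double {d k : ℕ} (hk : 2 ≤ k) (h : ∃ p u : Fin k → E d, Tangent p u) :
    ∃ p u : Fin (2 * k) → E (d + 2), Tangent p u := by
  obtain ⟨p, u, h⟩ := h
  obtain ⟨A, B, hAB⟩ := exists_dirs k
  have hT : TanV (V := E d × (ℝ × ℝ)) (dP p A B) (dP u (fun a => -B a) A) := by
    rintro ⟨a, σ⟩ ⟨b, τ⟩ hne
    by_cases hab : a = b
    · subst hab
      have hστ : σ ≠ τ := fun h1 => hne (by rw [h1])
      refine ⟨?_, fun s => Double_sib hk h hAB a hστ s⟩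
      have hua : u a ≠ 0 := by
        obtain ⟨b, hb⟩ : ∃ b : Fin k, a ≠ b := by
          by_cases ha : (a : ℕ) = 0
          · exact ⟨⟨1, by omega⟩, fun h1 => by
              have := congrArg Fin.val h1
              simp only at this
              omega⟩
          · exact ⟨⟨0, by omega⟩, fun h1 => by
              have := congrArg Fin.val h1
              simp only at this
              omega⟩
        intro h0
        have h1 := (LinearIndependent.pair_iff.1 (h a b hb).1) 1 0 (by rw [h0]; simp)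
        exact one_ne_zero h1.1
      rw [LinearIndependent.pair_iff]
      intro s t hst
      have e1 : (s + t) • u a = 0 := by
        have := congrArg Prod.fst hst
        rw [add_smul]
        simpa [dP] using this
      have e2 : s * (bs σ * -B a) + t * (bs τ * -B a) = 0 := by
        have := congrArg (fun x : E d × (ℝ × ℝ) => x.2.1) hst
        simpa [dP] using this
      have e3 : s * (bs σ * A a) + t * (bs τ * A a) = 0 := by
        have := congrArg (fun x : E d × (ℝ × ℝ) => x.2.2) hst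
        simpa [dP] using this
      have e4 : s + t = 0 := (smul_eq_zero.1 e1).resolve_right hua
      have e5 : t = -s := by linarith
      subst e5
      have e6 : s * (bs σ - bs τ) = 0 := by
        have h2 := hAB.unit a
        linear_combination A a * e3 - B a * e2 - s * (bs σ - bs τ) * h2
      have e7 : bs σ - bs τ ≠ 0 := by
        cases σ <;> cases τ
        · exact absurd rfl hστ
        · norm_num
        · norm_num
        · exact absurd rfl hστ
      have e8 : s = 0 := (mul_eq_zero.1 e6).resolve_right e7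
      rw [e8]
      simp
    · refine ⟨?_, fun s => Double_cross h hAB hab σ τ s⟩
      have h1 := (h a b hab).1
      rw [LinearIndependent.pair_iff] at h1 ⊢
      intro s t hst
      refine h1 s t ?_
      have := congrArg Prod.fst hst
      simpa [dP] using this
  have hfr : Module.finrank ℝ (E d × (ℝ × ℝ)) = Module.finrank ℝ (E (d + 2)) := by
    rw [Module.finrank_prod, Module.finrank_prod, Module.finrank_self,
      finrank_euclideanSpace_fin, finrank_euclideanSpace_fin]
  have hcard : Fintype.card (Fin k × Bool) = 2 * k := by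
    rw [Fintype.card_prod, Fintype.card_fin, Fintype.card_bool, mul_comm]
  exact ⟨_, _, hT.tangent (ContinuousLinearEquiv.ofFinrankEq hfr)
    ((Fintype.equivFinOfCardEq hcard).symm)⟩

end Pool.Agent.H.MP_4bcbbd_co.C
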