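import Pool.Agent.H.MP_4bcbbd_co.C.Code

/-!
MP_4bcbbd_co, edges in all dimensions: a functional which sees a point gives a vertex which sees it.
-/

set_option autoImplicit false

namespace Pool.Agent.H.MP_4bcbbd_co.C

theorem Sees_compact {d : ℕ} {Λ : Type} [Finite Λ] {w : Λ → E d} {A B : Set Λ} {τ : Λ → ℝ}
    (hs : Submodule.span ℝ (w '' A) = ⊤) : IsCompact (NN w A B τ) := by
  classical
  haveI := Fintype.ofFinite Λ
  let Φ : (E d →L[ℝ] ℝ) →ₗ[ℝ] (Λ → ℝ) :=
    { toFun := fun f i => if i ∈ A then f (w i) else 0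
      map_add' := by
        intro f g
        funext i
        by_cases hi : i ∈ A
        · simp [hi]
        · simp [hi]
      map_smul' := by
        intro c f
        funext i
        by_cases hi : i ∈ A
        · simp [hi]
        · simp [hi] }
  have hΦ : ∀ f i, i ∈ A → Φ f i = f (w i) := by
    intro f i hi
    show (if i ∈ A then f (w i) else 0) = f (w i)
    rw [if_pos hi]
  have hΦ0 : ∀ f i, i ∉ A → Φ f i = 0 := by
    intro f i hi
    show (if i ∈ A then f (w i) else 0) = 0
    rw [if_neg hi]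
  have hinj : LinearMap.ker Φ = ⊥ := by
    rw [LinearMap.ker_eq_bot']
    intro f hf
    have h1 : ∀ i ∈ A, f (w i) = 0 := by
      intro i hi
      rw [← hΦ f i hi, hf]
      rfl
    have h2 : (f : E d →ₗ[ℝ] ℝ) = 0 := by
      refine LinearMap.ext_on hs ?_
      rintro _ ⟨i, hi, rfl⟩
      exact h1 i hi
    ext x
    have h3 := DFunLike.congr_fun h2 x
    exact h3
  have hemb := LinearMap.isClosedEmbedding_of_injective hinj
  have hbox : IsCompact (Set.pi Set.univ fun _ : Λ => Set.Icc (-1 : ℝ) 1) :=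
    isCompact_univ_pi fun _ => isCompact_Icc
  have hpre := hemb.isCompact_preimage hbox
  refine hpre.of_isClosed_subset ?_ ?_
  · have h1 : NN w A B τ = (⋂ i ∈ B, {f : E d →L[ℝ] ℝ | f (w i) = τ i}) ∩
        ⋂ i ∈ A, {f : E d →L[ℝ] ℝ | |f (w i)| ≤ 1} := by
      ext f
      simp only [NN, Set.mem_setOf_eq, Set.mem_inter_iff, Set.mem_iInter]
    rw [h1]
    refine IsClosed.inter ?_ ?_
    · refine isClosed_biInter fun i _ => ?_
      exact isClosed_eq ((ContinuousLinearMap.apply ℝ ℝ (w i)).continuous) continuous_const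
    · refine isClosed_biInter fun i _ => ?_
      exact isClosed_le ((ContinuousLinearMap.apply ℝ ℝ (w i)).continuous.abs) continuous_const
  · intro f hf i _
    show Φ f i ∈ Set.Icc (-1 : ℝ) 1
    by_cases hi : i ∈ A
    · rw [hΦ f i hi]
      exact abs_le.1 (hf.2 i hi)
    · rw [hΦ0 f i hi]
      constructor <;> norm_num

/-- PROOF: `NN w A B τ` is compact (closed, and bounded because `w '' A` spans: finite dimension). For small
`t > 0` the functional `f + t • θ` is in it and is `> 1` at `x`. By Krein-Milman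
(`closure_convexHull_extremePoints`) some extreme point is `> 1` at `x`. -/
theorem sees {d : ℕ} {Λ : Type} [Finite Λ] {w : Λ → E d} {A B : Set Λ} {τ : Λ → ℝ}
    (hs : Submodule.span ℝ (w '' A) = ⊤) {x : E d} {f θ : E d →L[ℝ] ℝ}
    (hB : ∀ i ∈ B, f (w i) = τ i) (hA : ∀ i ∈ A, |f (w i)| < 1) (hx : f x = 1)
    (hθ : ∀ i ∈ B, θ (w i) = 0) (hθx : 0 < θ x) :
    ∃ g ∈ (NN w A B τ).extremePoints ℝ, 1 < g x := by
  have hev : ∀ᶠ t : ℝ in nhdsWithin 0 (Set.Ioi 0), ∀ i, i ∈ A → |(f + t • θ) (w i)| ≤ 1 := by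
    refine Filter.Eventually.filter_mono nhdsWithin_le_nhds ?_
    rw [Filter.eventually_all]
    intro i
    by_cases hi : i ∈ A
    · have hcont : Continuous fun t : ℝ => |(f + t • θ) (w i)| := by
        have h4 : (fun t : ℝ => |(f + t • θ) (w i)|) = fun t : ℝ => |f (w i) + t * θ (w i)| := by
          funext t
          simp
        rw [h4]
        fun_prop
      have h4 : Filter.Tendsto (fun t : ℝ => |(f + t • θ) (w i)|) (nhds 0) (nhds |f (w i)|) := by
        have := hcont.tendsto 0
        simpa using this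
      filter_upwards [h4.eventually_lt_const (hA i hi)] with t ht _
      exact ht.le
    · exact Filter.Eventually.of_forall fun t h => absurd h hi
  obtain ⟨t, ht, ht0⟩ := (hev.and self_mem_nhdsWithin).exists
  have ht0' : (0 : ℝ) < t := ht0
  have hmem : f + t • θ ∈ NN w A B τ := by
    refine ⟨fun i hi => ?_, ht⟩
    have e1 := hB i hi
    have e2 := hθ i hi
    simp [e1, e2]
  have hval : 1 < (f + t • θ) x := by
    have h1 : (f + t • θ) x = f x + t * θ x := by simp
    rw [h1, hx]
    have := mul_pos ht0' hθx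
    linarith
  by_contra hcon
  push Not at hcon
  have hconv : Convex ℝ (NN w A B τ) := by
    intro f1 hf1 f2 hf2 a b ha hb hab
    refine ⟨fun i hi => ?_, fun i hi => ?_⟩
    · have e1 := hf1.1 i hi
      have e2 := hf2.1 i hi
      simp only [ContinuousLinearMap.add_apply, ContinuousLinearMap.smul_apply, smul_eq_mul, e1, e2]
      rw [← add_mul, hab, one_mul]
    · have e1 := abs_le.1 (hf1.2 i hi)
      have e2 := abs_le.1 (hf2.2 i hi)
      simp only [ContinuousLinearMap.add_apply, ContinuousLinearMap.smul_apply, smul_eq_mul]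
      rw [abs_le]
      constructor <;> nlinarith [e1.1, e1.2, e2.1, e2.2]
  have hKM := closure_convexHull_extremePoints (Sees_compact (B := B) (τ := τ) hs) hconv
  have hH : IsClosed {g : E d →L[ℝ] ℝ | g x ≤ 1} :=
    isClosed_le (ContinuousLinearMap.apply ℝ ℝ x).continuous continuous_const
  have hHc : Convex ℝ {g : E d →L[ℝ] ℝ | g x ≤ 1} := by
    intro f1 hf1 f2 hf2 a b ha hb hab
    have e1 : f1 x ≤ 1 := hf1
    have e2 : f2 x ≤ 1 := hf2
    show (a • f1 + b • f2) x ≤ 1
    simp only [ContinuousLinearMap.add_apply, ContinuousLinearMap.smul_apply, smul_eq_mul]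
    nlinarith
  have hsub : NN w A B τ ⊆ {g : E d →L[ℝ] ℝ | g x ≤ 1} := by
    rw [← hKM]
    exact closure_minimal (convexHull_min (fun g hg => hcon g hg) hHc) hH
  have := hsub hmem
  have h2 : (f + t • θ) x ≤ 1 := this
  linarith

end Pool.Agent.H.MP_4bcbbd_co.C
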