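import Pool.Agent.H.MP_4bcbbd_co.C.Seeing
import Pool.Agent.H.MP_4bcbbd_co.C.Sees
import Pool.Agent.H.MP_4bcbbd_co.C.Adjust

/-!
MP_4bcbbd_co, edges in all dimensions: large full configurations contain tangent configurations.
-/

set_option autoImplicit false

namespace Pool.Agent.H.MP_4bcbbd_co.C

/-- `K` clusters of `T` points, points of different clusters being joined with all signs, and a
basis of points strictly inside. -/
structure FullCfg {d K : ℕ} (T : ℕ) (b : Fin d → E d) (x : Fin K → ℕ → E d) : Prop where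
  span : Submodule.span ℝ (Set.range b) = ⊤
  li : ∀ a c : Fin K, a ≠ c → ∀ s s' t t' : ℕ, s < T → s' < T → t < T → t' < T → s ≠ s' → t ≠ t' →
    LinearIndependent ℝ ![x a s, x a s', x c t, x c t']
  full : ∀ a c : Fin K, a ≠ c → ∀ s t : ℕ, s < T → t < T → ∀ e : Bool, ∃ l : E d →L[ℝ] ℝ,
    l (x a s) = 1 ∧ l (x c t) = bs e ∧ (∀ i, |l (b i)| < 1) ∧
      ∀ (a' : Fin K) (s' : ℕ), s' < T → (a', s') ≠ (a, s) → (a', s') ≠ (c, t) → |l (x a' s')| < 1

/-- the properties of the labelled points which are used. -/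
structure ExtractCfg {d K : ℕ} (w : Lab K d → E d) : Prop where
  see : ∀ (c : Fin K) (A B : Set (Lab K d)) (τ : Lab K d → Bool) (s : Bool),
    (∀ t, Sum.inr (c, t) ∉ A ∧ Sum.inr (c, t) ∉ B) →
    (∃ g ∈ (NN w A B fun i => bs (τ i)).extremePoints ℝ, 1 < g (bs s • w (Sum.inr (c, false)))) →
    ∃ g ∈ NN w A B fun i => bs (τ i),
      1 < g (bs s • w (Sum.inr (c, false))) ∧ 1 < g (bs s • w (Sum.inr (c, true)))
  full : ∀ a c : Fin K, a ≠ c → ∀ s t e : Bool, ∃ l : E d →L[ℝ] ℝ, l (w (Sum.inr (a, s))) = 1 ∧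
    l (w (Sum.inr (c, t))) = bs e ∧
    ∀ i : Lab K d, i ≠ Sum.inr (a, s) → i ≠ Sum.inr (c, t) → |l (w i)| < 1
  span : Submodule.span ℝ (Set.range fun i : Fin d => w (Sum.inl i)) = ⊤
  li : ∀ a c : Fin K, a ≠ c → LinearIndependent ℝ
    ![w (Sum.inr (a, false)), w (Sum.inr (a, true)), w (Sum.inr (c, false)), w (Sum.inr (c, true))]

theorem Extract_span {d K : ℕ} {w : Lab K d → E d} (hw : ExtractCfg w) {A : Set (Lab K d)}
    (hA : ∀ i, Sum.inl i ∈ A) : Submodule.span ℝ (w '' A) = ⊤ := by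
  rw [← top_le_iff, ← hw.span, Submodule.span_le]
  rintro _ ⟨i, rfl⟩
  exact Submodule.subset_span ⟨_, hA i, rfl⟩

theorem Extract_dual {d K : ℕ} {w : Lab K d → E d} (hw : ExtractCfg w) {a c : Fin K}
    (hac : a ≠ c) : ∃ θ θ' : E d →L[ℝ] ℝ, (θ (w (Sum.inr (a, false))) = 1 ∧
      ∀ s, θ (w (Sum.inr (c, s))) = 0) ∧ (θ' (w (Sum.inr (c, false))) = 1 ∧
      ∀ s, θ' (w (Sum.inr (a, s))) = 0) := by
  obtain ⟨g, hg⟩ := exists_dual (hw.li a c hac)
  refine ⟨g 0, g 2, ⟨?_, ?_⟩, ?_, ?_⟩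
  · have := hg 0 0
    simpa using this
  · intro s
    cases s
    · have := hg 0 2
      simpa using this
    · have := hg 0 3
      simpa using this
  · have := hg 2 2
    simpa using this
  · intro s
    cases s
    · have := hg 2 0
      simpa using this
    · have := hg 2 1
      simpa using this

theorem Extract_step1 {d K : ℕ} {w : Lab K d → E d} (hw : ExtractCfg w) {a c : Fin K}
    (hac : a ≠ c) (s e : Bool) : ∃ f : E d →L[ℝ] ℝ, f (w (Sum.inr (a, false))) = 1 ∧
      f (w (Sum.inr (a, true))) = 1 ∧ f (w (Sum.inr (c, s))) = bs e ∧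
      ∀ i : Lab K d, i ≠ Sum.inr (a, false) → i ≠ Sum.inr (a, true) → i ≠ Sum.inr (c, s) →
        |f (w i)| < 1 := by
  obtain ⟨A, hA⟩ : ∃ A : Set (Lab K d), A = {i | i ≠ Sum.inr (a, false) ∧
    i ≠ Sum.inr (a, true) ∧ i ≠ Sum.inr (c, s)} := ⟨_, rfl⟩
  obtain ⟨B, hB⟩ : ∃ B : Set (Lab K d), B = {Sum.inr (c, s)} := ⟨_, rfl⟩
  have hmA : ∀ i, i ∈ A ↔ i ≠ Sum.inr (a, false) ∧ i ≠ Sum.inr (a, true) ∧
      i ≠ Sum.inr (c, s) := by
    intro i
    rw [hA]
    rfl
  have hmB : ∀ i, i ∈ B ↔ i = Sum.inr (c, s) := by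
    intro i
    rw [hB]
    rfl
  have hspan := Extract_span hw (A := A) (fun i => (hmA _).2 ⟨by simp, by simp, by simp⟩)
  obtain ⟨θ, -, ⟨h1, h2⟩, -⟩ := Extract_dual hw hac
  obtain ⟨f1, a1, a2, a3⟩ := hw.full a c hac false s e
  obtain ⟨f2, b1, b2, b3⟩ := hw.full a c hac true s e
  have hff : (Sum.inr (a, true) : Lab K d) ≠ Sum.inr (a, false) := by simp
  have hac1 : ∀ t, (Sum.inr (a, t) : Lab K d) ≠ Sum.inr (c, s) := by
    intro t h
    exact hac (Prod.mk.inj (Sum.inr.inj h)).1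
  obtain ⟨g, hg, hg1⟩ := sees (w := w) (A := A) (B := B) (τ := fun i => bs ((fun _ => e) i))
    hspan (x := w (Sum.inr (a, false))) (f := f1) (θ := θ)
    (by
      intro i hi
      rw [(hmB i).1 hi]
      exact a2)
    (by
      intro i hi
      obtain ⟨c1, c2, c3⟩ := (hmA i).1 hi
      exact a3 i c1 c3)
    a1
    (by
      intro i hi
      rw [(hmB i).1 hi]
      exact h2 s)
    (by rw [h1]; exact one_pos)
  obtain ⟨g', hg', hg1', hg2'⟩ := hw.see a A B (fun _ => e) true
    (by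
      intro t
      constructor
      · intro h
        obtain ⟨c1, c2, c3⟩ := (hmA _).1 h
        cases t
        · exact c1 rfl
        · exact c2 rfl
      · intro h
        exact hac1 t ((hmB _).1 h))
    ⟨g, hg, by rw [bs_true, one_smul]; exact hg1⟩
  rw [bs_true, one_smul] at hg1' hg2'
  obtain ⟨f, k1, k2, k3, k4⟩ := mix (w := w) (A := A) hg1' hg2' a1
    ((abs_lt.1 (a3 _ hff (hac1 true))).2) b1 ((abs_lt.1 (b3 _ hff.symm (hac1 false))).2)
    hg'.2
    (by
      intro i hi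
      obtain ⟨c1, c2, c3⟩ := (hmA i).1 hi
      exact a3 i c1 c3)
    (by
      intro i hi
      obtain ⟨c1, c2, c3⟩ := (hmA i).1 hi
      exact b3 i c2 c3)
  refine ⟨f, k1, k2, ?_, ?_⟩
  · exact k4 _ _ (hg'.1 _ ((hmB _).2 rfl)) a2 b2
  · intro i c1 c2 c3
    exact k3 i ((hmA i).2 ⟨c1, c2, c3⟩)

theorem Extract_step2 {d K : ℕ} {w : Lab K d → E d} (hw : ExtractCfg w) {a c : Fin K}
    (hac : a ≠ c) (e : Bool) : ∃ f : E d →L[ℝ] ℝ, f (w (Sum.inr (a, false))) = 1 ∧
      f (w (Sum.inr (a, true))) = 1 ∧ f (w (Sum.inr (c, false))) = bs e ∧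
      f (w (Sum.inr (c, true))) = bs e ∧
      ∀ i : Lab K d, i ≠ Sum.inr (a, false) → i ≠ Sum.inr (a, true) → i ≠ Sum.inr (c, false) →
        i ≠ Sum.inr (c, true) → |f (w i)| < 1 := by
  obtain ⟨A, hA⟩ : ∃ A : Set (Lab K d), A = {i | i ≠ Sum.inr (a, false) ∧
    i ≠ Sum.inr (a, true) ∧ i ≠ Sum.inr (c, false) ∧ i ≠ Sum.inr (c, true)} := ⟨_, rfl⟩
  obtain ⟨B, hB⟩ : ∃ B : Set (Lab K d), B = {i | i = Sum.inr (a, false) ∨
    i = Sum.inr (a, true)} := ⟨_, rfl⟩
  have hmA : ∀ i, i ∈ A ↔ i ≠ Sum.inr (a, false) ∧ i ≠ Sum.inr (a, true) ∧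
      i ≠ Sum.inr (c, false) ∧ i ≠ Sum.inr (c, true) := by
    intro i
    rw [hA]
    rfl
  have hmB : ∀ i, i ∈ B ↔ i = Sum.inr (a, false) ∨ i = Sum.inr (a, true) := by
    intro i
    rw [hB]
    rfl
  have hspan := Extract_span hw (A := A) (fun i => (hmA _).2 ⟨by simp, by simp, by simp, by simp⟩)
  obtain ⟨-, θ, -, h1, h2⟩ := Extract_dual hw hac
  obtain ⟨f1, a1, a2, a3, a4⟩ := Extract_step1 hw hac false e
  obtain ⟨f2, b1, b2, b3, b4⟩ := Extract_step1 hw hac true e
  have hff : (Sum.inr (c, true) : Lab K d) ≠ Sum.inr (c, false) := by simp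
  have hac1 : ∀ t t', (Sum.inr (c, t) : Lab K d) ≠ Sum.inr (a, t') := by
    intro t t' h
    exact hac (Prod.mk.inj (Sum.inr.inj h)).1.symm
  have hsq := bs_mul_self e
  obtain ⟨g, hg, hg1⟩ := sees (w := w) (A := A) (B := B) (τ := fun i => bs ((fun _ => true) i))
    hspan (x := bs e • w (Sum.inr (c, false))) (f := f1) (θ := bs e • θ)
    (by
      intro i hi
      rcases (hmB i).1 hi with h | h
      · rw [h]
        exact a1
      · rw [h]
        exact a2)
    (by
      intro i hi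
      obtain ⟨c1, c2, c3, c4⟩ := (hmA i).1 hi
      exact a4 i c1 c2 c3)
    (by rw [map_smul, a3, smul_eq_mul, hsq])
    (by
      intro i hi
      rcases (hmB i).1 hi with h | h
      · rw [h, ContinuousLinearMap.smul_apply, h2, smul_zero]
      · rw [h, ContinuousLinearMap.smul_apply, h2, smul_zero])
    (by
      rw [map_smul, ContinuousLinearMap.smul_apply, h1, smul_eq_mul, smul_eq_mul, mul_one, hsq]
      exact one_pos)
  obtain ⟨g', hg', hg1', hg2'⟩ := hw.see c A B (fun _ => true) e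
    (by
      intro t
      constructor
      · intro h
        obtain ⟨c1, c2, c3, c4⟩ := (hmA _).1 h
        cases t
        · exact c3 rfl
        · exact c4 rfl
      · intro h
        rcases (hmB _).1 h with h | h
        · exact hac1 _ _ h
        · exact hac1 _ _ h)
    ⟨g, hg, hg1⟩
  have hlt : ∀ r : ℝ, |r| < 1 → bs e * r < 1 := by
    intro r hr
    have h3 : |bs e * r| < 1 := by rw [abs_mul, abs_bs, one_mul]; exact hr
    exact (abs_lt.1 h3).2
  obtain ⟨f, k1, k2, k3, k4⟩ := mix (w := w) (A := A) (f1 := f1) (f2 := f2) hg1' hg2'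
    (by rw [map_smul, a3, smul_eq_mul, hsq])
    (by
      rw [map_smul, smul_eq_mul]
      exact hlt _ (a4 _ (hac1 _ _) (hac1 _ _) hff))
    (by rw [map_smul, b3, smul_eq_mul, hsq])
    (by
      rw [map_smul, smul_eq_mul]
      exact hlt _ (b4 _ (hac1 _ _) (hac1 _ _) hff.symm))
    hg'.2
    (by
      intro i hi
      obtain ⟨c1, c2, c3, c4⟩ := (hmA i).1 hi
      exact a4 i c1 c2 c3)
    (by
      intro i hi
      obtain ⟨c1, c2, c3, c4⟩ := (hmA i).1 hi
      exact b4 i c1 c2 c4)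
  have hback : ∀ y : E d, f (bs e • y) = 1 → f y = bs e := by
    intro y hy
    rw [map_smul, smul_eq_mul] at hy
    calc f y = (bs e * bs e) * f y := by rw [hsq, one_mul]
      _ = bs e * (bs e * f y) := by ring
      _ = bs e := by rw [hy, mul_one]
  refine ⟨f, ?_, ?_, hback _ k1, hback _ k2, ?_⟩
  · exact k4 _ _ (hg'.1 _ ((hmB _).2 (Or.inl rfl))) a1 b1
  · exact k4 _ _ (hg'.1 _ ((hmB _).2 (Or.inr rfl))) a2 b2
  · intro i c1 c2 c3 c4
    exact k3 i ((hmA i).2 ⟨c1, c2, c3, c4⟩)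

theorem Extract_tangent {d K : ℕ} {w : Lab K d → E d} (hw : ExtractCfg w) :
    Tangent (fun a => w (Sum.inr (a, false)))
      (fun a => w (Sum.inr (a, true)) - w (Sum.inr (a, false))) := by
  intro a c hac
  constructor
  · have hli := hw.li a c hac
    rw [Fintype.linearIndependent_iff] at hli
    rw [LinearIndependent.pair_iff]
    intro s t hst
    have h1 := hli ![-s, s, -t, t] (by
      simp only [Fin.sum_univ_four, Matrix.cons_val_zero, Matrix.cons_val_one, Matrix.cons_val]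
      rw [← hst]
      module)
    constructor
    · have := h1 1
      simpa using this
    · have := h1 3
      simpa using this
  · intro ε hε
    obtain ⟨e, rfl⟩ : ∃ e : Bool, ε = bs e := by
      rcases hε with h | h
      · exact ⟨true, h⟩
      · exact ⟨false, h⟩
    obtain ⟨f, k1, k2, k3, k4, k5⟩ := Extract_step2 hw hac e
    refine ⟨f, k1, ?_, k3, ?_, ?_⟩
    · rw [map_sub, k1, k2, sub_self]
    · rw [map_sub, k3, k4, sub_self]
    · intro c' h1 h2
      refine k5 _ ?_ ?_ ?_ ?_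
      · intro h
        exact h1 (Prod.mk.inj (Sum.inr.inj h)).1
      · intro h
        exact h1 (Prod.mk.inj (Sum.inr.inj h)).1
      · intro h
        exact h2 (Prod.mk.inj (Sum.inr.inj h)).1
      · intro h
        exact h2 (Prod.mk.inj (Sum.inr.inj h)).1

/-- PROOF. Let `T` be the number of `seeing K d`; given `b`, `x` take `p`, `q` from `seeing`. Write
`w = wt b x (p,q)`, `X c false = x c (p c)`, `X c true = x c (q c)`.
STEP 1. For `a ≠ c`, `s : Bool`, `e : Bool` there is `f` with `f (X a false) = f (X a true) = 1`,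
`f (X c s) = bs e`, and `|f| < 1` at all `b i`, at all `X c' s'` with `c' ≠ a`, `(c', s') ≠ (c, s)`.
Let `A = {inl i} ∪ {inr (c', s') | c' ≠ a ∧ (c', s') ≠ (c, s)}`, `B = {inr (c, s)}`, `τ = fun _ => e`. The functional
`f1` of `full` for `(a, p a)`, `(c, _)`, `e` is `1` at `X a false`, `bs e` at `X c s` and `< 1` at all the other points, `f2` the same for
`(a, q a)`. `sees` with `x = X a false = bs true • x a (p a)`, `θ` with `θ (X c s) = 0`, `θ (X a false) = 1` (from `li`) gives a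
vertex; `seeing` for the cluster `a` and sign `true` gives `g` in `NN w A B τ` with `g > 1` at `X a false` and
`X a true`; `mix`.
STEP 2. For `a ≠ c`, `e : Bool` there is `f` with `f (X a false) = f (X a true) = 1`,
`f (X c false) = f (X c true) = bs e` and `|f| < 1` at `X c' s'` for `c' ≠ a, c`. Now
`A = {inl i} ∪ {inr (c', s') | c' ≠ a ∧ c' ≠ c}`, `B = {inr (a, false), inr (a, true)}`, `τ = fun _ => true`. `f1`, `f2` are the functionals of Step 1 for `s = false`
and `s = true`, and `x = bs e • X c false`, `x' = bs e • X c true`; `θ` from `li` with `θ (X a _) = 0`, `θ (bs e • X c false) = 1`;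
`sees`, `seeing` for the cluster `c` and sign `e`, `mix`.
CONCLUSION. `p a := X a false`, `u a := X a true - X a false`; `u a`, `u c` are independent by
`li`. -/
theorem tangent_of_fullCfg (K d : ℕ) : ∃ T : ℕ, ∀ (b : Fin d → E d) (x : Fin K → ℕ → E d),
    FullCfg T b x → ∃ p u : Fin K → E d, Tangent p u := by
  obtain ⟨T, -, hT⟩ := seeing K d
  refine ⟨T, fun b x h => ?_⟩
  obtain ⟨p, q, hpq, hsee⟩ := hT b x
  obtain ⟨idx, hidx⟩ : ∃ idx : Fin K → Bool → ℕ, idx = fun c s => if s then q c else p c :=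
    ⟨_, rfl⟩
  have hi0 : ∀ c, idx c false = p c := by
    intro c
    rw [hidx]
    rfl
  have hi1 : ∀ c, idx c true = q c := by
    intro c
    rw [hidx]
    rfl
  have hiT : ∀ c s, idx c s < T := by
    intro c s
    have h1 := hpq c
    cases s
    · rw [hi0]
      exact h1.1.trans h1.2
    · rw [hi1]
      exact h1.2
  have hinj : ∀ c s s', idx c s = idx c s' → s = s' := by
    intro c s s' hss
    have h1 := (hpq c).1
    cases s <;> cases s'
    · rfl
    · rw [hi0, hi1] at hss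
      omega
    · rw [hi0, hi1] at hss
      omega
    · rfl
  have hw : ∀ c s, wt b x (fun a => (p a, q a)) (Sum.inr (c, s)) = x c (idx c s) := by
    intro c s
    cases s
    · rw [hi0]
      rfl
    · rw [hi1]
      rfl
  refine ⟨_, _, Extract_tangent (w := wt b x fun a => (p a, q a)) ⟨?_, ?_, ?_, ?_⟩⟩
  · intro c A B τ s hAB hg
    exact hsee c A B τ s hAB hg
  · intro a c hac s t e
    obtain ⟨l, l1, l2, l3, l4⟩ := h.full a c hac (idx a s) (idx c t) (hiT _ _) (hiT _ _) e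
    refine ⟨l, by rw [hw]; exact l1, by rw [hw]; exact l2, ?_⟩
    intro i h1 h2
    rcases i with i | ⟨c', s'⟩
    · exact l3 i
    · rw [hw]
      refine l4 c' (idx c' s') (hiT _ _) ?_ ?_
      · intro h3
        obtain ⟨h4, h5⟩ := Prod.mk.inj h3
        subst h4
        exact h1 (by rw [hinj _ _ _ h5])
      · intro h3
        obtain ⟨h4, h5⟩ := Prod.mk.inj h3
        subst h4
        exact h2 (by rw [hinj _ _ _ h5])
  · exact h.span
  · intro a c hac
    rw [hw, hw, hw, hw]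
    refine h.li a c hac _ _ _ _ (hiT _ _) (hiT _ _) (hiT _ _) (hiT _ _) ?_ ?_
    · intro h1
      have := hinj _ _ _ h1
      simp at this
    · intro h1
      have := hinj _ _ _ h1
      simp at this

end Pool.Agent.H.MP_4bcbbd_co.C
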