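import Pool.Agent.H.MP_4bcbbd_co.C.Cfg

/-!
MP_4bcbbd_co, edges in all dimensions: a tangent configuration with seven points in dimension five.
-/

set_option autoImplicit false

namespace Pool.Agent.H.MP_4bcbbd_co.C

open scoped BigOperators

/-- the points. -/
def P7 : Fin 7 → Fin 5 → ℤ :=
  ![![80, 0, 0, 0, 0],
    ![0, 0, 80, 0, 0],
    ![0, 0, 0, 0, 80],
    ![-71, 79, 3, 238, -5],
    ![2, 92, 22, -88, 60],
    ![69, -41, -49, -289, -54],
    ![-7, -90, -77, 11, 7]]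

/-- the directions. -/
def U7 : Fin 7 → Fin 5 → ℤ :=
  ![![0, 1, 0, 0, 0],
    ![0, 0, 0, 1, 0],
    ![-53, -10, 51, 30, 1],
    ![-7, -40, -38, -47, -33],
    ![-47, 5, 34, 54, 13],
    ![-54, 37, 41, -4, -20],
    ![34, -27, -10, -66, -11]]

/-- the functionals, with the common value as the last entry. -/
def T7 : Fin 7 → Fin 7 → Bool → Fin 6 → ℤ := fun a b s =>
  (![![![![0, 0, 0, 0, 0, 0], ![0, 0, 0, 0, 0, 0]],
    ![![3, 0, 3, 0, 2, 240],
      ![4, 0, -4, 0, 3, 320]],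
    ![![102, 0, 94, 17, 102, 8160],
      ![51, 0, 44, 17, -51, 4080]],
    ![![8903, 0, -8763, 5759, 0, 712240],
      ![17806, 0, -10575, -353, 8903, 1424480]],
    ![![2310, 0, 2306, 29, 2200, 184800],
      ![22990, 0, 20314, 12251, -20900, 1839200]],
    ![![180675, 0, 155534, -1739, -168630, 14454000],
      ![96360, 0, 90668, 50062, -84315, 7708800]],
    ![![7788, 0, -7711, 4315, 5192, 623040],
      ![31152, 0, 29447, 15913, -25960, 2492160]]],
  ![![![0, 0, 0, 0, 0, 0], ![0, 0, 0, 0, 0, 0]],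
    ![![0, 0, 0, 0, 0, 0], ![0, 0, 0, 0, 0, 0]],
    ![![634, -53, 636, 0, 636, 50880],
      ![310, -53, 318, 0, -318, 25440]],
    ![![-81407, 1268, 81432, 0, -78039, 6514560],
      ![106, -1093, 1131, 0, 0, 90480]],
    ![![21122, 483, 21670, 0, 19503, 1733600],
      ![3892, -5455, 8668, 0, -6501, 693440]],
    ![![4958, -900, 4972, 0, -4859, 397760],
      ![-2948, -6987, 4407, 0, 4068, 352560]],
    ![![-14139, -31643, 19494, 0, 16245, 1559520],
      ![981, 32, 3249, 0, 0, 259920]]],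
  ![![![0, 0, 0, 0, 0, 0], ![0, 0, 0, 0, 0, 0]],
    ![![0, 0, 0, 0, 0, 0], ![0, 0, 0, 0, 0, 0]],
    ![![0, 0, 0, 0, 0, 0], ![0, 0, 0, 0, 0, 0]],
    ![![-10574597, 3345682, -10333271, -352979, 10589370, 847149600],
      ![-320342, -222614, -189683, -352979, 1058937, 84714960]],
    ![![6691, -519, 6993, -515, 8240, 659200],
      ![603811, -779479, 314193, 252350, 612850, 49028000]],
    ![![-257834, -34709, -194327, -145476, 262665, 21013200],
      ![-8234, 3517, -8105, 0, 12123, 969840]],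
    ![![-7947, -22337, -13472, 0, 42511, 3400880],
      ![3357367, 393295, 3198550, 510132, 3443391, 275471280]]],
  ![![![0, 0, 0, 0, 0, 0], ![0, 0, 0, 0, 0, 0]],
    ![![0, 0, 0, 0, 0, 0], ![0, 0, 0, 0, 0, 0]],
    ![![0, 0, 0, 0, 0, 0], ![0, 0, 0, 0, 0, 0]],
    ![![0, 0, 0, 0, 0, 0], ![0, 0, 0, 0, 0, 0]],
    ![![-412093, 675835, -517396, -95483, 0, 58372426],
      ![18293568, -5726733, -4679392, 26425027, -29186213, 4669794080]],
    ![![305091594, 714335047, -446662159, 1344566, -418153806, 35841754800],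
      ![-178290, -329, -214951, 200624, 0, 59736258]],
    ![![126944736, -4132501, -131910560, 85769035, 7822531, 10638642160],
      ![60193264, 142890071, -86837560, 52135, -86047841, 7196728520]]],
  ![![![0, 0, 0, 0, 0, 0], ![0, 0, 0, 0, 0, 0]],
    ![![0, 0, 0, 0, 0, 0], ![0, 0, 0, 0, 0, 0]],
    ![![0, 0, 0, 0, 0, 0], ![0, 0, 0, 0, 0, 0]],
    ![![0, 0, 0, 0, 0, 0], ![0, 0, 0, 0, 0, 0]],
    ![![0, 0, 0, 0, 0, 0], ![0, 0, 0, 0, 0, 0]],
    ![![-234455, -16245, -182029, -150521, 259920, 22872960],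
      ![280895, 579405, -12827, 136337, 259920, 57182400]],
    ![![-132743808, -3241715, -120595276, -70113311, 127969829, 10631339640],
      ![8204, 130972, 92795, -63413, 0, 19687666]]],
  ![![![0, 0, 0, 0, 0, 0], ![0, 0, 0, 0, 0, 0]],
    ![![0, 0, 0, 0, 0, 0], ![0, 0, 0, 0, 0, 0]],
    ![![0, 0, 0, 0, 0, 0], ![0, 0, 0, 0, 0, 0]],
    ![![0, 0, 0, 0, 0, 0], ![0, 0, 0, 0, 0, 0]],
    ![![0, 0, 0, 0, 0, 0], ![0, 0, 0, 0, 0, 0]],
    ![![0, 0, 0, 0, 0, 0], ![0, 0, 0, 0, 0, 0]],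
    ![![-2841008, 69487, -2871215, -1423266, 2197935, 234446400],
      ![588496, 1406491, -853595, -20778, -732645, 70333920]]],
  ![![![0, 0, 0, 0, 0, 0], ![0, 0, 0, 0, 0, 0]],
    ![![0, 0, 0, 0, 0, 0], ![0, 0, 0, 0, 0, 0]],
    ![![0, 0, 0, 0, 0, 0], ![0, 0, 0, 0, 0, 0]],
    ![![0, 0, 0, 0, 0, 0], ![0, 0, 0, 0, 0, 0]],
    ![![0, 0, 0, 0, 0, 0], ![0, 0, 0, 0, 0, 0]],
    ![![0, 0, 0, 0, 0, 0], ![0, 0, 0, 0, 0, 0]],
    ![![0, 0, 0, 0, 0, 0], ![0, 0, 0, 0, 0, 0]]]] : Fin 7 → Fin 7 → Fin 2 → Fin 6 → ℤ) a b (bif s then 0 else 1)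

/-- the value of the functional. -/
def dot7 (L : Fin 6 → ℤ) (x : Fin 5 → ℤ) : ℤ :=
  L 0 * x 0 + L 1 * x 1 + L 2 * x 2 + L 3 * x 3 + L 4 * x 4

/-- the conditions of a pair. -/
def ok7 (a b : Fin 7) (s : Bool) : Prop :=
  0 < T7 a b s 5 ∧ dot7 (T7 a b s) (P7 a) = T7 a b s 5 ∧ dot7 (T7 a b s) (U7 a) = 0 ∧
  dot7 (T7 a b s) (P7 b) = (bif s then 1 else -1) * T7 a b s 5 ∧ dot7 (T7 a b s) (U7 b) = 0 ∧
  ∀ c : Fin 7, c ≠ a → c ≠ b → |dot7 (T7 a b s) (P7 c)| < T7 a b s 5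

instance (a b : Fin 7) (s : Bool) : Decidable (ok7 a b s) := by
  unfold ok7
  infer_instance

theorem ok7_all : ∀ a b : Fin 7, a < b → ∀ s : Bool, ok7 a b s := by
  decide +kernel

theorem indep7 : ∀ a b : Fin 7, a < b → ∃ i j : Fin 5,
    U7 a i * U7 b j - U7 a j * U7 b i ≠ 0 := by
  decide +kernel

/-- the point as a real vector. -/
noncomputable def vec7 (x : Fin 5 → ℤ) : E 5 := WithLp.toLp 2 fun i => (x i : ℝ)

/-- the functional as a real functional. -/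
noncomputable def fun7 (L : Fin 6 → ℤ) : E 5 →L[ℝ] ℝ :=
  ((L 5 : ℝ)⁻¹) • ∑ i : Fin 5, (L i.castSucc : ℝ) • EuclideanSpace.proj (𝕜 := ℝ) i

lemma fun7_apply (L : Fin 6 → ℤ) (x : Fin 5 → ℤ) :
    fun7 L (vec7 x) = ((L 5 : ℝ)⁻¹) * (dot7 L x : ℝ) := by
  unfold fun7 vec7 dot7
  rw [ContinuousLinearMap.smul_apply, ContinuousLinearMap.sum_apply, smul_eq_mul]
  congr 1
  have h : ∀ i : Fin 5, ((L i.castSucc : ℝ) • EuclideanSpace.proj (𝕜 := ℝ) i : E 5 →L[ℝ] ℝ)
      (WithLp.toLp 2 fun i => (x i : ℝ)) = (L i.castSucc : ℝ) * (x i : ℝ) := fun i => rfl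
  rw [Finset.sum_congr rfl fun i _ => h i, Fin.sum_univ_five]
  push_cast
  rfl

/-- a tangent configuration of seven points in dimension five. -/
theorem tangent_seven : ∃ p u : Fin 7 → E 5, Tangent p u := by
  refine ⟨fun a => vec7 (P7 a), fun a => vec7 (U7 a), ?_⟩
  have hlt : ∀ a b : Fin 7, a < b → LinearIndependent ℝ ![vec7 (U7 a), vec7 (U7 b)] := by
    intro a b hab
    obtain ⟨i, j, hij⟩ := indep7 a b hab
    rw [LinearIndependent.pair_iff]
    intro s t hst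
    have e1 := congrArg (EuclideanSpace.proj (𝕜 := ℝ) i) hst
    have e2 := congrArg (EuclideanSpace.proj (𝕜 := ℝ) j) hst
    have e1' : s * (U7 a i : ℝ) + t * (U7 b i : ℝ) = 0 := by
      simpa [vec7] using e1
    have e2' : s * (U7 a j : ℝ) + t * (U7 b j : ℝ) = 0 := by
      simpa [vec7] using e2
    have hD : ((U7 a i : ℝ) * (U7 b j : ℝ) - (U7 a j : ℝ) * (U7 b i : ℝ)) ≠ 0 := by
      exact_mod_cast hij
    have hs : s * ((U7 a i : ℝ) * (U7 b j : ℝ) - (U7 a j : ℝ) * (U7 b i : ℝ)) = 0 := by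
      linear_combination (U7 b j : ℝ) * e1' - (U7 b i : ℝ) * e2'
    have ht : t * ((U7 a i : ℝ) * (U7 b j : ℝ) - (U7 a j : ℝ) * (U7 b i : ℝ)) = 0 := by
      linear_combination (U7 a i : ℝ) * e2' - (U7 a j : ℝ) * e1'
    exact ⟨(mul_eq_zero.1 hs).resolve_right hD, (mul_eq_zero.1 ht).resolve_right hD⟩
  have hfun : ∀ a b : Fin 7, a < b → ∀ s : Bool, ∃ l : E 5 →L[ℝ] ℝ,
      l (vec7 (P7 a)) = 1 ∧ l (vec7 (U7 a)) = 0 ∧ l (vec7 (P7 b)) = bs s ∧
      l (vec7 (U7 b)) = 0 ∧ ∀ c, c ≠ a → c ≠ b → |l (vec7 (P7 c))| < 1 := by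
    intro a b hab s
    obtain ⟨h0, h1, h2, h3, h4, h5⟩ := ok7_all a b hab s
    have hN : (0 : ℝ) < (T7 a b s 5 : ℝ) := by exact_mod_cast h0
    refine ⟨fun7 (T7 a b s), ?_, ?_, ?_, ?_, ?_⟩
    · rw [fun7_apply, h1, inv_mul_cancel₀ hN.ne']
    · rw [fun7_apply, h2, Int.cast_zero, mul_zero]
    · rw [fun7_apply, h3]
      cases s
      · simp only [cond_false, bs_false]
        push_cast
        field_simp
      · simp only [cond_true, bs_true]
        push_cast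
        field_simp
    · rw [fun7_apply, h4, Int.cast_zero, mul_zero]
    · intro c hca hcb
      rw [fun7_apply, abs_mul, abs_of_pos (inv_pos.2 hN), inv_mul_lt_iff₀ hN, mul_one]
      exact_mod_cast h5 c hca hcb
  intro a b hab
  rcases lt_or_gt_of_ne hab with h | h
  · refine ⟨hlt a b h, fun ε hε => ?_⟩
    obtain ⟨s, rfl⟩ : ∃ s : Bool, ε = bs s := by
      rcases hε with h1 | h1
      · exact ⟨true, h1⟩
      · exact ⟨false, h1⟩
    exact hfun a b h s
  · refine ⟨?_, fun ε hε => ?_⟩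
    · have h1 := hlt b a h
      rw [LinearIndependent.pair_iff] at h1 ⊢
      intro s t hst
      have h2 := h1 t s (by rw [add_comm]; exact hst)
      exact ⟨h2.2, h2.1⟩
    · obtain ⟨s, rfl⟩ : ∃ s : Bool, ε = bs s := by
        rcases hε with h1 | h1
        · exact ⟨true, h1⟩
        · exact ⟨false, h1⟩
      obtain ⟨l, l1, l2, l3, l4, l5⟩ := hfun b a h s
      refine ⟨bs s • l, ?_, ?_, ?_, ?_, ?_⟩
      · rw [ContinuousLinearMap.smul_apply, l3, smul_eq_mul, bs_mul_self]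
      · rw [ContinuousLinearMap.smul_apply, l4, smul_zero]
      · rw [ContinuousLinearMap.smul_apply, l1, smul_eq_mul, mul_one]
      · rw [ContinuousLinearMap.smul_apply, l2, smul_zero]
      · intro c hca hcb
        rw [ContinuousLinearMap.smul_apply, smul_eq_mul, abs_mul, abs_bs, one_mul]
        exact l5 c hcb hca

end Pool.Agent.H.MP_4bcbbd_co.C
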