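import Pool.Agent.H.MP_4bcbbd_co.X.Top
import Pool.Agent.H.MP_4bcbbd_co.LP

/-!
MP_4bcbbd_co, edges in all dimensions: the Dehn-Sommerville relations in dimension five.
-/

set_option autoImplicit false

namespace Pool.Agent.H.MP_4bcbbd_co.C

open scoped BigOperators

/-- PROOF. `z` from `exists_generic V`. Write `g i = X.gnum V z i`; `X.fc_eq_sum_gnum` (`Finset.sum_range_succ`) and
`X.gnum_symm` (`g 5 = g 0`, `g 4 = g 1`, `g 3 = g 2`). `fc V 0 = {∅}` has one element (`Spt V ∅` by the functional `0`): `g 5 = 1`. `fc V 1` has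
`V.card` elements (singletons, `hV.vert`): `g 4 + 5 = V.card`. Then `f₁ = g 3 + 4 g 4 + 10`, `f₂ = g 2 + 3 g 3 + 6 g 4 + 10`, `f₃ = g 1 + 2 g 2 + 3 g 3 + 4 g 4 + 5`,
`f₄ = ∑ g i`; eliminate. -/
theorem ds_five {V : Finset (E 5)} (hV : CSData V) (hS : Simp V) {n : ℕ} (hn : V.card = 2 * n) :
    (fc V 3).card + 20 * n = 4 * (fc V 2).card + 20 ∧
    (fc V 4).card + 30 * n = 5 * (fc V 2).card + 30 ∧
    (fc V 5).card + 12 * n = 2 * (fc V 2).card + 12 := by
  classical
  obtain ⟨z, hz⟩ := exists_generic V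
  have s5 := X.gnum_symm hV hS hz (i := 5) le_rfl
  have s4 := X.gnum_symm hV hS hz (i := 4) (by norm_num)
  have s3 := X.gnum_symm hV hS hz (i := 3) (by norm_num)
  have f0 := X.fc_eq_sum_gnum hV hS hz (j := 0) (by norm_num)
  have f1 := X.fc_eq_sum_gnum hV hS hz (j := 1) (by norm_num)
  have f2 := X.fc_eq_sum_gnum hV hS hz (j := 2) (by norm_num)
  have f3 := X.fc_eq_sum_gnum hV hS hz (j := 3) (by norm_num)
  have f4 := X.fc_eq_sum_gnum hV hS hz (j := 4) (by norm_num)
  have f5 := X.fc_eq_sum_gnum hV hS hz (j := 5) (by norm_num)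
  have h0 : (fc V 0).card = 1 := by
    have h1 : fc V 0 = {∅} := by
      ext W
      rw [mem_fc, Finset.mem_singleton]
      constructor
      · rintro ⟨-, h2, -⟩
        exact Finset.card_eq_zero.1 h2
      · rintro rfl
        refine ⟨Finset.empty_subset _, Finset.card_empty, 0, fun w hw => ?_, fun v _ _ => ?_⟩
        · exact absurd hw (Finset.notMem_empty _)
        · simp
    rw [h1, Finset.card_singleton]
  have h1 : (fc V 1).card = 2 * n := by
    rw [← hn]
    have h2 : fc V 1 = V.map ⟨fun v => {v}, fun a b h => Finset.singleton_injective h⟩ := by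
      ext W
      rw [mem_fc, Finset.mem_map]
      constructor
      · rintro ⟨h3, h4, -⟩
        obtain ⟨v, rfl⟩ := Finset.card_eq_one.1 h4
        exact ⟨v, h3 (Finset.mem_singleton_self v), rfl⟩
      · rintro ⟨v, hv, rfl⟩
        refine ⟨?_, Finset.card_singleton v, hV.vert v hv⟩
        intro w hw
        have : w = v := Finset.mem_singleton.1 hw
        rw [this]
        exact hv
    rw [h2, Finset.card_map]
  rw [h0] at f0
  rw [h1] at f1
  simp only [Finset.sum_range_succ, Finset.sum_range_zero] at f0 f1 f2 f3 f4 f5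
  norm_num [Nat.choose] at f0 f1 f2 f3 f4 f5 s5 s4 s3
  omega

end Pool.Agent.H.MP_4bcbbd_co.C
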