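import Pool.Agent.H.MP_4bcbbd_co.FaceNum
import Pool.Agent.H.MP_4bcbbd_co.PolyB

/-!
MP_4bcbbd_co, edges in all dimensions: the maximal face numbers in terms of the combinatorial data.
-/

set_option autoImplicit false

namespace Pool.Agent.H.MP_4bcbbd_co.C

/-- the set of the values of the face number in terms of the combinatorial data -/
def maxSet (i d n : ℕ) : Set ℕ :=
  {m | ∃ V : Finset (E d), CSData V ∧ Simp V ∧ V.card = 2 * n ∧ m = (fc V (i + 1)).card}

theorem maxFaces_eq_sSup {d : ℕ} (hd : 0 < d) (i n : ℕ) :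
    maxFaces i d n = sSup (maxSet i d n) := by
  unfold maxFaces
  congr 1
  ext m
  constructor
  · rintro ⟨P, hP, hs, hS, hc, hm⟩
    obtain ⟨V, hV, rfl⟩ := exists_data hd hP hs
    have hS' : Simp V := (simp_iff hd hV).1 hS
    refine ⟨V, hV, hS', ?_, ?_⟩
    · rw [extremePoints_of_data hV, Set.ncard_coe_finset] at hc
      exact hc
    · rw [hm, faceNum_eq hd hV hS']
  · rintro ⟨V, hV, hS, hc, hm⟩
    obtain ⟨h1, h2⟩ := isPolytope_of_data hd hV
    refine ⟨convexHull ℝ (V : Set (E d)), h1, h2, (simp_iff hd hV).2 hS, ?_, ?_⟩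
    · rw [extremePoints_of_data hV, Set.ncard_coe_finset]
      exact hc
    · rw [hm, faceNum_eq hd hV hS]

theorem maxSet_bdd (i d n : ℕ) : BddAbove (maxSet i d n) := by
  refine ⟨(2 * n).choose (i + 1), ?_⟩
  rintro m ⟨V, -, -, hc, rfl⟩
  rw [← hc, ← Finset.card_powersetCard]
  apply Finset.card_le_card
  intro W hW
  rw [mem_fc] at hW
  exact Finset.mem_powersetCard.2 ⟨hW.1, hW.2.1⟩

theorem fc_le_maxFaces {d : ℕ} (hd : 0 < d) {i n : ℕ} {V : Finset (E d)} (hV : CSData V)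
    (hS : Simp V) (hc : V.card = 2 * n) : (fc V (i + 1)).card ≤ maxFaces i d n := by
  rw [maxFaces_eq_sSup hd]
  exact le_csSup (maxSet_bdd i d n) ⟨V, hV, hS, hc, rfl⟩

theorem maxFaces_attained {d : ℕ} (hd : 0 < d) (i : ℕ) {n : ℕ}
    (hex : ∃ V : Finset (E d), CSData V ∧ Simp V ∧ V.card = 2 * n) :
    ∃ V : Finset (E d), CSData V ∧ Simp V ∧ V.card = 2 * n ∧
      maxFaces i d n = (fc V (i + 1)).card := by
  rw [maxFaces_eq_sSup hd]
  have hne : (maxSet i d n).Nonempty := by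
    obtain ⟨V, hV, hS, hc⟩ := hex
    exact ⟨_, V, hV, hS, hc, rfl⟩
  exact Nat.sSup_mem hne (maxSet_bdd i d n)

end Pool.Agent.H.MP_4bcbbd_co.C
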