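import Pool.Agent.H.MP_4bcbbd_co.C.Cfg

/-!
MP_4bcbbd_co, edges in all dimensions: the tangent configuration of the cross polytope.
-/

set_option autoImplicit false

namespace Pool.Agent.H.MP_4bcbbd_co.C

open scoped BigOperators

/-- PROOF: `p a = EuclideanSpace.single ⟨2 a, _⟩ 1`, `u a = EuclideanSpace.single ⟨2 a + 1, _⟩ 1`,
`l z = z ⟨2 a, _⟩ + ε * z ⟨2 b, _⟩`. -/
theorem tangent_cross (d : ℕ) : ∃ p u : Fin (d / 2) → E d, Tangent p u := by
  classical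
  have h0 : ∀ a : Fin (d / 2), 2 * (a : ℕ) < d := fun a => by
    have := a.2
    omega
  have h1 : ∀ a : Fin (d / 2), 2 * (a : ℕ) + 1 < d := fun a => by
    have := a.2
    omega
  refine ⟨fun a => EuclideanSpace.single ⟨2 * (a : ℕ), h0 a⟩ (1 : ℝ),
    fun a => EuclideanSpace.single ⟨2 * (a : ℕ) + 1, h1 a⟩ (1 : ℝ), ?_⟩
  intro a b hab
  have hab' : (a : ℕ) ≠ (b : ℕ) := fun h => hab (Fin.ext h)
  constructor
  · rw [LinearIndependent.pair_iff]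
    intro s t hst
    have e1 := congrArg (EuclideanSpace.proj (𝕜 := ℝ) (⟨2 * (a : ℕ) + 1, h1 a⟩ : Fin d)) hst
    have e2 := congrArg (EuclideanSpace.proj (𝕜 := ℝ) (⟨2 * (b : ℕ) + 1, h1 b⟩ : Fin d)) hst
    have n1 : (⟨2 * (a : ℕ) + 1, h1 a⟩ : Fin d) ≠ ⟨2 * (b : ℕ) + 1, h1 b⟩ := by
      intro h
      have := Fin.mk.inj h
      omega
    constructor
    · simpa [n1] using e1
    · simpa [n1.symm] using e2
  · intro ε hε
    have n1 : (⟨2 * (a : ℕ), h0 a⟩ : Fin d) ≠ ⟨2 * (b : ℕ), h0 b⟩ := by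
      intro h
      have := Fin.mk.inj h
      omega
    have n2 : ∀ c c' : Fin (d / 2), (⟨2 * (c : ℕ), h0 c⟩ : Fin d) ≠
        ⟨2 * (c' : ℕ) + 1, h1 c'⟩ := by
      intro c c' h
      have := Fin.mk.inj h
      omega
    refine ⟨EuclideanSpace.proj (𝕜 := ℝ) (⟨2 * (a : ℕ), h0 a⟩ : Fin d) +
      ε • EuclideanSpace.proj (𝕜 := ℝ) (⟨2 * (b : ℕ), h0 b⟩ : Fin d), ?_, ?_, ?_, ?_, ?_⟩
    · simp [n1.symm]
    · simp [n2]
    · simp [n1]
    · simp [n2]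
    · intro c hca hcb
      have n3 : (⟨2 * (a : ℕ), h0 a⟩ : Fin d) ≠ ⟨2 * (c : ℕ), h0 c⟩ := by
        intro h
        have := Fin.mk.inj h
        exact hca (Fin.ext (by omega))
      have n4 : (⟨2 * (b : ℕ), h0 b⟩ : Fin d) ≠ ⟨2 * (c : ℕ), h0 c⟩ := by
        intro h
        have := Fin.mk.inj h
        exact hcb (Fin.ext (by omega))
      simp [n3, n4]

end Pool.Agent.H.MP_4bcbbd_co.C
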