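import Pool.Agent.H.MP_4bcbbd_co.C.FromFull
import Pool.Agent.H.MP_4bcbbd_co.C.ESr
import Pool.Agent.H.MP_4bcbbd_co.Count

/-!
MP_4bcbbd_co, edges in all dimensions: the upper bound.
-/

set_option autoImplicit false

namespace Pool.Agent.H.MP_4bcbbd_co.C

theorem upper_r {d k : ℕ} (hd : 4 ≤ d) (hk : 1 ≤ k)
    (hno : ¬ ∃ p u : Fin (k + 1) → E d, Tangent p u) (ε : ℝ) (hε : 0 < ε) :
    ∃ C : ℝ, ∀ (n : ℕ) (V : Finset (E d)), CSData V → V.card = 2 * n →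
      ((fc V 2).card : ℝ) ≤ (2 - 1 / (k : ℝ) + ε) * (n : ℝ) ^ 2 + C := by
  classical
  obtain ⟨t, ht⟩ := noK_r hd (Nat.le_add_left 1 k) hno
  obtain ⟨C, hC⟩ := es_edges_r k t hk (ε / 2) (half_pos hε)
  refine ⟨2 * C, fun n V hV hn => ?_⟩
  obtain ⟨r, hr⟩ := exists_reps V hV n hn
  have h1 := count_edges V hV r hr
  have h2 : ¬ (SimpleGraph.completeEquipartiteGraph (k + 1) t).IsContained
      (fullGraph V hV r hr) := by
    rintro ⟨f⟩
    refine ht V hV (fun i x => r (f (i, x))) (fun i x => hr.mem _) ?_ ?_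
    · intro i x j y hne
      exact ⟨hr.inj _ _ fun h => hne (f.injective h), hr.anti _ _⟩
    · intro i x j y hij
      have h3 : (SimpleGraph.completeEquipartiteGraph (k + 1) t).Adj (i, x) (j, y) := by
        rw [SimpleGraph.completeEquipartiteGraph_adj]
        exact hij
      exact (f.toHom.map_adj h3).2
  have h3 := hC n (fullGraph V hV r hr) h2
  have h4 : ((fc V 2).card : ℝ) ≤ (n : ℝ) * (n - 1 : ℕ) +
      2 * ((fullGraph V hV r hr).edgeFinset.card : ℝ) := by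
    have h5 : ((fc V 2).card : ℝ) ≤
        ((n * (n - 1) + 2 * (fullGraph V hV r hr).edgeFinset.card : ℕ) : ℝ) := by
      refine Nat.cast_le.2 (h1.trans (le_of_eq ?_))
      exact congrArg (fun k => n * (n - 1) + 2 * k) (count_inst _ _ _)
    refine h5.trans (le_of_eq ?_)
    push_cast
    ring
  have h6 : (n : ℝ) * (n - 1 : ℕ) ≤ (n : ℝ) ^ 2 := by
    have h7 : ((n - 1 : ℕ) : ℝ) ≤ (n : ℝ) := Nat.cast_le.2 (Nat.sub_le n 1)
    have h8 : (0 : ℝ) ≤ n := Nat.cast_nonneg n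
    nlinarith
  have h7 : (2 - 1 / (k : ℝ) + ε) * (n : ℝ) ^ 2 + 2 * C =
      (n : ℝ) ^ 2 + 2 * (((1 - 1 / (k : ℝ)) / 2 + ε / 2) * (n : ℝ) ^ 2 + C) := by ring
  rw [h7]
  linarith

end Pool.Agent.H.MP_4bcbbd_co.C
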