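import Pool.Agent.H.MP_4bcbbd_co.C.LowerR
import Pool.Agent.H.MP_4bcbbd_co.C.UpperR
import Pool.Agent.H.MP_4bcbbd_co.C.Bound
import Pool.Agent.H.MP_4bcbbd_co.C.TanCross
import Pool.Agent.H.MP_4bcbbd_co.C.MaxR
import Pool.Agent.H.MP_4bcbbd_co.C.Five

/-!
MP_4bcbbd_co, edges in all dimensions: the limit of the edge density.
-/

set_option autoImplicit false

namespace Pool.Agent.H.MP_4bcbbd_co.C

open Filter Topology

theorem tangent_le {d k : ℕ} (h : ∃ p u : Fin k → E d, Tangent p u) : k ≤ 2 ^ (d - 1) := by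
  obtain ⟨p, u, h⟩ := h
  by_cases hk : 2 ≤ k
  · exact tangent_bound hk h
  · have h1 : 1 ≤ 2 ^ (d - 1) := Nat.one_le_two_pow
    omega

theorem cluster_bdd (d : ℕ) : BddAbove {k : ℕ | ∃ p u : Fin k → E d, Tangent p u} :=
  ⟨2 ^ (d - 1), fun _ h => tangent_le h⟩

theorem cluster_attained (d : ℕ) : ∃ p u : Fin (clusterNumber d) → E d, Tangent p u := by
  have hne : {k : ℕ | ∃ p u : Fin k → E d, Tangent p u}.Nonempty := ⟨d / 2, tangent_cross d⟩
  exact Nat.sSup_mem hne (cluster_bdd d)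

theorem le_cluster {d k : ℕ} (h : ∃ p u : Fin k → E d, Tangent p u) : k ≤ clusterNumber d :=
  le_csSup (cluster_bdd d) h

theorem cluster_le (d : ℕ) : clusterNumber d ≤ 2 ^ (d - 1) := tangent_le (cluster_attained d)

theorem cluster_ge (d : ℕ) : d / 2 ≤ clusterNumber d := le_cluster (tangent_cross d)

theorem cluster_no (d : ℕ) : ¬ ∃ p u : Fin (clusterNumber d + 1) → E d, Tangent p u := by
  intro h
  have := le_cluster h
  omega

theorem exists_max {d : ℕ} (hd : 4 ≤ d) {n : ℕ} (hn : d ≤ n) :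
    ∃ V : Finset (E d), CSData V ∧ Simp V ∧ V.card = 2 * n := by
  have hk : 2 ≤ clusterNumber d := le_trans (by omega) (cluster_ge d)
  obtain ⟨p, u, h⟩ := cluster_attained d
  obtain ⟨V, h1, h2, h3, -⟩ := lower_r hd hk h hn
  exact ⟨V, h1, h2, h3⟩

theorem maxFaces_ge {d : ℕ} (hd : 4 ≤ d) {n : ℕ} (hn : d ≤ n) :
    (2 - 1 / (clusterNumber d : ℝ)) * (n : ℝ) ^ 2 - 2 * n ≤ (maxFaces 1 d n : ℝ) := by
  have hk : 2 ≤ clusterNumber d := le_trans (by omega) (cluster_ge d)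
  obtain ⟨p, u, h⟩ := cluster_attained d
  obtain ⟨V, h1, h2, h3, h4⟩ := lower_r hd hk h hn
  refine h4.trans ?_
  exact_mod_cast fc_le_maxFaces (by omega) (i := 1) h1 h2 h3

theorem maxFaces_le' {d : ℕ} (hd : 4 ≤ d) (ε : ℝ) (hε : 0 < ε) : ∃ C : ℝ, ∀ n : ℕ, d ≤ n →
    (maxFaces 1 d n : ℝ) ≤ (2 - 1 / (clusterNumber d : ℝ) + ε) * (n : ℝ) ^ 2 + C := by
  have hk : 2 ≤ clusterNumber d := le_trans (by omega) (cluster_ge d)
  obtain ⟨C, hC⟩ := upper_r hd (by omega) (cluster_no d) ε hε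
  refine ⟨C, fun n hn => ?_⟩
  obtain ⟨V, hV, hS, hc, h⟩ := maxFaces_attained (by omega) 1 (exists_max hd hn)
  rw [h]
  exact hC n V hV hc

theorem limit_edges {d : ℕ} (hd : 4 ≤ d) :
    Tendsto (fun n : ℕ => (maxFaces 1 d n : ℝ) / (n : ℝ) ^ 2) atTop
      (𝓝 (2 - 1 / (clusterNumber d : ℝ))) := by
  obtain ⟨L, hL⟩ : ∃ L : ℝ, L = 2 - 1 / (clusterNumber d : ℝ) := ⟨_, rfl⟩
  rw [← hL, tendsto_order]
  have hsq : Tendsto (fun n : ℕ => (n : ℝ)) atTop atTop := tendsto_natCast_atTop_atTop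
  constructor
  · intro a ha
    have h1 : Tendsto (fun n : ℕ => (L - a) * (n : ℝ)) atTop atTop :=
      hsq.const_mul_atTop (by linarith)
    filter_upwards [h1.eventually_gt_atTop 2, eventually_ge_atTop d] with n hn hn4
    have hn0 : (4 : ℝ) ≤ n := by exact_mod_cast hd.trans hn4
    have h2 := maxFaces_ge hd hn4
    rw [← hL] at h2
    rw [lt_div_iff₀ (by positivity)]
    nlinarith
  · intro a ha
    obtain ⟨C, hC⟩ := maxFaces_le' hd ((a - L) / 2) (by linarith)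
    have h1 : Tendsto (fun n : ℕ => ((a - L) / 2) * (n : ℝ)) atTop atTop :=
      hsq.const_mul_atTop (by linarith)
    filter_upwards [h1.eventually_gt_atTop |C|, eventually_ge_atTop d] with n hn hn4
    have hn0 : (4 : ℝ) ≤ n := by exact_mod_cast hd.trans hn4
    have h2 := hC n hn4
    rw [← hL] at h2
    rw [div_lt_iff₀ (by positivity)]
    have h3 : C ≤ |C| := le_abs_self C
    have h4 : (0 : ℝ) ≤ |C| := abs_nonneg C
    have h5 : |C| * 1 ≤ |C| * n := mul_le_mul_of_nonneg_left (by linarith) h4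
    have h6 : |C| * n < ((a - L) / 2 * n) * n := mul_lt_mul_of_pos_right hn (by linarith)
    nlinarith

theorem ds_max {n : ℕ} (hn : 5 ≤ n) :
    maxFaces 2 5 n + 20 * n = 4 * maxFaces 1 5 n + 20 ∧
    maxFaces 3 5 n + 30 * n = 5 * maxFaces 1 5 n + 30 ∧
    maxFaces 4 5 n + 12 * n = 2 * maxFaces 1 5 n + 12 := by
  have hex := exists_max (d := 5) (by norm_num) hn
  obtain ⟨V1, hV1, hS1, hc1, h1⟩ := maxFaces_attained (by norm_num) 1 hex
  obtain ⟨V2, hV2, hS2, hc2, h2⟩ := maxFaces_attained (by norm_num) 2 hex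
  obtain ⟨V3, hV3, hS3, hc3, h3⟩ := maxFaces_attained (by norm_num) 3 hex
  obtain ⟨V4, hV4, hS4, hc4, h4⟩ := maxFaces_attained (by norm_num) 4 hex
  obtain ⟨a1, a2, a3⟩ := ds_five hV1 hS1 hc1
  obtain ⟨b1, -, -⟩ := ds_five hV2 hS2 hc2
  obtain ⟨-, c2, -⟩ := ds_five hV3 hS3 hc3
  obtain ⟨-, -, d3⟩ := ds_five hV4 hS4 hc4
  have m1 := fc_le_maxFaces (by norm_num) (i := 2) hV1 hS1 hc1
  have m2 := fc_le_maxFaces (by norm_num) (i := 3) hV1 hS1 hc1
  have m3 := fc_le_maxFaces (by norm_num) (i := 4) hV1 hS1 hc1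
  have n1 := fc_le_maxFaces (by norm_num) (i := 1) hV2 hS2 hc2
  have n2 := fc_le_maxFaces (by norm_num) (i := 1) hV3 hS3 hc3
  have n3 := fc_le_maxFaces (by norm_num) (i := 1) hV4 hS4 hc4
  norm_num at m1 m2 m3 n1 n2 n3 h1 h2 h3 h4
  omega

theorem limit_five {i a b c : ℕ} (ha : ∀ n : ℕ, 5 ≤ n →
    maxFaces i 5 n + b * n = a * maxFaces 1 5 n + c) :
    Tendsto (fun n : ℕ => (maxFaces i 5 n : ℝ) / (n : ℝ) ^ 2) atTop
      (𝓝 (a * (2 - 1 / (clusterNumber 5 : ℝ)))) := by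
  have h0 : Tendsto (fun n : ℕ => (b : ℝ) * ((n : ℝ))⁻¹) atTop (𝓝 (b * 0)) :=
    tendsto_const_nhds.mul (tendsto_inv_atTop_zero.comp tendsto_natCast_atTop_atTop)
  have h1 : Tendsto (fun n : ℕ => (c : ℝ) * (((n : ℝ))⁻¹ * ((n : ℝ))⁻¹)) atTop
      (𝓝 (c * (0 * 0))) :=
    tendsto_const_nhds.mul ((tendsto_inv_atTop_zero.comp tendsto_natCast_atTop_atTop).mul
      (tendsto_inv_atTop_zero.comp tendsto_natCast_atTop_atTop))
  have h2 := (((limit_edges (d := 5) (by norm_num)).const_mul (a : ℝ)).sub h0).add h1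
  rw [mul_zero, mul_zero, mul_zero, sub_zero, add_zero] at h2
  refine h2.congr' ?_
  filter_upwards [eventually_ge_atTop 5] with n hn
  have hn0 : (n : ℝ) ≠ 0 := by
    have : (5 : ℝ) ≤ n := by exact_mod_cast hn
    linarith
  have h3 := ha n hn
  have h4 : (maxFaces i 5 n : ℝ) + b * n = a * (maxFaces 1 5 n : ℝ) + c := by exact_mod_cast h3
  have h5 : (maxFaces i 5 n : ℝ) = a * (maxFaces 1 5 n : ℝ) + c - b * n := by linarith
  rw [h5]
  field_simp
  ring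

end Pool.Agent.H.MP_4bcbbd_co.C
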