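import Pool.Agent.H.MP_4bcbbd_co.Main
import Pool.Agent.H.MP_4bcbbd_co.C.MainR
import Pool.Agent.H.MP_4bcbbd_co.C.K57
import Pool.Agent.H.MP_4bcbbd_co.C.Double
import Pool.Agent.H.MP_4bcbbd_co.C.Cube

/-!
MP_4bcbbd_co, edges in all dimensions: the bounds for the cluster number.
-/

set_option autoImplicit false

namespace Pool.Agent.H.MP_4bcbbd_co.C

open Filter Topology

theorem cluster_greatest (d : ℕ) :
    IsGreatest {k : ℕ | ∃ p u : Fin k → E d, Tangent p u} (clusterNumber d) :=
  ⟨cluster_attained d, fun _ h => le_cluster h⟩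

theorem cluster_four : clusterNumber 4 = 2 := by
  have h1 := limit_edges (d := 4) le_rfl
  have h2 := main.1
  have h3 := tendsto_nhds_unique h1 h2
  have h4 : 2 ≤ clusterNumber 4 := cluster_ge 4
  have h5 : (0 : ℝ) < (clusterNumber 4 : ℝ) := by
    have : (2 : ℝ) ≤ (clusterNumber 4 : ℝ) := by exact_mod_cast h4
    linarith
  have h6 : 1 / (clusterNumber 4 : ℝ) = 1 / 2 := by linarith
  rw [one_div, one_div, inv_inj] at h6
  exact_mod_cast h6

theorem cluster_double {d : ℕ} (hd : 4 ≤ d) : 2 * clusterNumber d ≤ clusterNumber (d + 2) := by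
  have hk : 2 ≤ clusterNumber d := le_trans (by omega) (cluster_ge d)
  exact le_cluster (tangent_double hk (cluster_attained d))

theorem cluster_mono (d : ℕ) : clusterNumber d ≤ clusterNumber (d + 1) :=
  le_cluster (tangent_mono (cluster_attained d))

theorem cluster_five : 7 ≤ clusterNumber 5 := le_cluster tangent_seven

theorem cluster_exp {d : ℕ} (hd : 3 ≤ d) : 2 ^ (d - 3) ≤ clusterNumber d := by
  obtain ⟨m, rfl⟩ : ∃ m, d = m + 3 := ⟨d - 3, by omega⟩
  rw [Nat.add_sub_cancel]
  exact le_cluster (tangent_cube m)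

end Pool.Agent.H.MP_4bcbbd_co.C
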