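import Pool.Agent.H.MP_4bcbbd_co.C.TwoOpen
import Pool.Agent.H.MP_4bcbbd_co.X.Gp
import Pool.Agent.H.MP_4bcbbd_co.X.GpEx

/-!
MP_4bcbbd_co, edges in all dimensions: full configurations in general position.
-/

set_option autoImplicit false

namespace Pool.Agent.H.MP_4bcbbd_co.C

open scoped BigOperators

/-- the two functionals of a full pair, for all signs. -/
theorem FullGp_two {d K t : ℕ} {V : Finset (E d)} (hV : CSData V) {r : Fin K → Fin t → E d}
    (hr : ∀ i s, r i s ∈ V)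
    (hne : ∀ i s j s', (i, s) ≠ (j, s') → r i s ≠ r j s' ∧ r i s ≠ -r j s')
    (hfull : ∀ i s j s', i ≠ j → Full V (r i s) (r j s')) (a c : Fin K) (s s' : Fin t)
    (hac : a ≠ c) (e : Bool) : ∃ l : E d →L[ℝ] ℝ, l (r a s) = 1 ∧ l (r c s') = bs e ∧
      ∀ q : Fin K × Fin t, q ≠ (a, s) → q ≠ (c, s') → |l (r q.1 q.2)| < 1 := by
  obtain ⟨-, -, hf1, hf2⟩ := hfull a s c s' hac
  cases e
  · obtain ⟨l, hl1, hl2, hl3⟩ := hf2
    refine ⟨l, hl1, hl2, fun q h1 h2 => ?_⟩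
    obtain ⟨n1, n2⟩ := hne q.1 q.2 a s h1
    obtain ⟨n3, n4⟩ := hne q.1 q.2 c s' h2
    have g1 := hl3 _ (hr q.1 q.2) n1 n4
    have g2 := hl3 _ (hV.neg _ (hr q.1 q.2))
      (fun h => n2 (by rw [← h, neg_neg])) (fun h => n3 (neg_injective h))
    rw [map_neg] at g2
    rw [abs_lt]
    constructor <;> linarith
  · obtain ⟨l, hl1, hl2, hl3⟩ := hf1
    refine ⟨l, hl1, hl2, fun q h1 h2 => ?_⟩
    obtain ⟨n1, n2⟩ := hne q.1 q.2 a s h1
    obtain ⟨n3, n4⟩ := hne q.1 q.2 c s' h2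
    have g1 := hl3 _ (hr q.1 q.2) n1 n3
    have g2 := hl3 _ (hV.neg _ (hr q.1 q.2))
      (fun h => n2 (by rw [← h, neg_neg])) (fun h => n4 (by rw [← h, neg_neg]))
    rw [map_neg] at g2
    rw [abs_lt]
    constructor <;> linarith

/-- Full configurations of points of a polytope can be put in general position.
PROOF. Index the points by `Fin (K * t)` (`finProdFinEquiv : Fin K × Fin t ≃ Fin (K * t)`), `X (i, s) = r i s`. For `a ≠ c` and
all `s, t'`, `e`: `Two X (a,s) (c,t') (bs e)` from `Full` as in `noK` (NoK.lean, proof of `hx`: a functional which is `< 1` at all the other points of `V`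
is `> -1` at them as `-v ∈ V`). The pair is linearly independent (the functionals for
`e = true` and `e = false`), so `two_open` gives `δ`; take the minimum, and `Y` from `X.exists_gp`. -/
theorem full_gp {d K t : ℕ} {V : Finset (E d)} (hV : CSData V) {r : Fin K → Fin t → E d}
    (hr : ∀ i s, r i s ∈ V)
    (hne : ∀ i s j s', (i, s) ≠ (j, s') → r i s ≠ r j s' ∧ r i s ≠ -r j s')
    (hfull : ∀ i s j s', i ≠ j → Full V (r i s) (r j s')) :
    ∃ y : Fin K × Fin t → E d, X.GP y ∧ ∀ (a c : Fin K) (s s' : Fin t), a ≠ c → ∀ e : Bool,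
      ∃ l : E d →L[ℝ] ℝ, l (y (a, s)) = 1 ∧ l (y (c, s')) = bs e ∧
        ∀ q, q ≠ (a, s) → q ≠ (c, s') → |l (y q)| < 1 := by
  classical
  obtain ⟨φ, hφ⟩ : ∃ φ : Fin K × Fin t ≃ Fin (K * t), φ = finProdFinEquiv := ⟨_, rfl⟩
  obtain ⟨x, hx⟩ : ∃ x : Fin (K * t) → E d, x = fun i => r (φ.symm i).1 (φ.symm i).2 := ⟨_, rfl⟩
  have hxq : ∀ q, x (φ q) = r q.1 q.2 := by
    intro q
    rw [hx]
    simp only [Equiv.symm_apply_apply]
  have htwo : ∀ (a c : Fin K) (s s' : Fin t), a ≠ c → ∀ e : Bool,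
      Two x (φ (a, s)) (φ (c, s')) (bs e) := by
    intro a c s s' hac e
    obtain ⟨l, l1, l2, l3⟩ := FullGp_two hV hr hne hfull a c s s' hac e
    refine ⟨l, by rw [hxq]; exact l1, by rw [hxq]; exact l2, fun m h1 h2 => ?_⟩
    obtain ⟨q, rfl⟩ := φ.surjective m
    rw [hxq]
    exact l3 q (fun h => h1 (by rw [h])) fun h => h2 (by rw [h])
  have hli : ∀ (a c : Fin K) (s s' : Fin t), a ≠ c →
      LinearIndependent ℝ ![x (φ (a, s)), x (φ (c, s'))] := by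
    intro a c s s' hac
    obtain ⟨l, l1, l2, -⟩ := htwo a c s s' hac true
    obtain ⟨m, m1, m2, -⟩ := htwo a c s s' hac false
    rw [bs_true] at l2
    rw [bs_false] at m2
    rw [LinearIndependent.pair_iff]
    intro α β h
    have e1 := congrArg l h
    have e2 := congrArg m h
    simp only [map_add, map_smul, smul_eq_mul, map_zero, l1, l2, m1, m2] at e1 e2
    constructor <;> linarith
  have hop : ∀ I : (Fin K × Fin K) × (Fin t × Fin t) × Bool, ∃ δ : ℝ, 0 < δ ∧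
      (I.1.1 ≠ I.1.2 → ∀ y : Fin (K * t) → E d, (∀ m, ‖y m - x m‖ < δ) →
        Two y (φ (I.1.1, I.2.1.1)) (φ (I.1.2, I.2.1.2)) (bs I.2.2)) := by
    rintro ⟨⟨a, c⟩, ⟨s, s'⟩, e⟩
    by_cases hac : a = c
    · exact ⟨1, one_pos, fun h => absurd hac h⟩
    · obtain ⟨δ, hδ, h⟩ := two_open (hli a c s s' hac) (htwo a c s s' hac e)
      exact ⟨δ, hδ, fun _ => h⟩
  choose δ hδ hδ2 using hop
  have hmin : ∃ δ₀ : ℝ, 0 < δ₀ ∧ ∀ I, δ₀ ≤ δ I := by
    by_cases hne : Nonempty ((Fin K × Fin K) × (Fin t × Fin t) × Bool)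
    · obtain ⟨I, hI⟩ := Finite.exists_min δ
      exact ⟨δ I, hδ I, hI⟩
    · exact ⟨1, one_pos, fun I => absurd ⟨I⟩ hne⟩
  obtain ⟨δ₀, hδ₀, hmin⟩ := hmin
  obtain ⟨y, hy, hgp⟩ := X.exists_gp x δ₀ hδ₀
  refine ⟨y ∘ φ, hgp.comp φ φ.injective, ?_⟩
  intro a c s s' hac e
  obtain ⟨l, l1, l2, l3⟩ := hδ2 ((a, c), (s, s'), e) hac y fun m =>
    (hy m).trans_le (hmin ((a, c), (s, s'), e))
  refine ⟨l, l1, l2, fun q h1 h2 => ?_⟩
  exact l3 (φ q) (fun h => h1 (φ.injective h)) fun h => h2 (φ.injective h)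

end Pool.Agent.H.MP_4bcbbd_co.C
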