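import Pool.Agent.H.MP_4bcbbd_co.C.Extract
import Pool.Agent.H.MP_4bcbbd_co.C.FullGp

/-!
MP_4bcbbd_co, edges in all dimensions: the graph of full pairs contains no large complete
multipartite graph with more classes than the cluster number.
-/

set_option autoImplicit false

namespace Pool.Agent.H.MP_4bcbbd_co.C

open scoped BigOperators

/-- at most `d` of the vectors are linearly independent. -/
theorem FromFull_li {ι : Type} [Fintype ι] {d m : ℕ} {y : ι → E d} (hy : X.GP y) (hm : m ≤ d)
    (f : Fin m → ι) (hf : Function.Injective f) : LinearIndependent ℝ (y ∘ f) := by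
  rw [Fintype.linearIndependent_iff]
  intro g hg i
  exact (hy.comp f hf) g hg Finset.univ (by rw [Finset.card_univ, Fintype.card_fin]; exact hm)
    (fun j hj => absurd (Finset.mem_univ j) hj) i

theorem FromFull_inj {α β : Type} {a c : α} {s s' t t' : β} (hac : a ≠ c) (hs : s ≠ s')
    (ht : t ≠ t') : Function.Injective (![(a, s), (a, s'), (c, t), (c, t')] : Fin 4 → α × β) := by
  have h1 : (a, s) ≠ (a, s') := fun h => hs (Prod.mk.inj h).2
  have h2 : (c, t) ≠ (c, t') := fun h => ht (Prod.mk.inj h).2
  have h3 : ∀ u v : β, (a, u) ≠ (c, v) := fun u v h => hac (Prod.mk.inj h).1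
  intro i j hij
  fin_cases i <;> fin_cases j <;> first
    | rfl
    | exact absurd hij h1
    | exact absurd hij.symm h1
    | exact absurd hij h2
    | exact absurd hij.symm h2
    | exact absurd hij (h3 _ _)
    | exact absurd hij.symm (h3 _ _)

/-- PROOF. Let `T` be the number of `tangent_of_fullCfg K d` and `t = T + d`. Given the data take `y` from `full_gp`,
`b i = y (0, i)` for `i < d` (the cluster `0 : Fin K`, index `i : Fin t`), and
`x a s = y (a, s + d)` for `s < T` (and anything for `s ≥ T`). `FullCfg T b x`: `span` by `X.Gp_span` (or `X.Gp_li` and the dimension), `li` by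
`X.GP` (four different indices, `4 ≤ d`), `full` from `full_gp`. Contradiction with `hno`. -/
theorem noK_r {d K : ℕ} (hd : 4 ≤ d) (hK : 1 ≤ K) (hno : ¬ ∃ p u : Fin K → E d, Tangent p u) :
    ∃ t : ℕ, ∀ V : Finset (E d), CSData V → ∀ r : Fin K → Fin t → E d,
      (∀ i x, r i x ∈ V) →
      (∀ i x j y, (i, x) ≠ (j, y) → r i x ≠ r j y ∧ r i x ≠ -r j y) →
      (∀ i x j y, i ≠ j → Full V (r i x) (r j y)) → False := by
  obtain ⟨T, hT⟩ := tangent_of_fullCfg K d
  refine ⟨T + d, fun V hV r hr hne hfull => hno ?_⟩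
  obtain ⟨y, hgp, hy⟩ := full_gp hV hr hne hfull
  have hlt : ∀ i : Fin d, (i : ℕ) < T + d := fun i => by
    have := i.2
    omega
  have hlt2 : ∀ s : ℕ, s < T → s + d < T + d := fun s hs => by omega
  refine hT (fun i => y (⟨0, hK⟩, ⟨(i : ℕ), hlt i⟩))
    (fun a s => if h : s < T then y (a, ⟨s + d, hlt2 s h⟩) else 0) ⟨?_, ?_, ?_⟩
  · have h1 : Function.Injective fun i : Fin d =>
        ((⟨0, hK⟩, ⟨(i : ℕ), hlt i⟩) : Fin K × Fin (T + d)) := by
      intro i j hij
      have h2 := (Prod.mk.inj hij).2
      exact Fin.ext (Fin.mk.inj h2)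
    have h3 := FromFull_li hgp le_rfl _ h1
    refine h3.span_eq_top_of_card_eq_finrank' ?_
    rw [Fintype.card_fin]
    exact finrank_euclideanSpace_fin.symm
  · intro a c hac s s' t t' hs hs' ht ht' hss htt
    have h1 : Function.Injective (![(a, ⟨s + d, hlt2 s hs⟩), (a, ⟨s' + d, hlt2 s' hs'⟩),
        (c, ⟨t + d, hlt2 t ht⟩), (c, ⟨t' + d, hlt2 t' ht'⟩)] : Fin 4 → Fin K × Fin (T + d)) := by
      refine FromFull_inj hac ?_ ?_
      · intro h
        have := Fin.mk.inj h
        omega
      · intro h
        have := Fin.mk.inj h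
        omega
    have h2 := FromFull_li hgp hd _ h1
    convert h2 using 1
    funext i
    fin_cases i
    · simp [hs]
    · simp [hs']
    · simp [ht]
    · simp [ht']
  · intro a c hac s t hs ht e
    obtain ⟨l, l1, l2, l3⟩ := hy a c ⟨s + d, hlt2 s hs⟩ ⟨t + d, hlt2 t ht⟩ hac e
    refine ⟨l, ?_, ?_, ?_, ?_⟩
    · simp only [hs, dif_pos]
      exact l1
    · simp only [ht, dif_pos]
      exact l2
    · intro i
      refine l3 _ ?_ ?_
      · intro h
        have h2 := Fin.mk.inj (Prod.mk.inj h).2
        have := i.2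
        omega
      · intro h
        have h2 := Fin.mk.inj (Prod.mk.inj h).2
        have := i.2
        omega
    · intro a' s' hs' h1 h2
      simp only [hs', dif_pos]
      refine l3 _ ?_ ?_
      · intro h
        obtain ⟨h3, h4⟩ := Prod.mk.inj h
        have h5 := Fin.mk.inj h4
        refine h1 ?_
        rw [h3, show s' = s by omega]
      · intro h
        obtain ⟨h3, h4⟩ := Prod.mk.inj h
        have h5 := Fin.mk.inj h4
        refine h2 ?_
        rw [h3, show s' = t by omega]

end Pool.Agent.H.MP_4bcbbd_co.C
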