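import Pool.Agent.H.MP_4bcbbd_co.C.CurveA

/-!
MP_4bcbbd_co, edges in all dimensions: the faces inside a cluster.
-/

set_option autoImplicit false

namespace Pool.Agent.H.MP_4bcbbd_co.C

open scoped BigOperators

/-- Faces inside the cluster `a`.
PROOF. Let `P, U, V, W` be the functionals dual to `p a, u a, v a, w a` (`exists_dual`). With
`e = s₁ + s₂`, `q = s₁ s₂`, `κ = 1 / (1 + q²)` let
`l = g + (κ - 1) • P + (2 κ e q) • U - (κ (e² + 2 q)) • V + (2 κ e) • W`, so `l (p a) = κ`, `l (u a) = 2 κ e q`,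
`l (v a) = - κ (e² + 2 q)`, `l (w a) = 2 κ e`, and
`l (cv .. σ) = 1 - κ (σ - s₁)² (σ - s₂)²` (identity, `κ (1 + q²) = 1`). For `|s₁|, |s₂|, |σ| < δ ≤ 1/2` this is `1` at `s₁`, `s₂` and otherwise
in `(-1, 1)`. For `c ≠ a` the value `l (cv (p c) .. σ)` is a continuous function of
`(s₁, s₂, σ)` with the value `g (p c)` at `0`, so it is in `(-1, 1)` for small parameters
(`Metric.eventually_nhds_iff`, finitely many `c`). -/
theorem inner_face {d k : ℕ} {p u v w : Fin k → E d} {a : Fin k} {g : E d →L[ℝ] ℝ}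
    (hp : g (p a) = 1) (hu : g (u a) = 0) (hv : g (v a) = 0) (hw : g (w a) = 0)
    (hc : ∀ c, c ≠ a → |g (p c)| < 1) (hli : LinearIndependent ℝ ![p a, u a, v a, w a]) :
    ∃ δ : ℝ, 0 < δ ∧ ∀ s₁ s₂ : ℝ, |s₁| < δ → |s₂| < δ → ∃ l : E d →L[ℝ] ℝ,
      l (cv (p a) (u a) (v a) (w a) s₁) = 1 ∧ l (cv (p a) (u a) (v a) (w a) s₂) = 1 ∧
      (∀ σ : ℝ, |σ| < δ → σ ≠ s₁ → σ ≠ s₂ → |l (cv (p a) (u a) (v a) (w a) σ)| < 1) ∧
      ∀ c, c ≠ a → ∀ σ : ℝ, |σ| < δ → |l (cv (p c) (u c) (v c) (w c) σ)| < 1 := by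
  classical
  obtain ⟨G, hG⟩ := exists_dual hli
  have G0 : G 0 (p a) = 1 ∧ G 0 (u a) = 0 ∧ G 0 (v a) = 0 ∧ G 0 (w a) = 0 :=
    ⟨by simpa using hG 0 0, by simpa using hG 0 1, by simpa using hG 0 2,
      by simpa using hG 0 3⟩
  have G1 : G 1 (p a) = 0 ∧ G 1 (u a) = 1 ∧ G 1 (v a) = 0 ∧ G 1 (w a) = 0 :=
    ⟨by simpa using hG 1 0, by simpa using hG 1 1, by simpa using hG 1 2,
      by simpa using hG 1 3⟩
  have G2 : G 2 (p a) = 0 ∧ G 2 (u a) = 0 ∧ G 2 (v a) = 1 ∧ G 2 (w a) = 0 :=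
    ⟨by simpa using hG 2 0, by simpa using hG 2 1, by simpa using hG 2 2,
      by simpa using hG 2 3⟩
  have G3 : G 3 (p a) = 0 ∧ G 3 (u a) = 0 ∧ G 3 (v a) = 0 ∧ G 3 (w a) = 1 :=
    ⟨by simpa using hG 3 0, by simpa using hG 3 1, by simpa using hG 3 2,
      by simpa using hG 3 3⟩
  let κ : ℝ × ℝ → ℝ := fun s => (1 + (s.1 * s.2) ^ 2)⁻¹
  let L : ℝ × ℝ → (E d →L[ℝ] ℝ) := fun s => g + (κ s - 1) • G 0 +
    (2 * κ s * (s.1 + s.2) * (s.1 * s.2)) • G 1 +
    (-(κ s * ((s.1 + s.2) ^ 2 + 2 * (s.1 * s.2)))) • G 2 + (2 * κ s * (s.1 + s.2)) • G 3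
  have hκpos : ∀ s : ℝ × ℝ, 0 < 1 + (s.1 * s.2) ^ 2 := fun s => by positivity
  have hκc : Continuous κ := by
    refine Continuous.inv₀ (by fun_prop) fun s => (hκpos s).ne'
  have hLc : Continuous L := by
    have h1 : Continuous fun s : ℝ × ℝ => κ s - 1 := hκc.sub continuous_const
    have h2 : Continuous fun s : ℝ × ℝ => 2 * κ s * (s.1 + s.2) * (s.1 * s.2) :=
      ((continuous_const.mul hκc).mul (continuous_fst.add continuous_snd)).mul
        (continuous_fst.mul continuous_snd)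
    have h3 : Continuous fun s : ℝ × ℝ => -(κ s * ((s.1 + s.2) ^ 2 + 2 * (s.1 * s.2))) :=
      (hκc.mul (((continuous_fst.add continuous_snd).pow 2).add
        (continuous_const.mul (continuous_fst.mul continuous_snd)))).neg
    have h4 : Continuous fun s : ℝ × ℝ => 2 * κ s * (s.1 + s.2) :=
      (continuous_const.mul hκc).mul (continuous_fst.add continuous_snd)
    exact (((continuous_const.add (h1.smul continuous_const)).add
      (h2.smul continuous_const)).add (h3.smul continuous_const)).add (h4.smul continuous_const)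
  have hL0 : L (0, 0) = g := by
    simp [L, κ]
  have hLp : ∀ s, L s (p a) = κ s := by
    intro s
    simp only [L, ContinuousLinearMap.add_apply, ContinuousLinearMap.smul_apply, smul_eq_mul,
      G0, G1, G2, G3, hp]
    ring
  have hLu : ∀ s, L s (u a) = 2 * κ s * (s.1 + s.2) * (s.1 * s.2) := by
    intro s
    simp only [L, ContinuousLinearMap.add_apply, ContinuousLinearMap.smul_apply, smul_eq_mul,
      G0, G1, G2, G3, hu]
    ring
  have hLv : ∀ s, L s (v a) = -(κ s * ((s.1 + s.2) ^ 2 + 2 * (s.1 * s.2))) := by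
    intro s
    simp only [L, ContinuousLinearMap.add_apply, ContinuousLinearMap.smul_apply, smul_eq_mul,
      G0, G1, G2, G3, hv]
    ring
  have hLw : ∀ s, L s (w a) = 2 * κ s * (s.1 + s.2) := by
    intro s
    simp only [L, ContinuousLinearMap.add_apply, ContinuousLinearMap.smul_apply, smul_eq_mul,
      G0, G1, G2, G3, hw]
    ring
  have hκ1 : ∀ s : ℝ × ℝ, κ s * (1 + (s.1 * s.2) ^ 2) = 1 := by
    intro s
    exact inv_mul_cancel₀ (hκpos s).ne'
  have hval : ∀ (s : ℝ × ℝ) (σ : ℝ), L s (cv (p a) (u a) (v a) (w a) σ) =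
      1 - κ s * ((σ - s.1) * (σ - s.2)) ^ 2 := by
    intro s σ
    rw [cv_apply, hLp, hLu, hLv, hLw]
    linear_combination hκ1 s
  have hev : ∀ᶠ q : (ℝ × ℝ) × ℝ in nhds ((0, 0), 0), ∀ c, c ≠ a →
      |L q.1 (cv (p c) (u c) (v c) (w c) q.2)| < 1 := by
    rw [Filter.eventually_all]
    intro c
    by_cases hca : c = a
    · exact Filter.Eventually.of_forall fun q h => absurd hca h
    · have hcont : Continuous fun q : (ℝ × ℝ) × ℝ =>
          |L q.1 (cv (p c) (u c) (v c) (w c) q.2)| :=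
        ((hLc.comp continuous_fst).clm_apply
          ((cv_continuous _ _ _ _).comp continuous_snd)).abs
      have h1 := hcont.tendsto ((0, 0), 0)
      have h2 : |L ((0 : ℝ), (0 : ℝ)) (cv (p c) (u c) (v c) (w c) 0)| < 1 := by
        rw [hL0, cv_zero]
        exact hc c hca
      filter_upwards [h1.eventually_lt_const h2] with q hq _
      exact hq
  obtain ⟨δ₀, hδ₀, hball⟩ := Metric.eventually_nhds_iff.1 hev
  refine ⟨min δ₀ (1 / 4), lt_min hδ₀ (by norm_num), fun s₁ s₂ hs₁ hs₂ => ?_⟩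
  have hs₁' : |s₁| < 1 / 4 := hs₁.trans_le (min_le_right _ _)
  have hs₂' : |s₂| < 1 / 4 := hs₂.trans_le (min_le_right _ _)
  refine ⟨L (s₁, s₂), ?_, ?_, ?_, ?_⟩
  · rw [hval]
    simp
  · rw [hval]
    simp
  · intro σ hσ h1 h2
    have hσ' : |σ| < 1 / 4 := hσ.trans_le (min_le_right _ _)
    rw [hval]
    have hk0 : 0 < κ (s₁, s₂) := inv_pos.2 (hκpos _)
    have hk1 : κ (s₁, s₂) ≤ 1 := by
      refine inv_le_one_of_one_le₀ ?_
      have : 0 ≤ ((s₁, s₂) : ℝ × ℝ).1 * ((s₁, s₂) : ℝ × ℝ).2 * (((s₁, s₂) : ℝ × ℝ).1 *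
        ((s₁, s₂) : ℝ × ℝ).2) := mul_self_nonneg _
      nlinarith
    have hne : (σ - s₁) * (σ - s₂) ≠ 0 := mul_ne_zero (sub_ne_zero.2 h1) (sub_ne_zero.2 h2)
    have hsq : 0 < ((σ - s₁) * (σ - s₂)) ^ 2 := by positivity
    have hb1 : |σ - s₁| ≤ 1 / 2 := by
      have := abs_sub σ s₁
      linarith
    have hb2 : |σ - s₂| ≤ 1 / 2 := by
      have := abs_sub σ s₂
      linarith
    have hb3 : |(σ - s₁) * (σ - s₂)| ≤ 1 / 4 := by
      rw [abs_mul]
      have := mul_le_mul hb1 hb2 (abs_nonneg _) (by norm_num)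
      linarith
    have hb4 : ((σ - s₁) * (σ - s₂)) ^ 2 ≤ 1 / 16 := by
      rw [← sq_abs]
      have h3 := abs_nonneg ((σ - s₁) * (σ - s₂))
      nlinarith
    show |1 - κ (s₁, s₂) * ((σ - s₁) * (σ - s₂)) ^ 2| < 1
    rw [abs_lt]
    constructor
    · nlinarith
    · have := mul_pos hk0 hsq
      linarith
  · intro c hca σ hσ
    have hd : dist (((s₁, s₂), σ) : (ℝ × ℝ) × ℝ) ((0, 0), 0) < δ₀ := by
      rw [Prod.dist_eq, Prod.dist_eq, max_lt_iff, max_lt_iff]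
      refine ⟨⟨?_, ?_⟩, ?_⟩
      · rw [Real.dist_eq, sub_zero]
        exact hs₁.trans_le (min_le_left _ _)
      · rw [Real.dist_eq, sub_zero]
        exact hs₂.trans_le (min_le_left _ _)
      · rw [Real.dist_eq, sub_zero]
        exact hσ.trans_le (min_le_left _ _)
    exact hball hd c hca

end Pool.Agent.H.MP_4bcbbd_co.C
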