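import Pool.Agent.H.MP_4bcbbd_co.C.PV

/-!
MP_4bcbbd_co, edges in all dimensions: counting the edges of the configuration.
-/

set_option autoImplicit false

namespace Pool.Agent.H.MP_4bcbbd_co.C

open scoped BigOperators

theorem PVCount_sum (n : ℕ) : (∑ j : Fin n, ((j : ℕ) : ℝ)) = (n : ℝ) * (n - 1) / 2 := by
  rw [Fin.sum_univ_eq_sum_range (fun j => ((j : ℕ) : ℝ)) n]
  have h1 := Finset.sum_range_id_mul_two n
  rcases Nat.eq_zero_or_pos n with h | h
  · subst h
    simp
  · have h2 : (((∑ i ∈ Finset.range n, i) * 2 : ℕ) : ℝ) = ((n * (n - 1) : ℕ) : ℝ) := by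
      rw [h1]
    rw [Nat.cast_mul, Nat.cast_mul, Nat.cast_sub h] at h2
    push_cast at h2
    linarith

/-- PROOF: for `j < n` the `i < j` with `i % k = j % k` are `j - k m`, `1 ≤ m ≤ j / k`, so there are
at most `j / k` of them; `∑_{j < n} j / k ≤ n (n - 1) / (2 k)`. -/
theorem same_count {n k : ℕ} (hk : 1 ≤ k) :
    (((Finset.univ : Finset (Fin n × Fin n)).filter fun q =>
      q.1 < q.2 ∧ (q.1 : ℕ) % k = (q.2 : ℕ) % k).card : ℝ) ≤ (n : ℝ) ^ 2 / (2 * k) := by
  classical
  have hk0 : (0 : ℝ) < k := by exact_mod_cast hk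
  obtain ⟨S, hS⟩ : ∃ S : Finset (Fin n × Fin n), S =
      (Finset.univ : Finset (Fin n × Fin n)).filter fun q =>
        q.1 < q.2 ∧ (q.1 : ℕ) % k = (q.2 : ℕ) % k := ⟨_, rfl⟩
  rw [← hS]
  have h1 : S.card = ∑ j : Fin n, (S.filter fun q => q.2 = j).card :=
    Finset.card_eq_sum_card_fiberwise fun q _ => Finset.mem_coe.2 (Finset.mem_univ _)
  have h2 : ∀ j : Fin n, (S.filter fun q => q.2 = j).card ≤ (j : ℕ) / k := by
    intro j
    rw [← Finset.card_range ((j : ℕ) / k)]
    refine Finset.card_le_card_of_injOn (fun q => (q.1 : ℕ) / k) ?_ ?_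
    · intro q hq
      obtain ⟨hq1, hq2⟩ := Finset.mem_filter.1 (Finset.mem_coe.1 hq)
      rw [hS] at hq1
      obtain ⟨-, hq3, hq4⟩ := Finset.mem_filter.1 hq1
      rw [hq2] at hq3 hq4
      rw [Finset.mem_coe, Finset.mem_range]
      have hlt : (q.1 : ℕ) < (j : ℕ) := hq3
      by_contra hcon
      push Not at hcon
      have e1 := Nat.div_add_mod (q.1 : ℕ) k
      have e2 := Nat.div_add_mod (j : ℕ) k
      have e3 : k * ((j : ℕ) / k) ≤ k * ((q.1 : ℕ) / k) := Nat.mul_le_mul_left _ hcon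
      omega
    · intro q hq q' hq' h
      obtain ⟨hq1, hq2⟩ := Finset.mem_filter.1 (Finset.mem_coe.1 hq)
      obtain ⟨hq1', hq2'⟩ := Finset.mem_filter.1 (Finset.mem_coe.1 hq')
      rw [hS] at hq1 hq1'
      have hq4 := (Finset.mem_filter.1 hq1).2.2
      have hq4' := (Finset.mem_filter.1 hq1').2.2
      rw [hq2] at hq4
      rw [hq2'] at hq4'
      have h' : (q.1 : ℕ) / k = (q'.1 : ℕ) / k := h
      have e1 := Nat.div_add_mod (q.1 : ℕ) k
      have e2 := Nat.div_add_mod (q'.1 : ℕ) k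
      rw [hq4, h'] at e1
      rw [hq4'] at e2
      refine Prod.ext (Fin.ext (e1.symm.trans e2)) (hq2.trans hq2'.symm)
  have h3 : (S.card : ℝ) ≤ ∑ j : Fin n, ((j : ℕ) : ℝ) / k := by
    rw [h1]
    push_cast
    refine Finset.sum_le_sum fun j _ => ?_
    have h4 : ((S.filter fun q => q.2 = j).card : ℝ) ≤ (((j : ℕ) / k : ℕ) : ℝ) := by
      exact_mod_cast h2 j
    exact h4.trans Nat.cast_div_le
  rw [← Finset.sum_div, PVCount_sum] at h3
  refine h3.trans ?_
  rw [div_div, div_le_div_iff_of_pos_right (by positivity)]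
  have : (0 : ℝ) ≤ n := Nat.cast_nonneg n
  nlinarith

theorem PVCount_all (n : ℕ) : (((Finset.univ : Finset (Fin n × Fin n)).filter fun q =>
    q.1 < q.2).card : ℝ) = (n : ℝ) * (n - 1) / 2 := by
  classical
  obtain ⟨S, hS⟩ : ∃ S : Finset (Fin n × Fin n), S =
      (Finset.univ : Finset (Fin n × Fin n)).filter fun q => q.1 < q.2 := ⟨_, rfl⟩
  rw [← hS]
  have h1 : S.card = ∑ j : Fin n, (S.filter fun q => q.2 = j).card :=
    Finset.card_eq_sum_card_fiberwise fun q _ => Finset.mem_coe.2 (Finset.mem_univ _)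
  have h2 : ∀ j : Fin n, (S.filter fun q => q.2 = j).card = (j : ℕ) := by
    intro j
    have h3 : (S.filter fun q => q.2 = j) = (Finset.Iio j).map ⟨fun i => (i, j), fun a b h =>
        (Prod.mk.inj h).1⟩ := by
      ext ⟨a, b⟩
      rw [Finset.mem_filter, hS, Finset.mem_filter, Finset.mem_map]
      constructor
      · rintro ⟨⟨-, h4⟩, h5⟩
        have h5' : b = j := h5
        subst h5'
        exact ⟨a, Finset.mem_Iio.2 h4, rfl⟩
      · rintro ⟨i, hi, h4⟩
        obtain ⟨h5, h6⟩ := Prod.mk.inj h4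
        subst h5
        subst h6
        exact ⟨⟨Finset.mem_univ _, Finset.mem_Iio.1 hi⟩, rfl⟩
    rw [h3, Finset.card_map, Fin.card_Iio]
  rw [h1]
  simp only [h2]
  push_cast
  exact PVCount_sum n

theorem PVCount_inj {n d : ℕ} {y : Fin n → E d} (hy : X.GP y) (hd : 2 ≤ d) {i j i' j' : Fin n}
    {s t s' t' : Bool} (hij : i < j) (hij' : i' < j') {W : Finset (E d)}
    (h1 : ∀ v, v ∈ W ↔ v = sp y (i, s) ∨ v = sp y (j, t))
    (h2 : ∀ v, v ∈ W ↔ v = sp y (i', s') ∨ v = sp y (j', t')) :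
    i = i' ∧ j = j' ∧ s = s' ∧ t = t' := by
  have a1 := (h2 _).1 ((h1 _).2 (Or.inl rfl))
  have a2 := (h2 _).1 ((h1 _).2 (Or.inr rfl))
  have hinj := sp_inj hy hd
  rcases a1 with a1 | a1
  · obtain ⟨e1, e2⟩ := Prod.mk.inj (hinj a1)
    rcases a2 with a2 | a2
    · obtain ⟨e3, e4⟩ := Prod.mk.inj (hinj a2)
      rw [e1, e3] at hij
      exact absurd hij (lt_irrefl _)
    · obtain ⟨e3, e4⟩ := Prod.mk.inj (hinj a2)
      exact ⟨e1, e3, e2, e4⟩
  · obtain ⟨e1, e2⟩ := Prod.mk.inj (hinj a1)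
    rcases a2 with a2 | a2
    · obtain ⟨e3, e4⟩ := Prod.mk.inj (hinj a2)
      rw [e1, e3] at hij
      exact absurd (hij.trans hij') (lt_irrefl _)
    · obtain ⟨e3, e4⟩ := Prod.mk.inj (hinj a2)
      rw [e1, e3] at hij
      exact absurd hij (lt_irrefl _)

theorem PVCount_spt {n d k : ℕ} {y : Fin n → E d}
    (h : ∀ i j : Fin n, i ≠ j → ∀ s : Bool, (s = true ∨ (i : ℕ) % k ≠ (j : ℕ) % k) →
      Two y i j (bs s)) {i j : Fin n} (hij : i ≠ j) {s t : Bool}
    (hst : s = t ∨ (i : ℕ) % k ≠ (j : ℕ) % k) {W : Finset (E d)}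
    (hW : ∀ v, v ∈ W ↔ v = sp y (i, s) ∨ v = sp y (j, t)) : Spt (PV y) W := by
  classical
  cases s
  · have h1 : Two y i j (bs (!t)) := by
      refine h i j hij (!t) ?_
      rcases hst with h2 | h2
      · left
        rw [← h2]
        rfl
      · exact Or.inr h2
    obtain ⟨l, l1, l2⟩ := h1.spt (W := {sp y (i, true), sp y (j, !t)}) (fun v => by
      rw [Finset.mem_insert, Finset.mem_singleton])
    have e1 : sp y (i, false) = -sp y (i, true) := by
      show bs false • y i = -(bs true • y i)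
      rw [bs_false, bs_true, neg_smul]
    have e2 : sp y (j, t) = -sp y (j, !t) := by
      show bs t • y j = -(bs (!t) • y j)
      rw [← neg_smul]
      congr 1
      cases t <;> simp
    refine ⟨-l, fun w hw => ?_, fun v hv hvW => ?_⟩
    · rcases (hW w).1 hw with h2 | h2
      · rw [h2, e1]
        have := l1 (sp y (i, true)) (by simp)
        simpa using this
      · rw [h2, e2]
        have := l1 (sp y (j, !t)) (by simp)
        simpa using this
    · have hv' : -v ∈ PV y := by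
        obtain ⟨⟨m, r⟩, rfl⟩ := mem_PV.1 hv
        refine mem_PV.2 ⟨(m, !r), ?_⟩
        show bs (!r) • y m = -(bs r • y m)
        rw [← neg_smul]
        congr 1
        cases r <;> simp
      have h2 := l2 (-v) hv' (by
        rw [Finset.mem_insert, Finset.mem_singleton]
        intro h3
        apply hvW
        rw [hW, e1, e2]
        rcases h3 with h3 | h3
        · left
          rw [← h3, neg_neg]
        · right
          rw [← h3, neg_neg])
      simpa using h2
  · refine (h i j hij t ?_).spt hW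
    rcases hst with h2 | h2
    · exact Or.inl h2.symm
    · exact Or.inr h2

/-- PROOF. The map `(i, j, s, t) ↦ {sp y (i, s), sp y (j, t)}` is injective on the quadruples with `i < j`
(`sp_inj`), and for `s = t` or `i % k ≠ j % k` the image is in `fc (PV y) 2`: for `s = true` by
`Two.spt` with the sign `t` (`W := {sp y (i, true), sp y (j, t)}`); for `s = false` it is the opposite of `{sp y (i, true), sp y (j, !t)}` (use
`-l`). So `fc (PV y) 2` has at least `2 C(n,2) + 2 (C(n,2) - same)` elements, where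
`same` is the number of `same_count`; `2 n (n-1) - 2 same ≥ 2 n (n - 1) - n² / k`. -/
theorem PV_count {n d k : ℕ} (hk : 1 ≤ k) (hd : 2 ≤ d) {y : Fin n → E d} (hy : X.GP y)
    (h : ∀ i j : Fin n, i ≠ j → ∀ s : Bool, (s = true ∨ (i : ℕ) % k ≠ (j : ℕ) % k) →
      Two y i j (bs s)) :
    (2 - 1 / (k : ℝ)) * (n : ℝ) ^ 2 - 2 * n ≤ ((fc (PV y) 2).card : ℝ) := by
  classical
  obtain ⟨L, hL⟩ : ∃ L : Finset (Fin n × Fin n), L =
      (Finset.univ : Finset (Fin n × Fin n)).filter fun q => q.1 < q.2 := ⟨_, rfl⟩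
  obtain ⟨F, hF⟩ : ∃ F : Fin n × Fin n → Finset (Bool × Bool), F = fun p =>
      (Finset.univ : Finset (Bool × Bool)).filter fun st => st.1 = st.2 ∨
        (p.1 : ℕ) % k ≠ (p.2 : ℕ) % k := ⟨_, rfl⟩
  have hcard : (L.sigma F).card ≤ (fc (PV y) 2).card := by
    refine Finset.card_le_card_of_injOn
      (fun x => ({sp y (x.1.1, x.2.1), sp y (x.1.2, x.2.2)} : Finset (E d))) ?_ ?_
    · rintro ⟨⟨i, j⟩, ⟨s, t⟩⟩ hx
      obtain ⟨h1, h2⟩ := Finset.mem_sigma.1 (Finset.mem_coe.1 hx)
      rw [hL] at h1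
      have hij : i < j := (Finset.mem_filter.1 h1).2
      rw [hF] at h2
      have hst : s = t ∨ (i : ℕ) % k ≠ (j : ℕ) % k := (Finset.mem_filter.1 h2).2
      rw [Finset.mem_coe, mem_fc]
      refine ⟨?_, ?_, ?_⟩
      · intro v hv
        rw [Finset.mem_insert, Finset.mem_singleton] at hv
        rcases hv with hv | hv
        · exact mem_PV.2 ⟨_, hv.symm⟩
        · exact mem_PV.2 ⟨_, hv.symm⟩
      · rw [Finset.card_pair]
        intro h3
        have h4 := (Prod.mk.inj (sp_inj hy hd h3)).1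
        exact hij.ne h4
      · exact PVCount_spt h hij.ne hst fun v => by
          rw [Finset.mem_insert, Finset.mem_singleton]
    · rintro ⟨⟨i, j⟩, ⟨s, t⟩⟩ hx ⟨⟨i', j'⟩, ⟨s', t'⟩⟩ hx' heq
      obtain ⟨h1, -⟩ := Finset.mem_sigma.1 (Finset.mem_coe.1 hx)
      obtain ⟨h1', -⟩ := Finset.mem_sigma.1 (Finset.mem_coe.1 hx')
      rw [hL] at h1 h1'
      have hij : i < j := (Finset.mem_filter.1 h1).2
      have hij' : i' < j' := (Finset.mem_filter.1 h1').2
      have heq' : ({sp y (i, s), sp y (j, t)} : Finset (E d)) =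
          {sp y (i', s'), sp y (j', t')} := heq
      obtain ⟨rfl, rfl, rfl, rfl⟩ := PVCount_inj hy hd hij hij'
        (W := ({sp y (i, s), sp y (j, t)} : Finset (E d)))
        (fun v => by rw [Finset.mem_insert, Finset.mem_singleton])
        (fun v => by rw [heq', Finset.mem_insert, Finset.mem_singleton])
      rfl
  have hFc : ∀ p, (F p).card = if (p.1 : ℕ) % k = (p.2 : ℕ) % k then 2 else 4 := by
    intro p
    by_cases hp : (p.1 : ℕ) % k = (p.2 : ℕ) % k
    · rw [if_pos hp, hF]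
      have h1 : ((Finset.univ : Finset (Bool × Bool)).filter fun st => st.1 = st.2 ∨
          (p.1 : ℕ) % k ≠ (p.2 : ℕ) % k) =
          (Finset.univ : Finset (Bool × Bool)).filter fun st => st.1 = st.2 := by
        ext st
        simp [hp]
      show ((Finset.univ : Finset (Bool × Bool)).filter fun st => st.1 = st.2 ∨
          (p.1 : ℕ) % k ≠ (p.2 : ℕ) % k).card = 2
      rw [h1]
      rfl
    · rw [if_neg hp, hF]
      show ((Finset.univ : Finset (Bool × Bool)).filter fun st => st.1 = st.2 ∨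
          (p.1 : ℕ) % k ≠ (p.2 : ℕ) % k).card = 4
      rw [Finset.filter_true_of_mem fun st _ => Or.inr hp]
      rfl
  have hsig : ((L.sigma F).card : ℝ) = 4 * (L.card : ℝ) -
      2 * ((L.filter fun p => (p.1 : ℕ) % k = (p.2 : ℕ) % k).card : ℝ) := by
    rw [Finset.card_sigma]
    push_cast
    have h1 : ∀ p ∈ L, ((F p).card : ℝ) = 4 -
        2 * (if (p.1 : ℕ) % k = (p.2 : ℕ) % k then (1 : ℝ) else 0) := by
      intro p _
      rw [hFc p]
      by_cases hp : (p.1 : ℕ) % k = (p.2 : ℕ) % k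
      · rw [if_pos hp, if_pos hp]
        norm_num
      · rw [if_neg hp, if_neg hp]
        norm_num
    rw [Finset.sum_congr rfl h1, Finset.sum_sub_distrib, Finset.sum_const, nsmul_eq_mul,
      ← Finset.mul_sum, Finset.sum_boole]
    ring
  have hall : (L.card : ℝ) = (n : ℝ) * (n - 1) / 2 := by
    rw [hL]
    exact PVCount_all n
  have hsame : ((L.filter fun p => (p.1 : ℕ) % k = (p.2 : ℕ) % k).card : ℝ) ≤
      (n : ℝ) ^ 2 / (2 * k) := by
    rw [hL, Finset.filter_filter]
    exact same_count hk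
  have hc : ((L.sigma F).card : ℝ) ≤ ((fc (PV y) 2).card : ℝ) := by exact_mod_cast hcard
  rw [hsig, hall] at hc
  have hk0 : (0 : ℝ) < k := by exact_mod_cast hk
  have h5 : (n : ℝ) ^ 2 / (2 * k) = 1 / (k : ℝ) * (n : ℝ) ^ 2 / 2 := by
    field_simp
  rw [h5] at hsame
  nlinarith

end Pool.Agent.H.MP_4bcbbd_co.C
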