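import Pool.Agent.H.MP_4bcbbd_co.C.PVSimp

/-!
MP_4bcbbd_co, edges in all dimensions: the polytope of a configuration.
-/

set_option autoImplicit false

namespace Pool.Agent.H.MP_4bcbbd_co.C

open scoped BigOperators

/-- PROOF: `-v` is clear. A vertex `sp y (i, s)`: for `s = true` by `Two.spt` and `spt_subset`, for `s = false` by
symmetry (the functional `-l`). The span: `n ≥ d` and `X.Gp_span` for a set of `d` indices. -/
theorem PV_data {n d : ℕ} {y : Fin n → E d} (hy : SGP y) (hd : 2 ≤ d) (hn : d ≤ n)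
    (h : ∀ i, ∃ (j : Fin n) (s : Bool), j ≠ i ∧ Two y i j (bs s)) : CSData (PV y) := by
  classical
  have hneg : ∀ v ∈ PV y, -v ∈ PV y := by
    intro v hv
    obtain ⟨⟨i, s⟩, rfl⟩ := mem_PV.1 hv
    refine mem_PV.2 ⟨(i, !s), ?_⟩
    show bs (!s) • y i = -(bs s • y i)
    rw [← neg_smul]
    congr 1
    cases s <;> simp
  refine ⟨hneg, ?_, ?_⟩
  · have hpos : ∀ i, Spt (PV y) {sp y (i, true)} := by
      intro i
      obtain ⟨j, s, -, htwo⟩ := h i
      obtain ⟨W, hW⟩ : ∃ W : Finset (E d), ∀ v, v ∈ W ↔ v = sp y (i, true) ∨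
          v = sp y (j, s) := ⟨{sp y (i, true), sp y (j, s)}, fun v => by
        rw [Finset.mem_insert, Finset.mem_singleton]⟩
      refine spt_subset (PV_simp hy hd) (W := W) ?_ (htwo.spt hW) ?_
      · intro v hv
        rcases (hW v).1 hv with h1 | h1
        · exact mem_PV.2 ⟨_, h1.symm⟩
        · exact mem_PV.2 ⟨_, h1.symm⟩
      · intro v hv
        rw [Finset.mem_singleton] at hv
        exact (hW v).2 (Or.inl hv)
    intro v hv
    obtain ⟨⟨i, s⟩, rfl⟩ := mem_PV.1 hv
    cases s
    · obtain ⟨l, l1, l2⟩ := hpos i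
      have hm : sp y (i, false) = -sp y (i, true) := by
        show bs false • y i = -(bs true • y i)
        rw [bs_false, bs_true, neg_smul]
      refine ⟨-l, fun w hw => ?_, fun w hw hw2 => ?_⟩
      · rw [Finset.mem_singleton] at hw
        rw [hw, hm]
        have := l1 (sp y (i, true)) (Finset.mem_singleton_self _)
        simpa using this
      · have h1 := l2 (-w) (hneg w hw) (by
          rw [Finset.mem_singleton]
          intro h2
          apply hw2
          rw [Finset.mem_singleton, hm, ← h2, neg_neg])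
        simpa using h1
    · exact hpos i
  · obtain ⟨T, -, hT⟩ := Finset.exists_subset_card_eq (s := (Finset.univ : Finset (Fin n)))
      (n := d) (by rw [Finset.card_univ, Fintype.card_fin]; exact hn)
    rw [← top_le_iff, ← X.Gp_span hy.1 T hT, Submodule.span_le]
    rintro _ ⟨i, rfl⟩
    refine Submodule.subset_span ?_
    refine Finset.mem_coe.2 (mem_PV.2 ⟨(i.1, true), ?_⟩)
    show bs true • y i = y i
    rw [bs_true, one_smul]

end Pool.Agent.H.MP_4bcbbd_co.C
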