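import Pool.Agent.H.MP_4bcbbd_co.C.Adjust

/-!
MP_4bcbbd_co, edges in all dimensions: strict two point conditions are open.
-/

set_option autoImplicit false

namespace Pool.Agent.H.MP_4bcbbd_co.C

open scoped BigOperators Topology

/-- Strict two point conditions are open. PROOF: `adjust` for the family `![x i, x j]`, targets `1`, `ε`, with `η` so
small that `|f (y m)| < 1` for `‖f - l‖ < η`, `‖y m - x m‖ < δ`: let `κ > 0` with
`|l (x m)| ≤ 1 - 3κ` for all `m ≠ i, j`; `|f (y m)| ≤ |l (x m)| + ‖f - l‖ ‖y m‖ + ‖l‖ ‖y m - x m‖`. -/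
theorem two_open {n d : ℕ} {x : Fin n → E d} {i j : Fin n}
    (hli : LinearIndependent ℝ ![x i, x j]) {ε : ℝ} (h : Two x i j ε) :
    ∃ δ : ℝ, 0 < δ ∧ ∀ y : Fin n → E d, (∀ m, ‖y m - x m‖ < δ) → Two y i j ε := by
  obtain ⟨l, h1, h2, h3⟩ := h
  have hev : ∀ m : Fin n, ∀ᶠ q : (E d →L[ℝ] ℝ) × E d in 𝓝 (l, x m),
      m ≠ i → m ≠ j → |q.1 q.2| < 1 := by
    intro m
    by_cases hm : m ≠ i ∧ m ≠ j
    · have hc : Continuous fun q : (E d →L[ℝ] ℝ) × E d => |q.1 q.2| :=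
        (continuous_fst.clm_apply continuous_snd).abs
      have h4 : ∀ᶠ q : (E d →L[ℝ] ℝ) × E d in 𝓝 (l, x m), |q.1 q.2| < 1 :=
        hc.continuousAt.eventually (Iio_mem_nhds (h3 m hm.1 hm.2))
      exact h4.mono fun q hq _ _ => hq
    · exact Filter.Eventually.of_forall fun q hi hj => absurd ⟨hi, hj⟩ hm
  have hρ : ∀ m : Fin n, ∃ ρ : ℝ, 0 < ρ ∧ ∀ (f : E d →L[ℝ] ℝ) (v : E d), ‖f - l‖ < ρ →
      ‖v - x m‖ < ρ → m ≠ i → m ≠ j → |f v| < 1 := by
    intro m
    obtain ⟨ρ, h4, h5⟩ := Metric.eventually_nhds_iff.1 (hev m)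
    refine ⟨ρ, h4, fun f v hf hv => ?_⟩
    refine @h5 (f, v) ?_
    rw [Prod.dist_eq, max_lt_iff, dist_eq_norm, dist_eq_norm]
    exact ⟨hf, hv⟩
  choose ρ hρ0 hρ1 using hρ
  obtain ⟨r, hr0, hr1⟩ : ∃ r : ℝ, 0 < r ∧ ∀ m, r ≤ ρ m := by
    rcases isEmpty_or_nonempty (Fin n) with he | he
    · exact ⟨1, one_pos, fun m => he.elim m⟩
    · obtain ⟨m, hm⟩ := Finite.exists_min ρ
      exact ⟨ρ m, hρ0 m, hm⟩
  obtain ⟨δ, hδ, hadj⟩ := adjust hli l hr0
  refine ⟨min δ r, lt_min hδ hr0, fun y hy => ?_⟩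
  obtain ⟨f, hf, hfl⟩ := hadj ![y i, y j] ![1, ε] (by
      intro a
      fin_cases a
      · exact (hy i).trans_le (min_le_left _ _)
      · exact (hy j).trans_le (min_le_left _ _)) (by
      intro a
      fin_cases a
      · show |1 - l (x i)| < δ
        rw [h1, sub_self, abs_zero]
        exact hδ
      · show |ε - l (x j)| < δ
        rw [h2, sub_self, abs_zero]
        exact hδ)
  exact ⟨f, hf 0, hf 1, fun m hmi hmj => hρ1 m f (y m) (hfl.trans_le (hr1 m))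
    (((hy m).trans_le (min_le_right _ _)).trans_le (hr1 m)) hmi hmj⟩

/-- PROOF: if `α • x i + β • x j = 0`, the first functional gives `α + β = 0`, so `α • (x i - x j) = 0`, and
the second one separates `x i` and `x j`. -/
theorem li_of_two {n d : ℕ} {x : Fin n → E d} {i j m : Fin n} (hij : i ≠ j) (him : m ≠ i)
    (hjm : m ≠ j) {ε : ℝ} (h1 : Two x i j 1) (h2 : Two x i m ε) :
    LinearIndependent ℝ ![x i, x j] := by
  obtain ⟨l, l1, l2, -⟩ := h1
  obtain ⟨l', m1, -, m3⟩ := h2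
  have m2 := m3 j hij.symm hjm.symm
  rw [LinearIndependent.pair_iff]
  intro s t hst
  have e1 := congrArg l hst
  have e2 := congrArg l' hst
  simp only [map_add, map_smul, smul_eq_mul, map_zero, l1, l2, m1, mul_one] at e1 e2
  have e3 : t = -s := by linarith
  subst e3
  have e4 : s * (1 - l' (x j)) = 0 := by linarith
  have e5 : s = 0 := by
    rcases mul_eq_zero.1 e4 with h | h
    · exact h
    · exfalso
      rw [abs_lt] at m2
      linarith [m2.2]
  rw [e5]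
  simp

end Pool.Agent.H.MP_4bcbbd_co.C
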