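import Pool.Agent.H.MP_4bcbbd_co.C.Points
import Pool.Agent.H.MP_4bcbbd_co.C.PVCount
import Pool.Agent.H.MP_4bcbbd_co.C.PVData
import Pool.Agent.H.MP_4bcbbd_co.C.TwoOpen

/-!
MP_4bcbbd_co, edges in all dimensions: polytopes with many edges from a tangent configuration.
-/

set_option autoImplicit false

namespace Pool.Agent.H.MP_4bcbbd_co.C

open scoped BigOperators

/-- PROOF. `x` from `exists_points`. For `i ≠ j` choose a third index `m` (`n ≥ 4`): `Two x i j 1`, `Two x i m 1` give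
`LinearIndependent ℝ ![x i, x j]` (`li_of_two`). By `two_open` (finitely many `(i, j, s)`) there is `δ > 0` such that
the conditions of `exists_points` hold for all `y` with `‖y m - x m‖ < δ`; take `y` from
`exists_sgp x δ` and `V = PV y`: `PV_data` (for `i` take any `j ≠ i`, `s = true`), `PV_simp`,
`PV_card`, `PV_count`. -/
theorem lower_r {d k : ℕ} (hd : 4 ≤ d) (hk : 2 ≤ k) {p u : Fin k → E d} (h : Tangent p u)
    {n : ℕ} (hn : d ≤ n) : ∃ V : Finset (E d), CSData V ∧ Simp V ∧ V.card = 2 * n ∧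
      (2 - 1 / (k : ℝ)) * (n : ℝ) ^ 2 - 2 * n ≤ ((fc V 2).card : ℝ) := by
  classical
  obtain ⟨x, hx⟩ := exists_points hd hk h n
  have hthird : ∀ i j : Fin n, ∃ m : Fin n, m ≠ i ∧ m ≠ j := by
    intro i j
    have h1 : ({i, j} : Finset (Fin n)).card < Fintype.card (Fin n) := by
      rw [Fintype.card_fin]
      exact lt_of_le_of_lt Finset.card_le_two (by omega)
    obtain ⟨m, hm⟩ := Finset.exists_mem_notMem_of_card_lt_card
      (s := ({i, j} : Finset (Fin n))) (t := Finset.univ) (by rw [Finset.card_univ]; exact h1)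
    have h2 := hm.2
    rw [Finset.mem_insert, Finset.mem_singleton] at h2
    push Not at h2
    exact ⟨m, h2⟩
  have hli : ∀ i j : Fin n, i ≠ j → LinearIndependent ℝ ![x i, x j] := by
    intro i j hij
    obtain ⟨m, hmi, hmj⟩ := hthird i j
    have h1 := hx i j hij true (Or.inl rfl)
    have h2 := hx i m hmi.symm true (Or.inl rfl)
    exact li_of_two hij hmi hmj h1 h2
  have hop : ∀ I : (Fin n × Fin n) × Bool, ∃ δ : ℝ, 0 < δ ∧ (I.1.1 ≠ I.1.2 →
      (I.2 = true ∨ (I.1.1 : ℕ) % k ≠ (I.1.2 : ℕ) % k) →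
      ∀ y : Fin n → E d, (∀ m, ‖y m - x m‖ < δ) → Two y I.1.1 I.1.2 (bs I.2)) := by
    rintro ⟨⟨i, j⟩, s⟩
    by_cases hij : i = j
    · exact ⟨1, one_pos, fun h1 => absurd hij h1⟩
    · by_cases hs : s = true ∨ (i : ℕ) % k ≠ (j : ℕ) % k
      · obtain ⟨δ, hδ, h1⟩ := two_open (hli i j hij) (hx i j hij s hs)
        exact ⟨δ, hδ, fun _ _ => h1⟩
      · exact ⟨1, one_pos, fun _ h1 => absurd h1 hs⟩
  choose δ hδ hδ2 using hop
  haveI : Nonempty (Fin n) := ⟨⟨0, by omega⟩⟩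
  obtain ⟨I, hI⟩ := Finite.exists_min δ
  obtain ⟨y, hy, hsgp⟩ := exists_sgp x (hδ I)
  have hy2 : ∀ i j : Fin n, i ≠ j → ∀ s : Bool, (s = true ∨ (i : ℕ) % k ≠ (j : ℕ) % k) →
      Two y i j (bs s) := fun i j hij s hs =>
    hδ2 ((i, j), s) hij hs y fun m => (hy m).trans_le (hI _)
  refine ⟨PV y, ?_, PV_simp hsgp (by omega), PV_card hsgp.1 (by omega),
    PV_count (by omega) (by omega) hsgp.1 hy2⟩
  refine PV_data hsgp (by omega) hn fun i => ?_
  obtain ⟨j, hj, -⟩ := hthird i i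
  exact ⟨j, true, hj, hy2 i j hj.symm true (Or.inl rfl)⟩

end Pool.Agent.H.MP_4bcbbd_co.C
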