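import Pool.Agent.H.MP_4bcbbd_co.C.Sgp
import Pool.Agent.H.MP_4bcbbd_co.LP

/-!
MP_4bcbbd_co, edges in all dimensions: the polytope of a configuration.
-/

set_option autoImplicit false

namespace Pool.Agent.H.MP_4bcbbd_co.C

open scoped BigOperators

/-- the signed point. -/
noncomputable def sp {n d : ℕ} (y : Fin n → E d) (q : Fin n × Bool) : E d := bs q.2 • y q.1

open Classical in
/-- the points `± y i`. -/
noncomputable def PV {n d : ℕ} (y : Fin n → E d) : Finset (E d) :=
  Finset.univ.image (sp y)

lemma mem_PV {n d : ℕ} {y : Fin n → E d} {v : E d} : v ∈ PV y ↔ ∃ q, sp y q = v := by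
  classical
  unfold PV
  simp

theorem PV_ne_zero {n d : ℕ} {y : Fin n → E d} (hy : X.GP y) (hd : 1 ≤ d) (i : Fin n) :
    y i ≠ 0 := by
  classical
  intro h
  have h1 := hy (Pi.single i 1) (by
    rw [Finset.sum_eq_single i]
    · rw [h, smul_zero]
    · intro j _ hj
      rw [Pi.single_eq_of_ne hj, zero_smul]
    · intro h2
      exact absurd (Finset.mem_univ i) h2) {i} (by rw [Finset.card_singleton]; exact hd)
    (fun j hj => by
      rw [Finset.mem_singleton] at hj
      rw [Pi.single_eq_of_ne hj]) i
  rw [Pi.single_eq_same] at h1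
  exact one_ne_zero h1

theorem PV_indep {n d : ℕ} {y : Fin n → E d} (hy : X.GP y) (hd : 2 ≤ d) {i j : Fin n}
    (hij : i ≠ j) {α β : ℝ} (h : α • y i + β • y j = 0) : α = 0 ∧ β = 0 := by
  classical
  have h1 := hy (fun m => if m = i then α else if m = j then β else 0) (by
    rw [← h]
    rw [Finset.sum_eq_add_of_mem i j (Finset.mem_univ _) (Finset.mem_univ _) hij]
    · simp [hij.symm]
    · intro m _ hm
      simp [hm.1, hm.2]) {i, j} (Finset.card_le_two.trans hd)
    (fun m hm => by
      rw [Finset.mem_insert, Finset.mem_singleton] at hm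
      push Not at hm
      simp [hm.1, hm.2])
  constructor
  · have := h1 i
    simpa using this
  · have := h1 j
    simpa [hij.symm] using this

theorem PV_bs_ne (s : Bool) : bs s ≠ 0 := by
  rcases bs_or s with h | h <;> rw [h] <;> norm_num

theorem PV_bs_inj {s t : Bool} (h : bs s = bs t) : s = t := by
  cases s <;> cases t
  · rfl
  · exfalso
    rw [bs_false, bs_true] at h
    norm_num at h
  · exfalso
    rw [bs_false, bs_true] at h
    norm_num at h
  · rfl

/-- PROOF: `GP` for the two indices (`d ≥ 2`): `bs s • y i = bs t • y j` with `i ≠ j` is a nontrivial relation of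
two vectors; `i = j`, `s ≠ t` gives `y i = 0`. -/
theorem sp_inj {n d : ℕ} {y : Fin n → E d} (hy : X.GP y) (hd : 2 ≤ d) :
    Function.Injective (sp y) := by
  rintro ⟨i, s⟩ ⟨j, t⟩ h
  have h1 : bs s • y i = bs t • y j := h
  by_cases hij : i = j
  · subst hij
    have h2 : (bs s - bs t) • y i = 0 := by rw [sub_smul, h1, sub_self]
    rcases smul_eq_zero.1 h2 with h3 | h3
    · rw [PV_bs_inj (sub_eq_zero.1 h3)]
    · exact absurd h3 (PV_ne_zero hy (by omega) i)
  · have h2 : bs s • y i + (-bs t) • y j = 0 := by rw [h1, neg_smul, add_neg_cancel]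
    exact absurd (PV_indep hy hd hij h2).1 (PV_bs_ne s)

theorem PV_card {n d : ℕ} {y : Fin n → E d} (hy : X.GP y) (hd : 2 ≤ d) : (PV y).card = 2 * n := by
  classical
  unfold PV
  rw [Finset.card_image_of_injective _ (sp_inj hy hd), Finset.card_univ, Fintype.card_prod,
    Fintype.card_fin, Fintype.card_bool, mul_comm]

/-- PROOF: the same functional (`l (bs s • y j) = ε * ε = 1`); the other points `bs t • y m` have
`|l| < 1` for `m ≠ i, j`, and `l = -1` at `- y i`, `- ε • y j`. -/
theorem Two.spt {n d : ℕ} {y : Fin n → E d} {i j : Fin n} {s : Bool}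
    (h : Two y i j (bs s)) {W : Finset (E d)}
    (hW : ∀ v, v ∈ W ↔ v = sp y (i, true) ∨ v = sp y (j, s)) : Spt (PV y) W := by
  obtain ⟨l, l1, l2, l3⟩ := h
  have e1 : l (sp y (i, true)) = 1 := by
    show l (bs true • y i) = 1
    rw [bs_true, one_smul, l1]
  have e2 : l (sp y (j, s)) = 1 := by
    show l (bs s • y j) = 1
    rw [map_smul, l2, smul_eq_mul, bs_mul_self]
  refine ⟨l, fun w hw => ?_, fun v hv hvW => ?_⟩
  · rcases (hW w).1 hw with h1 | h1
    · rw [h1, e1]
    · rw [h1, e2]
  · obtain ⟨⟨m, t⟩, rfl⟩ := mem_PV.1 hv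
    have hv2 : ¬ (sp y (m, t) = sp y (i, true) ∨ sp y (m, t) = sp y (j, s)) :=
      fun h1 => hvW ((hW _).2 h1)
    push Not at hv2
    show l (bs t • y m) < 1
    rw [map_smul, smul_eq_mul]
    by_cases hmi : m = i
    · subst hmi
      have ht : t = false := by
        cases t
        · rfl
        · exact absurd rfl hv2.1
      rw [ht, l1, bs_false]
      norm_num
    · by_cases hmj : m = j
      · subst hmj
        have ht : t = !s := by
          cases t <;> cases s
          · exact absurd rfl hv2.2
          · rfl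
          · rfl
          · exact absurd rfl hv2.2
        rw [ht, l2]
        cases s <;> norm_num
      · have h1 := l3 m hmi hmj
        have h2 : |bs t * l (y m)| < 1 := by rw [abs_mul, abs_bs, one_mul]; exact h1
        exact (abs_lt.1 h2).2

end Pool.Agent.H.MP_4bcbbd_co.C
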