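import Pool.Agent.H.MP_4bcbbd_co.C.PV

/-!
MP_4bcbbd_co, edges in all dimensions: the polytope of a configuration in strong general position is simplicial.
-/

set_option autoImplicit false

namespace Pool.Agent.H.MP_4bcbbd_co.C

open scoped BigOperators

/-- PROOF. Let `W ⊆ PV y`, `l = 1` on `W`. Let `T` be the set of the indices `i` with `sp y (i, s) ∈ W` for some
`s`; for `i ∈ T` there is exactly one such `s =: σ i` (`l (y i) = bs s`). If `T.card ≤ d` the vectors of `W` are
independent by `X.Gp_li` (signs do not matter; the map `T → W`, `i ↦ bs (σ i) • y i`, is a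
bijection). If `T.card ≥ d + 1` take `T' ⊆ T` with
`T'.card = d + 1` and the relation `z` of `X.GP.rel`; then
`∑ bs (σ i) * z i = ∑ z i * l (y i) = l (∑ z i • y i) = 0`, against `SGP`. -/
theorem PV_simp {n d : ℕ} {y : Fin n → E d} (hy : SGP y) (hd : 2 ≤ d) : Simp (PV y) := by
  classical
  intro W hW hspt
  obtain ⟨l, l1, -⟩ := hspt
  obtain ⟨hgp, hsg⟩ := hy
  -- the signed indices of `W`
  have hex : ∀ w : W, ∃ q : Fin n × Bool, sp y q = w := fun w => mem_PV.1 (hW w.2)
  choose q hq using hex
  have hlq : ∀ w : W, l (y (q w).1) = bs (q w).2 := by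
    intro w
    have h1 := l1 w w.2
    rw [← hq w] at h1
    have h2 : bs (q w).2 * l (y (q w).1) = 1 := by
      have h3 : l (bs (q w).2 • y (q w).1) = 1 := h1
      rwa [map_smul, smul_eq_mul] at h3
    calc l (y (q w).1) = (bs (q w).2 * bs (q w).2) * l (y (q w).1) := by
          rw [bs_mul_self, one_mul]
      _ = bs (q w).2 * (bs (q w).2 * l (y (q w).1)) := by ring
      _ = bs (q w).2 := by rw [h2, mul_one]
  have hinj : Function.Injective fun w : W => (q w).1 := by
    intro w w' h
    have h1 : (q w).1 = (q w').1 := h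
    have h2 : (q w).2 = (q w').2 := by
      apply PV_bs_inj
      rw [← hlq w, ← hlq w', h1]
    have h3 : q w = q w' := Prod.ext h1 h2
    apply Subtype.ext
    rw [← hq w, ← hq w', h3]
  obtain ⟨T, hT⟩ : ∃ T : Finset (Fin n), T = Finset.univ.image fun w : W => (q w).1 := ⟨_, rfl⟩
  have hsgn : ∃ σ : Fin n → ℝ, (∀ i, σ i = 1 ∨ σ i = -1) ∧ ∀ i ∈ T, l (y i) = σ i := by
    refine ⟨fun i => if l (y i) = 1 then 1 else -1, fun i => ?_, fun i hi => ?_⟩
    · by_cases h : l (y i) = 1
      · left
        simp [h]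
      · right
        simp [h]
    · rw [hT, Finset.mem_image] at hi
      obtain ⟨w, -, rfl⟩ := hi
      show l (y (q w).1) = if l (y (q w).1) = 1 then 1 else -1
      rcases bs_or (q w).2 with h | h
      · have h' : l (y (q w).1) = 1 := by rw [hlq w, h]
        rw [if_pos h', h']
      · have h' : l (y (q w).1) = -1 := by rw [hlq w, h]
        rw [if_neg (by rw [h']; norm_num), h']
  obtain ⟨σ, hσ, hσT⟩ := hsgn
  have hTc : T.card ≤ d := by
    by_contra hcon
    push Not at hcon
    obtain ⟨T', hT', hTc'⟩ := Finset.exists_subset_card_eq (s := T) (n := d + 1) hcon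
    obtain ⟨z, z1, z2, z3⟩ := hgp.rel T' hTc'
    have hne : ∃ i, z i ≠ 0 := by
      obtain ⟨i, hi⟩ : T'.Nonempty := Finset.card_pos.1 (by omega)
      exact ⟨i, z3 i hi⟩
    refine hsg z z1 hne T' hTc'.le z2 σ hσ ?_
    have h1 : ∑ i, σ i * z i = l (∑ i, z i • y i) := by
      rw [map_sum]
      refine Finset.sum_congr rfl fun i _ => ?_
      rw [map_smul, smul_eq_mul]
      by_cases hi : i ∈ T'
      · rw [hσT i (hT' hi), mul_comm]
      · rw [z2 i hi, mul_zero, zero_mul]
    rw [h1, z1, map_zero]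
  rw [Fintype.linearIndependent_iff]
  intro g hg w
  -- push the relation to the indices
  have h1 : ∑ w : W, (g w * bs (q w).2) • y (q w).1 = 0 := by
    rw [← hg]
    refine Finset.sum_congr rfl fun w _ => ?_
    rw [mul_smul]
    congr 1
    exact hq w
  obtain ⟨z, hz⟩ : ∃ z : Fin n → ℝ, z = fun i => ∑ w : W, if (q w).1 = i then
      g w * bs (q w).2 else 0 := ⟨_, rfl⟩
  have hz1 : ∑ i, z i • y i = 0 := by
    rw [← h1, hz]
    simp only [Finset.sum_smul]
    rw [Finset.sum_comm]
    refine Finset.sum_congr rfl fun w _ => ?_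
    rw [Finset.sum_eq_single (q w).1]
    · rw [if_pos rfl]
    · intro i _ hi
      rw [if_neg (Ne.symm hi), zero_smul]
    · intro h
      exact absurd (Finset.mem_univ _) h
  have hz2 : ∀ i, i ∉ T → z i = 0 := by
    intro i hi
    rw [hz]
    refine Finset.sum_eq_zero fun w _ => ?_
    rw [if_neg]
    intro h
    apply hi
    rw [hT, Finset.mem_image]
    exact ⟨w, Finset.mem_univ _, h⟩
  have hz3 : z (q w).1 = g w * bs (q w).2 := by
    rw [hz]
    show (∑ w' : W, if (q w').1 = (q w).1 then g w' * bs (q w').2 else 0) = g w * bs (q w).2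
    rw [Finset.sum_eq_single w]
    · rw [if_pos rfl]
    · intro w' _ hw'
      rw [if_neg]
      intro h
      exact hw' (hinj h)
    · intro h
      exact absurd (Finset.mem_univ _) h
  have h2 := hgp z hz1 T hTc hz2 (q w).1
  rw [hz3] at h2
  rcases mul_eq_zero.1 h2 with h | h
  · exact h
  · exact absurd h (PV_bs_ne _)

end Pool.Agent.H.MP_4bcbbd_co.C
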