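import Pool.Agent.H.MP_4bcbbd_co.C.Cfg

/-!
MP_4bcbbd_co, edges in all dimensions: a packing bound.
-/

set_option autoImplicit false

namespace Pool.Agent.H.MP_4bcbbd_co.C

open scoped BigOperators
open MeasureTheory

/-- A packing bound: finitely many points of the closure of a bounded open convex set `P` such that any two different ones are
separated by a functional which is `1` and `-1` at them and of absolute value `< 1` on `P`; then there are at most `2^d` points.
PROOF. The sets `B i = (P + x i) / 2` are in `P`, of volume `2^(-d) * volume P`, and pairwise disjoint. -/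
theorem packing {d : ℕ} {ι : Type} [Fintype ι] (P : Set (E d)) (hP : IsOpen P) (hc : Convex ℝ P)
    (hb : Bornology.IsBounded P) (h0 : (0 : E d) ∈ P) (x : ι → E d)
    (hx : ∀ i, x i ∈ closure P)
    (hsep : ∀ i j, i ≠ j → ∃ l : E d →L[ℝ] ℝ, l (x i) = 1 ∧ l (x j) = -1 ∧
      ∀ z ∈ P, |l z| < 1) : Fintype.card ι ≤ 2 ^ d := by
  classical
  let B : ι → Set (E d) := fun i => {w | (2 : ℝ) • w - x i ∈ P}
  have hBo : ∀ i, IsOpen (B i) := by
    intro i
    have h1 : Continuous fun w : E d => (2 : ℝ) • w - x i := by fun_prop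
    exact hP.preimage h1
  have hBim : ∀ i, B i = AffineMap.homothety (x i) (1 / 2 : ℝ) '' P := by
    intro i
    ext w
    constructor
    · intro hw
      refine ⟨(2 : ℝ) • w - x i, hw, ?_⟩
      rw [AffineMap.homothety_apply, vsub_eq_sub, vadd_eq_add]
      module
    · rintro ⟨z, hz, rfl⟩
      show (2 : ℝ) • (AffineMap.homothety (x i) (1 / 2 : ℝ) z) - x i ∈ P
      have h1 : (2 : ℝ) • (AffineMap.homothety (x i) (1 / 2 : ℝ) z) - x i = z := by
        rw [AffineMap.homothety_apply, vsub_eq_sub, vadd_eq_add]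
        module
      rw [h1]
      exact hz
  have hBP : ∀ i, B i ⊆ P := by
    intro i w hw
    have h1 : (2 : ℝ) • w - x i ∈ interior P := by
      rw [hP.interior_eq]
      exact hw
    have h2 := hc.openSegment_interior_closure_subset_interior h1 (hx i)
    have h3 : w ∈ openSegment ℝ ((2 : ℝ) • w - x i) (x i) := by
      refine ⟨1 / 2, 1 / 2, by norm_num, by norm_num, by norm_num, ?_⟩
      module
    exact interior_subset (h2 h3)
  have hdisj : ∀ i j, i ≠ j → Disjoint (B i) (B j) := by
    intro i j hij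
    rw [Set.disjoint_left]
    intro w hwi hwj
    obtain ⟨l, l1, l2, l3⟩ := hsep i j hij
    have h1 := l3 _ hwi
    have h2 := l3 _ hwj
    rw [map_sub, map_smul, smul_eq_mul, l1] at h1
    rw [map_sub, map_smul, smul_eq_mul, l2] at h2
    have h3 := (abs_lt.1 h1).1
    have h4 := (abs_lt.1 h2).2
    linarith
  have hvol : ∀ i, (volume (B i)).toReal = (1 / 2 : ℝ) ^ d * (volume P).toReal := by
    intro i
    have hfr : Module.finrank ℝ (E d) = d := finrank_euclideanSpace_fin
    rw [hBim, Measure.addHaar_image_homothety, hfr, ENNReal.toReal_mul,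
      ENNReal.toReal_ofReal (abs_nonneg _), abs_of_nonneg (by positivity)]
  have hPfin : volume P < ⊤ := hb.measure_lt_top
  have hPpos : 0 < volume P := hP.measure_pos volume ⟨0, h0⟩
  have hsum : ∑ i : ι, volume (B i) ≤ volume P := by
    rw [← measure_biUnion_finset (s := Finset.univ) (f := B)
      (fun i _ j _ hij => hdisj i j hij) fun i _ => (hBo i).measurableSet]
    exact measure_mono (Set.iUnion₂_subset fun i _ => hBP i)
  have hBfin : ∀ i, volume (B i) ≠ ⊤ := fun i =>
    ((measure_mono (hBP i)).trans_lt hPfin).ne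
  have h1 : ∑ i : ι, (volume (B i)).toReal ≤ (volume P).toReal := by
    rw [← ENNReal.toReal_sum fun i _ => hBfin i]
    exact ENNReal.toReal_mono hPfin.ne hsum
  rw [Finset.sum_congr rfl fun i _ => hvol i, Finset.sum_const, Finset.card_univ,
    nsmul_eq_mul] at h1
  have hV : 0 < (volume P).toReal := ENNReal.toReal_pos hPpos.ne' hPfin.ne
  have h2 : (Fintype.card ι : ℝ) * (1 / 2) ^ d ≤ 1 := by
    have h3 : ((Fintype.card ι : ℝ) * (1 / 2) ^ d) * (volume P).toReal ≤
        1 * (volume P).toReal := by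
      rw [one_mul, mul_assoc]
      exact h1
    exact le_of_mul_le_mul_right h3 hV
  have h4 : (Fintype.card ι : ℝ) ≤ 2 ^ d := by
    have h5 : ((1 : ℝ) / 2) ^ d * 2 ^ d = 1 := by
      rw [← mul_pow]
      norm_num
    have h6 : (0 : ℝ) < 2 ^ d := by positivity
    calc (Fintype.card ι : ℝ) = (Fintype.card ι : ℝ) * (((1 : ℝ) / 2) ^ d * 2 ^ d) := by
          rw [h5, mul_one]
      _ = ((Fintype.card ι : ℝ) * (1 / 2) ^ d) * 2 ^ d := by ring
      _ ≤ 1 * 2 ^ d := mul_le_mul_of_nonneg_right h2 h6.le
      _ = 2 ^ d := one_mul _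
  exact_mod_cast h4

end Pool.Agent.H.MP_4bcbbd_co.C
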