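import Pool.Agent.H.MP_4bcbbd_co.C.Inner
import Pool.Agent.H.MP_4bcbbd_co.C.CrossF

/-!
MP_4bcbbd_co, edges in all dimensions: the points on the curves of the clusters.
-/

set_option autoImplicit false

namespace Pool.Agent.H.MP_4bcbbd_co.C

open scoped BigOperators

/-- PROOF. `f` from `exists_fam`; `g a`, `v a`, `w a` from `exists_cv`. Take `δ > 0` below all the
numbers of `inner_face` (for the clusters `a`) and of `cross_face` (for `a ≠ b`, `s`). Let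
`par i = δ * (i + 1) / (n + 1)` (in `(0, δ)`, injective), `cl i = i % k`, and
`x i = cv (p (cl i)) (u (cl i)) (v (cl i)) (w (cl i)) (par i)`. For `i ≠ j` in the same cluster (then `s = true`) use `inner_face`, for
different clusters `cross_face`; the other points `m` are in one of the clusters with a different parameter, or in another cluster. -/
theorem exists_points {d k : ℕ} (hd : 4 ≤ d) (hk : 2 ≤ k) {p u : Fin k → E d}
    (h : Tangent p u) (n : ℕ) : ∃ x : Fin n → E d, ∀ i j : Fin n, i ≠ j → ∀ s : Bool,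
      (s = true ∨ (i : ℕ) % k ≠ (j : ℕ) % k) → Two x i j (bs s) := by
  classical
  obtain ⟨f, hf⟩ := exists_fam h
  choose g v w hcv using fun a => exists_cv hd hk h hf a
  have hin : ∀ a : Fin k, ∃ δ : ℝ, 0 < δ ∧ ∀ s₁ s₂ : ℝ, |s₁| < δ → |s₂| < δ →
      ∃ l : E d →L[ℝ] ℝ,
      l (cv (p a) (u a) (v a) (w a) s₁) = 1 ∧ l (cv (p a) (u a) (v a) (w a) s₂) = 1 ∧
      (∀ σ : ℝ, |σ| < δ → σ ≠ s₁ → σ ≠ s₂ → |l (cv (p a) (u a) (v a) (w a) σ)| < 1) ∧
      ∀ c, c ≠ a → ∀ σ : ℝ, |σ| < δ → |l (cv (p c) (u c) (v c) (w c) σ)| < 1 := fun a =>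
    inner_face (hcv a).gp (hcv a).gu (hcv a).gv (hcv a).gw (hcv a).gc (hcv a).li
  choose δi hδi hin using hin
  have hcr : ∀ I : (Fin k × Fin k) × Bool, ∃ δ : ℝ, 0 < δ ∧ (I.1.1 ≠ I.1.2 →
      ∀ s₁ s₂ : ℝ, |s₁| < δ → |s₂| < δ → ∃ l : E d →L[ℝ] ℝ,
      l (cv (p I.1.1) (u I.1.1) (v I.1.1) (w I.1.1) s₁) = 1 ∧
      l (cv (p I.1.2) (u I.1.2) (v I.1.2) (w I.1.2) s₂) = bs I.2 ∧
      (∀ σ : ℝ, |σ| < δ → σ ≠ s₁ →
        |l (cv (p I.1.1) (u I.1.1) (v I.1.1) (w I.1.1) σ)| < 1) ∧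
      (∀ σ : ℝ, |σ| < δ → σ ≠ s₂ →
        |l (cv (p I.1.2) (u I.1.2) (v I.1.2) (w I.1.2) σ)| < 1) ∧
      ∀ c, c ≠ I.1.1 → c ≠ I.1.2 → ∀ σ : ℝ, |σ| < δ →
        |l (cv (p c) (u c) (v c) (w c) σ)| < 1) := by
    rintro ⟨⟨a, b⟩, s⟩
    by_cases hab : a = b
    · exact ⟨1, one_pos, fun h1 => absurd hab h1⟩
    · obtain ⟨δ, hδ, h1⟩ := cross_face (v := v) (w := w) h hf hab s
        ((hcv a).fv b (Ne.symm hab) s) ((hcv b).fv a hab s)
      exact ⟨δ, hδ, fun _ => h1⟩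
  choose δc hδc hcr using hcr
  have hmin : ∃ δ : ℝ, 0 < δ ∧ (∀ a, δ ≤ δi a) ∧ ∀ I, δ ≤ δc I := by
    haveI : Nonempty (Fin k) := ⟨⟨0, by omega⟩⟩
    obtain ⟨a, ha⟩ := Finite.exists_min δi
    obtain ⟨I, hI⟩ := Finite.exists_min δc
    exact ⟨min (δi a) (δc I), lt_min (hδi a) (hδc I), fun b => (min_le_left _ _).trans (ha b),
      fun J => (min_le_right _ _).trans (hI J)⟩
  obtain ⟨δ, hδ, hδi', hδc'⟩ := hmin
  have hk0 : 0 < k := by omega
  obtain ⟨cl, hcl⟩ : ∃ cl : Fin n → Fin k, cl = fun i => ⟨(i : ℕ) % k, Nat.mod_lt _ hk0⟩ :=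
    ⟨_, rfl⟩
  have hcl' : ∀ i j, cl i = cl j ↔ (i : ℕ) % k = (j : ℕ) % k := by
    intro i j
    rw [hcl]
    simp
  obtain ⟨par, hpar⟩ : ∃ par : Fin n → ℝ,
      par = fun i : Fin n => δ * (((i : ℕ) : ℝ) + 1) / (n + 1) := ⟨_, rfl⟩
  have hn0 : (0 : ℝ) < (n : ℝ) + 1 := by positivity
  have hpar1 : ∀ i, |par i| < δ := by
    intro i
    have h1 : (((i : ℕ) : ℝ) + 1) < (n : ℝ) + 1 := by
      have : ((i : ℕ) : ℝ) < (n : ℝ) := by exact_mod_cast i.2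
      linarith
    have h2 : 0 ≤ par i := by
      rw [hpar]
      positivity
    rw [abs_of_nonneg h2, hpar]
    show δ * (((i : ℕ) : ℝ) + 1) / (n + 1) < δ
    rw [div_lt_iff₀ hn0]
    exact mul_lt_mul_of_pos_left h1 hδ
  have hpar2 : ∀ i j, par i = par j → i = j := by
    intro i j hij
    rw [hpar] at hij
    have h1 : δ * (((i : ℕ) : ℝ) + 1) / (n + 1) = δ * (((j : ℕ) : ℝ) + 1) / (n + 1) := hij
    rw [div_left_inj' hn0.ne'] at h1
    have h2 := mul_left_cancel₀ hδ.ne' h1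
    have h3 : ((i : ℕ) : ℝ) = ((j : ℕ) : ℝ) := by linarith
    exact Fin.ext (by exact_mod_cast h3)
  refine ⟨fun i => cv (p (cl i)) (u (cl i)) (v (cl i)) (w (cl i)) (par i), ?_⟩
  intro i j hij s hs
  by_cases hcij : cl i = cl j
  · have hst : s = true := by
      rcases hs with h1 | h1
      · exact h1
      · exact absurd ((hcl' i j).1 hcij) h1
    subst hst
    obtain ⟨l, l1, l2, l3, l4⟩ := hin (cl i) (par i) (par j)
      ((hpar1 i).trans_le (hδi' _)) ((hpar1 j).trans_le (hδi' _))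
    refine ⟨l, l1, ?_, ?_⟩
    · show l (cv (p (cl j)) (u (cl j)) (v (cl j)) (w (cl j)) (par j)) = bs true
      rw [← hcij]
      exact l2
    · intro m hmi hmj
      show |l (cv (p (cl m)) (u (cl m)) (v (cl m)) (w (cl m)) (par m))| < 1
      by_cases hcm : cl m = cl i
      · rw [hcm]
        exact l3 (par m) ((hpar1 m).trans_le (hδi' _)) (fun h1 => hmi (hpar2 _ _ h1))
          (fun h1 => hmj (hpar2 _ _ h1))
      · exact l4 (cl m) hcm (par m) ((hpar1 m).trans_le (hδi' _))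
  · obtain ⟨l, l1, l2, l3, l4, l5⟩ := hcr ((cl i, cl j), s) hcij (par i) (par j)
      ((hpar1 i).trans_le (hδc' _)) ((hpar1 j).trans_le (hδc' _))
    refine ⟨l, l1, l2, ?_⟩
    intro m hmi hmj
    show |l (cv (p (cl m)) (u (cl m)) (v (cl m)) (w (cl m)) (par m))| < 1
    by_cases hcm : cl m = cl i
    · rw [hcm]
      exact l3 (par m) ((hpar1 m).trans_le (hδc' _)) (fun h1 => hmi (hpar2 _ _ h1))
    · by_cases hcm' : cl m = cl j
      · rw [hcm']
        exact l4 (par m) ((hpar1 m).trans_le (hδc' _)) (fun h1 => hmj (hpar2 _ _ h1))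
      · exact l5 (cl m) hcm hcm' (par m) ((hpar1 m).trans_le (hδc' _))

end Pool.Agent.H.MP_4bcbbd_co.C
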