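import Pool.Agent.H.MP_4bcbbd_co.C.Code
import Pool.Agent.H.MP_4bcbbd_co.X.Ramsey

/-!
MP_4bcbbd_co, edges in all dimensions: two points of every cluster seen by the same vertices.
-/

set_option autoImplicit false

namespace Pool.Agent.H.MP_4bcbbd_co.C

/-- labels: a basis and two points of every cluster. -/
abbrev Lab (K d : ℕ) := Fin d ⊕ (Fin K × Bool)

/-- the labelled points. -/
def wt {K d : ℕ} (b : Fin d → E d) (x : Fin K → ℕ → E d) (P : Fin K → ℕ × ℕ) : Lab K d → E d
  | Sum.inl i => b i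
  | Sum.inr (c, false) => x c (P c).1
  | Sum.inr (c, true) => x c (P c).2

theorem Seeing_wt {K d : ℕ} (b : Fin d → E d) (x : Fin K → ℕ → E d) (P : Fin K → ℕ × ℕ)
    (c : Fin K) (v : ℕ × ℕ) (i : Lab K d) (hi : ∀ t, i ≠ Sum.inr (c, t)) :
    wt b x (Function.update P c v) i = wt b x P i := by
  rcases i with i | ⟨c', t⟩
  · rfl
  · have hc : c' ≠ c := by
      rintro rfl
      exact hi t rfl
    cases t
    · show x c' (Function.update P c v c').1 = x c' (P c').1
      rw [Function.update_of_ne hc]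
    · show x c' (Function.update P c v c').2 = x c' (P c').2
      rw [Function.update_of_ne hc]

theorem Seeing_congr {d : ℕ} {Λ : Type} {w w' : Λ → E d} {A B : Set Λ} {τ : Λ → ℝ}
    (hA : ∀ i ∈ A, w' i = w i) (hB : ∀ i ∈ B, w' i = w i) : NN w' A B τ = NN w A B τ := by
  ext f
  constructor
  · rintro ⟨h1, h2⟩
    refine ⟨fun i hi => ?_, fun i hi => ?_⟩
    · rw [← hB i hi]
      exact h1 i hi
    · rw [← hA i hi]
      exact h2 i hi
  · rintro ⟨h1, h2⟩
    refine ⟨fun i hi => ?_, fun i hi => ?_⟩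
    · rw [hB i hi]
      exact h1 i hi
    · rw [hA i hi]
      exact h2 i hi

theorem Seeing_code {d : ℕ} {Λ : Type} {w w' : Λ → E d} {A : Set Λ} (f : E d →L[ℝ] ℝ)
    (hA : ∀ i ∈ A, w' i = w i) : code w' A f = code w A f := by
  unfold code
  congr 1
  · ext i
    constructor
    · rintro ⟨h1, h2⟩
      exact ⟨h1, by rw [← hA i h1]; exact h2⟩
    · rintro ⟨h1, h2⟩
      exact ⟨h1, by rw [hA i h1]; exact h2⟩
  · ext i
    constructor
    · rintro ⟨h1, h2⟩
      exact ⟨h1, by rw [← hA i h1]; exact h2⟩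
    · rintro ⟨h1, h2⟩
      exact ⟨h1, by rw [hA i h1]; exact h2⟩

/-- PROOF. Let `I = Fin K × Set (Lab K d) × Set (Lab K d) × (Lab K d → Bool) × Bool` (finite). Colour
`P : Fin K → ℕ × ℕ` by the function `I → Option (Set (Lab K d) × Set (Lab K d))` which maps
`(c, A, B, τ, s)` to `some (code (wt b x P) A g)` for a chosen `g ∈ extremePoints (NN (wt b x P) A B (bs ∘ τ))` with `1 < g (bs s • x c (P c).1)`, and
to `none` if there is none. `path_ramsey K _` gives `T` and for the colouring `p, q, r`. Let `(c, A, B, τ, s)` satisfy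
the hypotheses. The colour of `(p, q)` at this index is `some (code (wt b x (p,q)) A g₀)`; it is
equal to the colour of `P' = update (p,q) c (q c, r c)`, so there is
`g₁ ∈ extremePoints (NN (wt b x P') A B (bs ∘ τ))` with `1 < g₁ (bs s • x c (q c))` and `code (wt b x P') A g₁ = code (wt b x (p,q)) A g₀`. As
`A` and `B` contain no label of `c`, `NN` and `code` are the same for `P'` and `(p,q)`
(`wt b x P' i = wt b x (p,q) i` for the other labels), so `g₁ = g₀` by `code_inj`. -/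
theorem seeing (K d : ℕ) : ∃ T : ℕ, 0 < T ∧ ∀ (b : Fin d → E d) (x : Fin K → ℕ → E d),
    ∃ p q : Fin K → ℕ, (∀ a, p a < q a ∧ q a < T) ∧
      ∀ (c : Fin K) (A B : Set (Lab K d)) (τ : Lab K d → Bool) (s : Bool),
        (∀ t, Sum.inr (c, t) ∉ A ∧ Sum.inr (c, t) ∉ B) →
        (∃ g ∈ (NN (wt b x fun a => (p a, q a)) A B fun i => bs (τ i)).extremePoints ℝ,
          1 < g (bs s • x c (p c))) →
        ∃ g ∈ NN (wt b x fun a => (p a, q a)) A B fun i => bs (τ i),
          1 < g (bs s • x c (p c)) ∧ 1 < g (bs s • x c (q c)) := by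
  classical
  obtain ⟨T, hT, hR⟩ := X.path_ramsey K
    ((Fin K × Set (Lab K d) × Set (Lab K d) × (Lab K d → Bool) × Bool) →
      Option (Set (Lab K d) × Set (Lab K d)))
  refine ⟨T, hT, fun b x => ?_⟩
  let ok : (Fin K → ℕ × ℕ) → (Fin K × Set (Lab K d) × Set (Lab K d) × (Lab K d → Bool) × Bool) →
      (E d →L[ℝ] ℝ) → Prop := fun P I g =>
    g ∈ (NN (wt b x P) I.2.1 I.2.2.1 fun i => bs (I.2.2.2.1 i)).extremePoints ℝ ∧
      1 < g (bs I.2.2.2.2 • x I.1 (P I.1).1)
  obtain ⟨p, q, r, hpqr, hcol⟩ := hR fun P I =>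
    if h : ∃ g, ok P I g then some (code (wt b x P) I.2.1 h.choose) else none
  refine ⟨p, q, fun a => ⟨(hpqr a).1, (hpqr a).2.1.trans (hpqr a).2.2⟩, ?_⟩
  intro c A B τ s hAB hg
  have h1 := congrFun (hcol c) (c, A, B, τ, s)
  obtain ⟨P, hP⟩ : ∃ P : Fin K → ℕ × ℕ, P = fun a => (p a, q a) := ⟨_, rfl⟩
  have hex : ∃ g, ok P (c, A, B, τ, s) g := by
    obtain ⟨g, hg1, hg2⟩ := hg
    rw [hP]
    exact ⟨g, hg1, hg2⟩
  rw [← hP] at h1
  rw [dif_pos hex] at h1
  have hex' : ∃ g, ok (Function.update P c (q c, r c)) (c, A, B, τ, s) g := by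
    by_contra hcon
    rw [dif_neg hcon] at h1
    exact absurd h1 (by simp)
  rw [dif_pos hex'] at h1
  have h2 := Option.some.inj h1
  have hA : ∀ i ∈ A, wt b x (Function.update P c (q c, r c)) i = wt b x P i := by
    intro i hi
    refine Seeing_wt b x P c _ i fun t ht => ?_
    rw [ht] at hi
    exact (hAB t).1 hi
  have hB : ∀ i ∈ B, wt b x (Function.update P c (q c, r c)) i = wt b x P i := by
    intro i hi
    refine Seeing_wt b x P c _ i fun t ht => ?_
    rw [ht] at hi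
    exact (hAB t).2 hi
  obtain ⟨e1, e2⟩ := hex.choose_spec
  obtain ⟨e3, e4⟩ := hex'.choose_spec
  simp only at e1 e2 e3 e4 h2
  rw [Seeing_congr hA hB] at e3
  rw [Seeing_code _ hA] at h2
  have h3 := code_inj e1 e3 h2
  rw [Function.update_self] at e4
  rw [← h3] at e4
  rw [← hP]
  refine ⟨hex.choose, e1.1, ?_, e4⟩
  have hPc : (P c).1 = p c := by rw [hP]
  rw [hPc] at e2
  exact e2

end Pool.Agent.H.MP_4bcbbd_co.C
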