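import Pool.Agent.H.MP_4bcbbd_co.C.Cfg
import Pool.Agent.H.MP_4bcbbd_co.X.Gp
import Pool.Agent.H.MP_4bcbbd_co.X.GpEx

/-!
MP_4bcbbd_co, edges in all dimensions: strong general position.
-/

set_option autoImplicit false

namespace Pool.Agent.H.MP_4bcbbd_co.C

open scoped BigOperators

/-- strong general position: a linear relation of at most `d` of the vectors is trivial, and in a nontrivial
relation of `d + 1` of the vectors no signed sum of the coefficients vanishes. -/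
def SGP {n d : ℕ} (y : Fin n → E d) : Prop :=
  X.GP y ∧ ∀ z : Fin n → ℝ, ∑ i, z i • y i = 0 → (∃ i, z i ≠ 0) →
    ∀ T : Finset (Fin n), T.card ≤ d + 1 → (∀ i, i ∉ T → z i = 0) →
      ∀ σ : Fin n → ℝ, (∀ i, σ i = 1 ∨ σ i = -1) → ∑ i, σ i * z i ≠ 0

/-- A point near `q₀` outside finitely many proper subspaces.
PROOF: `v` outside all of them (`Subspace.biUnion_ne_univ_of_top_notMem`); every `U` contains at most one point
`q₀ + t • v` (`X.gpEx_subsingleton`); take a small `t > 0` outside a finite set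
(`Set.Ioo_infinite`), as in `X.exists_gp`. -/
theorem exists_avoid {n : ℕ} (s : Finset (Subspace ℝ (Fin n → ℝ))) (hs : ⊤ ∉ s) (q₀ : Fin n → ℝ)
    {δ : ℝ} (hδ : 0 < δ) : ∃ q : Fin n → ℝ, (∀ i, |q i - q₀ i| < δ) ∧ ∀ U ∈ s, q ∉ U := by
  classical
  have h2 := Subspace.biUnion_ne_univ_of_top_notMem hs
  rw [Set.ne_univ_iff_exists_notMem] at h2
  obtain ⟨v, hv⟩ := h2
  have hv' : ∀ U ∈ s, v ∉ U := by
    intro U hU hvU
    refine hv ?_
    rw [Set.mem_iUnion₂]
    exact ⟨U, hU, hvU⟩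
  have hfin : (⋃ U ∈ s, {t : ℝ | q₀ + t • v ∈ U}).Finite := by
    refine Set.Finite.biUnion (Finset.finite_toSet _) fun U hU => ?_
    exact (X.gpEx_subsingleton _ _ _ (hv' U hU)).finite
  have hv0 : 0 < ‖v‖ + 1 := by positivity
  have hlt : (0 : ℝ) < δ / (‖v‖ + 1) := div_pos hδ hv0
  obtain ⟨t, ⟨ht1, ht2⟩, ht3⟩ := ((Set.Ioo_infinite hlt).sdiff hfin).nonempty
  refine ⟨q₀ + t • v, fun i => ?_, fun U hU hmem => ht3 ?_⟩
  · have h1 : (q₀ + t • v) i - q₀ i = t * v i := by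
      simp
    rw [h1, abs_mul, abs_of_pos ht1]
    have h3 : t * (‖v‖ + 1) < δ := (lt_div_iff₀ hv0).1 ht2
    have h4 : |v i| ≤ ‖v‖ := norm_le_pi_norm v i
    nlinarith
  · rw [Set.mem_iUnion₂]
    exact ⟨U, hU, hmem⟩

/-- the hyperplane of the signed coefficients. -/
def Sgp_U {n : ℕ} (c : Fin n → ℝ) : Subspace ℝ (Fin n → ℝ) where
  carrier := {q | ∑ i, c i * q i = 0}
  add_mem' := by
    intro a b ha hb
    simp only [Set.mem_setOf_eq] at ha hb ⊢
    simp only [Pi.add_apply, mul_add, Finset.sum_add_distrib, ha, hb, add_zero]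
  zero_mem' := by simp
  smul_mem' := by
    intro c' x hx
    simp only [Set.mem_setOf_eq] at hx ⊢
    have h1 : ∑ i, c i * (c' • x) i = c' * ∑ i, c i * x i := by
      rw [Finset.mul_sum]
      refine Finset.sum_congr rfl fun i _ => ?_
      rw [Pi.smul_apply, smul_eq_mul]
      ring
    rw [h1, hx, mul_zero]

theorem Sgp_mem {n : ℕ} {c q : Fin n → ℝ} : q ∈ Sgp_U c ↔ ∑ i, c i * q i = 0 := Iff.rfl

theorem Sgp_ne_top {n : ℕ} {c : Fin n → ℝ} {i : Fin n} (hi : c i ≠ 0) : Sgp_U c ≠ ⊤ := by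
  classical
  intro h
  have h1 : (Pi.single i 1 : Fin n → ℝ) ∈ Sgp_U c := by
    rw [h]
    exact Submodule.mem_top
  rw [Sgp_mem, Finset.sum_eq_single i] at h1
  · rw [Pi.single_eq_same, mul_one] at h1
    exact hi h1
  · intro j _ hj
    rw [Pi.single_eq_of_ne hj, mul_zero]
  · intro h2
    exact absurd (Finset.mem_univ i) h2

/-- PROOF. `X.exists_gp x (δ/2)` gives `y'` in general position. For every `T : Finset (Fin n)` with
`T.card = d + 1` choose a relation `z_T` (`X.GP.rel`), nonzero exactly on `T`. For every `σ : Fin n → Bool` the subspace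
`U_{T,σ} = {q | ∑ i, bs (σ i) * z_T i * q i = 0}` is proper (it does not contain
`Pi.single i 1` for `i ∈ T`). Take `q` near `fun _ => 1` (`|q i - 1| < η`, `η ≤ 1/2`) outside all of them (`exists_avoid`), and
`y i = (q i)⁻¹ • y' i`; `‖y i - y' i‖ ≤ |(q i)⁻¹ - 1| ‖y' i‖ ≤ 2 η ‖y' i‖ < δ/2` for small `η`.
If `∑ z i • y i = 0` then `z' i = z i * (q i)⁻¹` is a relation of `y'` with the same support, so `X.GP y` is
clear. If the support of `z ≠ 0` is in `T`, `T.card ≤ d + 1`: `T.card = d + 1` by `GP`, and `z' = c • z_T`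
(`c = z' i₀ / z_T i₀`, `i₀ ∈ T`; `z' - c • z_T` is a relation supported on `T.erase i₀`), `c ≠ 0`. So
`∑ σ i * z i = ∑ σ i * z' i * q i = c * ∑ σ i * z_T i * q i ≠ 0`. -/
theorem exists_sgp {d n : ℕ} (x : Fin n → E d) {δ : ℝ} (hδ : 0 < δ) :
    ∃ y : Fin n → E d, (∀ i, ‖y i - x i‖ < δ) ∧ SGP y := by
  classical
  obtain ⟨y', hy', hgp⟩ := X.exists_gp x (δ / 2) (half_pos hδ)
  have hrel : ∀ T : Finset (Fin n), ∃ z : Fin n → ℝ, T.card = d + 1 →
      ∑ i, z i • y' i = 0 ∧ (∀ i, i ∉ T → z i = 0) ∧ ∀ i ∈ T, z i ≠ 0 := by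
    intro T
    by_cases hT : T.card = d + 1
    · obtain ⟨z, hz⟩ := hgp.rel T hT
      exact ⟨z, fun _ => hz⟩
    · exact ⟨0, fun h => absurd h hT⟩
  choose Z hZ using hrel
  obtain ⟨s, hs⟩ : ∃ s : Finset (Subspace ℝ (Fin n → ℝ)), s =
      ((Finset.univ : Finset (Finset (Fin n) × (Fin n → Bool))).filter
        fun q => q.1.card = d + 1).image
        fun q => Sgp_U fun i => bs (q.2 i) * Z q.1 i := ⟨_, rfl⟩
  have htop : ⊤ ∉ s := by
    rw [hs, Finset.mem_image]
    rintro ⟨q, hq, hqt⟩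
    have hc := (Finset.mem_filter.1 hq).2
    obtain ⟨i, hi⟩ : q.1.Nonempty := Finset.card_pos.1 (by omega)
    refine Sgp_ne_top (c := fun i => bs (q.2 i) * Z q.1 i) (i := i) ?_ hqt
    refine mul_ne_zero ?_ ((hZ q.1 hc).2.2 i hi)
    rcases bs_or (q.2 i) with h | h <;> rw [h] <;> norm_num
  obtain ⟨M, hM⟩ : ∃ M : ℝ, M = 1 + ∑ i, ‖y' i‖ := ⟨_, rfl⟩
  have hM0 : 0 ≤ ∑ i, ‖y' i‖ := Finset.sum_nonneg fun _ _ => norm_nonneg _
  have hMi : ∀ i, ‖y' i‖ ≤ M := by
    intro i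
    have := Finset.single_le_sum (f := fun i => ‖y' i‖) (fun i _ => norm_nonneg _)
      (Finset.mem_univ i)
    rw [hM]
    linarith
  have hMpos : 0 < M := by rw [hM]; linarith
  obtain ⟨η, hη⟩ : ∃ η : ℝ, η = min (1 / 2) (δ / (4 * M)) := ⟨_, rfl⟩
  have hη0 : 0 < η := by
    rw [hη]
    exact lt_min (by norm_num) (by positivity)
  have hη1 : η ≤ 1 / 2 := by rw [hη]; exact min_le_left _ _
  have hη2 : η * (4 * M) ≤ δ := by
    have : η ≤ δ / (4 * M) := by rw [hη]; exact min_le_right _ _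
    rwa [le_div_iff₀ (by positivity)] at this
  obtain ⟨q, hq1, hq2⟩ := exists_avoid s htop (fun _ => 1) hη0
  have hqpos : ∀ i, 1 / 2 < q i := by
    intro i
    have := (abs_lt.1 (hq1 i)).1
    linarith
  have hq0 : ∀ i, q i ≠ 0 := by
    intro i h
    have := hqpos i
    rw [h] at this
    norm_num at this
  refine ⟨fun i => (q i)⁻¹ • y' i, ?_, ?_, ?_⟩
  · intro i
    have h1 : ‖(q i)⁻¹ • y' i - y' i‖ ≤ δ / 2 := by
      have h2 : (q i)⁻¹ • y' i - y' i = ((q i)⁻¹ - 1) • y' i := by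
        rw [sub_smul, one_smul]
      have h3 : |(q i)⁻¹ - 1| ≤ 2 * η := by
        have h4 : (q i)⁻¹ - 1 = (1 - q i) * (q i)⁻¹ := by
          rw [sub_mul, one_mul, mul_inv_cancel₀ (hq0 i)]
        have h5 : (q i)⁻¹ ≤ 2 := by
          rw [inv_le_comm₀ (by linarith [hqpos i]) (by norm_num)]
          linarith [hqpos i]
        have h6 : 0 ≤ (q i)⁻¹ := inv_nonneg.2 (by linarith [hqpos i])
        rw [h4, abs_mul, abs_of_nonneg h6, abs_sub_comm]
        have h7 := (hq1 i).le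
        nlinarith [abs_nonneg (q i - 1)]
      rw [h2, norm_smul, Real.norm_eq_abs]
      have h8 := hMi i
      have h9 := norm_nonneg (y' i)
      calc |(q i)⁻¹ - 1| * ‖y' i‖ ≤ (2 * η) * M := by
            refine mul_le_mul h3 h8 h9 (by positivity)
        _ ≤ δ / 2 := by linarith
    calc ‖(q i)⁻¹ • y' i - x i‖ = ‖((q i)⁻¹ • y' i - y' i) + (y' i - x i)‖ := by
          congr 1
          abel
      _ ≤ ‖(q i)⁻¹ • y' i - y' i‖ + ‖y' i - x i‖ := norm_add_le _ _
      _ < δ / 2 + δ / 2 := add_lt_add_of_le_of_lt h1 (hy' i)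
      _ = δ := by ring
  · intro z hz T hT hoff i
    have h1 : ∑ i, (z i * (q i)⁻¹) • y' i = 0 := by
      rw [← hz]
      refine Finset.sum_congr rfl fun i _ => ?_
      rw [smul_smul]
    have h2 := hgp (fun i => z i * (q i)⁻¹) h1 T hT (fun j hj => by
      show z j * (q j)⁻¹ = 0
      rw [hoff j hj, zero_mul]) i
    have h3 : z i * (q i)⁻¹ = 0 := h2
    rcases mul_eq_zero.1 h3 with h | h
    · exact h
    · exact absurd h (inv_ne_zero (hq0 i))
  · intro z hz hne T hT hoff σ hσ hsum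
    obtain ⟨z', hz'⟩ : ∃ z' : Fin n → ℝ, z' = fun i => z i * (q i)⁻¹ := ⟨_, rfl⟩
    have hz'i : ∀ i, z' i * q i = z i := by
      intro i
      rw [hz']
      show z i * (q i)⁻¹ * q i = z i
      rw [mul_assoc, inv_mul_cancel₀ (hq0 i), mul_one]
    have h1 : ∑ i, z' i • y' i = 0 := by
      rw [← hz, hz']
      refine Finset.sum_congr rfl fun i _ => ?_
      rw [smul_smul]
    have hoff' : ∀ i, i ∉ T → z' i = 0 := by
      intro i hi
      rw [hz']
      show z i * (q i)⁻¹ = 0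
      rw [hoff i hi, zero_mul]
    obtain ⟨i₁, hi₁⟩ := hne
    have hi₁' : z' i₁ ≠ 0 := by
      intro h
      have := hz'i i₁
      rw [h, zero_mul] at this
      exact hi₁ this.symm
    have hTc : T.card = d + 1 := by
      by_contra hcon
      exact hi₁' (hgp z' h1 T (by omega) hoff' i₁)
    obtain ⟨r1, r2, r3⟩ := hZ T hTc
    have hi₁T : i₁ ∈ T := by
      by_contra h
      exact hi₁' (hoff' i₁ h)
    obtain ⟨c, hc⟩ : ∃ c : ℝ, c = z' i₁ / Z T i₁ := ⟨_, rfl⟩
    have hc0 : c ≠ 0 := by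
      rw [hc]
      exact div_ne_zero hi₁' (r3 i₁ hi₁T)
    have hdiff : ∀ i, z' i - c * Z T i = 0 := by
      refine hgp (fun i => z' i - c * Z T i) ?_ (T.erase i₁) ?_ ?_
      · simp only [sub_smul, Finset.sum_sub_distrib, mul_smul]
        rw [h1, ← Finset.smul_sum, r1, smul_zero, sub_zero]
      · rw [Finset.card_erase_of_mem hi₁T, hTc]
        exact le_refl d
      · intro j hj
        by_cases hji : j = i₁
        · rw [hji, hc, div_mul_cancel₀ _ (r3 i₁ hi₁T), sub_self]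
        · have hjT : j ∉ T := fun h => hj (Finset.mem_erase.2 ⟨hji, h⟩)
          rw [hoff' j hjT, r2 j hjT, mul_zero, sub_zero]
    have hσ' : ∃ σ' : Fin n → Bool, ∀ i, σ i = bs (σ' i) := by
      refine ⟨fun i => decide (σ i = 1), fun i => ?_⟩
      rcases hσ i with h | h
      · simp [h]
      · have h2 : ¬ ((-1 : ℝ) = 1) := by norm_num
        simp [h, h2]
    obtain ⟨σ', hσ'⟩ := hσ'
    refine hq2 (Sgp_U fun i => bs (σ' i) * Z T i) ?_ ?_
    · rw [hs, Finset.mem_image]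
      exact ⟨(T, σ'), Finset.mem_filter.2 ⟨Finset.mem_univ _, hTc⟩, rfl⟩
    · rw [Sgp_mem]
      have h2 : ∑ i, σ i * z i = c * ∑ i, bs (σ' i) * Z T i * q i := by
        rw [Finset.mul_sum]
        refine Finset.sum_congr rfl fun i _ => ?_
        have h3 : z' i = c * Z T i := by
          have := hdiff i
          linarith
        rw [hσ' i, ← hz'i i, h3]
        ring
      rw [h2] at hsum
      rcases mul_eq_zero.1 hsum with h | h
      · exact absurd h hc0
      · exact h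

end Pool.Agent.H.MP_4bcbbd_co.C
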