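import Pool.Agent.H.MP_4bcbbd_co.C.CurveA

/-!
MP_4bcbbd_co, edges in all dimensions: a functional tangent to the curve of a cluster.
-/

set_option autoImplicit false

namespace Pool.Agent.H.MP_4bcbbd_co.C

open scoped BigOperators

/-- A functional which is tangent to the curve at the parameter `s`, with value `ε = ±1`, is of absolute
value `< 1` at the other small parameters.
PROOF. Multiply by `ε`: let `F σ = c₀ (1 - σ⁴) + c₁ σ + c₂ σ² + c₃ σ³` with `F s = 1`, `F' s = 0`,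
`c₀, .., c₃ = ε * f p, ..`. Then
`F σ - 1 = (σ - s)² (c₂ + c₃ (σ + 2 s) - c₀ (σ² + 2 σ s + 3 s²))` (identity modulo the two equations).
If `c₂ ≤ -κ`, `|c₀|, |c₃| ≤ M` and `δ` is small (`3 δ M + 6 δ² M < κ`, `δ ≤ 1`) the bracket is negative for
`|s|, |σ| < δ`, so `F σ < 1` for `σ ≠ s`. `F σ > -1` because `F σ` is near `1`:
`|F σ - 1| ≤ 4 δ² (|c₂| + 9 M) < 2`. -/
theorem tangent_lt {d : ℕ} {p u v w : E d} {f : E d →L[ℝ] ℝ} {κ M δ ε : ℝ} (hκ : 0 < κ)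
    (hM : 1 ≤ M) (hε : ε = 1 ∨ ε = -1) (hδ : 0 < δ) (hδ1 : 100 * M * δ ≤ κ)
    (hδ2 : 100 * M * δ ≤ 1) (h0 : |f p| ≤ M)
    (h2 : ε * f v ≤ -κ) (h2' : |f v| ≤ M) (h3 : |f w| ≤ M) {s σ : ℝ} (hs : |s| < δ)
    (hσ : |σ| < δ) (hne : σ ≠ s) (e1 : f (cv p u v w s) = ε) (e2 : f (cv' p u v w s) = 0) :
    |f (cv p u v w σ)| < 1 := by
  have hεε : ε * ε = 1 := by
    rcases hε with h | h <;> rw [h] <;> norm_num
  have hεa : |ε| = 1 := by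
    rcases hε with h | h <;> rw [h] <;> norm_num
  obtain ⟨c0, hc0⟩ : ∃ c : ℝ, c = ε * f p := ⟨_, rfl⟩
  obtain ⟨c1, hc1⟩ : ∃ c : ℝ, c = ε * f u := ⟨_, rfl⟩
  obtain ⟨c2, hc2⟩ : ∃ c : ℝ, c = ε * f v := ⟨_, rfl⟩
  obtain ⟨c3, hc3⟩ : ∃ c : ℝ, c = ε * f w := ⟨_, rfl⟩
  rw [cv_apply] at e1
  rw [cv'_apply] at e2
  have e1' : (1 - s ^ 4) * c0 + s * c1 + s ^ 2 * c2 + s ^ 3 * c3 = 1 := by
    have : (1 - s ^ 4) * c0 + s * c1 + s ^ 2 * c2 + s ^ 3 * c3 =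
        ε * ((1 - s ^ 4) * f p + s * f u + s ^ 2 * f v + s ^ 3 * f w) := by
      rw [hc0, hc1, hc2, hc3]
      ring
    rw [this, e1, hεε]
  have e2' : -(4 * s ^ 3) * c0 + c1 + (2 * s) * c2 + (3 * s ^ 2) * c3 = 0 := by
    have : -(4 * s ^ 3) * c0 + c1 + (2 * s) * c2 + (3 * s ^ 2) * c3 =
        ε * (-(4 * s ^ 3) * f p + f u + (2 * s) * f v + (3 * s ^ 2) * f w) := by
      rw [hc0, hc1, hc2, hc3]
      ring
    rw [this, e2, mul_zero]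
  obtain ⟨X, hX⟩ : ∃ X : ℝ, X = ε * f (cv p u v w σ) := ⟨_, rfl⟩
  have hX' : X = (1 - σ ^ 4) * c0 + σ * c1 + σ ^ 2 * c2 + σ ^ 3 * c3 := by
    rw [hX, cv_apply, hc0, hc1, hc2, hc3]
    ring
  obtain ⟨D, hD⟩ : ∃ D : ℝ, D = c2 + c3 * (σ + 2 * s) -
      c0 * (σ ^ 2 + 2 * σ * s + 3 * s ^ 2) := ⟨_, rfl⟩
  have hid : X = 1 + (σ - s) ^ 2 * D := by
    rw [hX', hD]
    linear_combination e1' + (σ - s) * e2'
  have hc0' : |c0| ≤ M := by rw [hc0, abs_mul, hεa, one_mul]; exact h0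
  have hc2' : |c2| ≤ M := by rw [hc2, abs_mul, hεa, one_mul]; exact h2'
  have hc3' : |c3| ≤ M := by rw [hc3, abs_mul, hεa, one_mul]; exact h3
  have hc2'' : c2 ≤ -κ := by rw [hc2]; exact h2
  have hM0 : 0 ≤ M := by linarith
  have hδs : δ ≤ 1 / 100 := by nlinarith
  obtain ⟨s1, s2⟩ := abs_lt.1 hs
  obtain ⟨t1, t2⟩ := abs_lt.1 hσ
  have hs2 : s ^ 2 ≤ δ ^ 2 := by nlinarith
  have ht2 : σ ^ 2 ≤ δ ^ 2 := by nlinarith
  have b1 : |σ + 2 * s| ≤ 3 * δ := by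
    rw [abs_le]
    constructor <;> linarith
  have b2 : |σ ^ 2 + 2 * σ * s + 3 * s ^ 2| ≤ 6 * δ ^ 2 := by
    rw [abs_le]
    constructor
    · nlinarith [sq_nonneg (σ + s), sq_nonneg s, sq_nonneg δ]
    · nlinarith [sq_nonneg (σ - s)]
  have b3 : |c3 * (σ + 2 * s)| ≤ M * (3 * δ) := by
    rw [abs_mul]
    exact mul_le_mul hc3' b1 (abs_nonneg _) hM0
  have b4 : |c0 * (σ ^ 2 + 2 * σ * s + 3 * s ^ 2)| ≤ M * (6 * δ ^ 2) := by
    rw [abs_mul]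
    exact mul_le_mul hc0' b2 (abs_nonneg _) hM0
  have b5 : M * (6 * δ ^ 2) ≤ M * δ * (6 / 100) := by
    have h1 : M * (6 * δ ^ 2) = (M * δ) * (6 * δ) := by ring
    rw [h1]
    have h2 : 0 ≤ M * δ := by positivity
    nlinarith
  obtain ⟨b31, b32⟩ := abs_le.1 b3
  obtain ⟨b41, b42⟩ := abs_le.1 b4
  obtain ⟨b21, b22⟩ := abs_le.1 hc2'
  have hMδ : 0 < M * δ := by positivity
  have hDneg : D < 0 := by
    rw [hD]
    linarith
  have hDlow : -(M + 1) ≤ D := by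
    rw [hD]
    linarith
  have hsq : 0 < (σ - s) ^ 2 := by
    have : σ - s ≠ 0 := sub_ne_zero.2 hne
    positivity
  have hsq2 : (σ - s) ^ 2 ≤ 4 * δ ^ 2 := by nlinarith
  have hlt1 : X < 1 := by
    rw [hid]
    have := mul_neg_of_pos_of_neg hsq hDneg
    linarith
  have hgt : -1 < X := by
    rw [hid]
    have h1 : (σ - s) ^ 2 * (-D) ≤ (4 * δ ^ 2) * (M + 1) :=
      mul_le_mul hsq2 (by linarith) (by linarith) (by positivity)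
    have h4 : (4 * δ ^ 2) * (M + 1) = 4 * δ * (M * δ) + 4 * δ * δ := by ring
    have h5 : 4 * δ * (M * δ) ≤ 1 := by nlinarith
    have h6 : 4 * δ * δ < 1 := by nlinarith
    linarith
  have hXa : |X| < 1 := abs_lt.2 ⟨hgt, hlt1⟩
  rw [hX, abs_mul, hεa, one_mul] at hXa
  exact hXa

end Pool.Agent.H.MP_4bcbbd_co.C
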